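import Mathlib

/-!
# Transfer systems, finite `G`-sets, the `O`-Burnside category, rational `O`-Mackey functors
-/

set_option linter.unusedVariables false

open CategoryTheory MulAction

namespace Pool.Agent.Q20.MK

/-- A transfer system for the group `G`: a partial order `adm K H` (written `K → H`) on the
subgroups of `G` which refines inclusion, is stable under conjugation and under restriction.
(Antisymmetry is automatic, because `adm K H` implies `K ≤ H`.) -/
structure TransferSystem (G : Type) [Group G] where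
  /-- the relation `K → H` -/
  adm : Subgroup G → Subgroup G → Prop
  adm_le : ∀ {K H : Subgroup G}, adm K H → K ≤ H
  adm_refl : ∀ H : Subgroup G, adm H H
  adm_trans : ∀ {K L H : Subgroup G}, adm K L → adm L H → adm K H
  adm_conj : ∀ (g : G) {K H : Subgroup G}, adm K H →
    adm (K.map (MulAut.conj g).toMonoidHom) (H.map (MulAut.conj g).toMonoidHom)
  adm_restr : ∀ {K H L : Subgroup G}, adm K H → L ≤ H → adm (K ⊓ L) L

/-- A finite `G`-set. -/
structure GSet (G : Type) [Group G] where
  /-- the underlying finite set -/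
  carrier : Type
  [act : MulAction G carrier]
  [fin : Finite carrier]

section

variable {G : Type} [Group G]

instance : CoeSort (GSet G) Type := ⟨GSet.carrier⟩

instance (X : GSet G) : MulAction G X := X.act

instance (X : GSet G) : Finite X := X.fin

/-- The `G`-set `G / K`. -/
def orb [Finite G] (K : Subgroup G) : GSet G := ⟨G ⧸ K⟩

/-- The base point of `G / K`. -/
def pt [Finite G] (K : Subgroup G) : orb K := ((1 : G) : G ⧸ K)

/-- An equivariant map `f` is `O`-admissible if `Stab(x) → Stab(f x)` for every `x`. -/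
def TransferSystem.AdmMap (O : TransferSystem G) {X Y : GSet G} (f : X →[G] Y) : Prop :=
  ∀ x : X, O.adm (stabilizer G x) (stabilizer G (f x))

/-- The underlying set of the pullback of two equivariant maps. -/
def PbType {X Y Z : GSet G} (f : X →[G] Z) (g : Y →[G] Z) : Type :=
  {p : X × Y // f p.1 = g p.2}

theorem pb_smul_mem {X Y Z : GSet G} (f : X →[G] Z) (g : Y →[G] Z) (a : G) (p : X × Y)
    (h : f p.1 = g p.2) : f (a • p.1) = g (a • p.2) := by
  rw [map_smul, map_smul, h]

/-- The diagonal action on the pullback. -/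
def pbSmul {X Y Z : GSet G} (f : X →[G] Z) (g : Y →[G] Z) (a : G) (p : PbType f g) : PbType f g :=
  ⟨(a • p.1.1, a • p.1.2), pb_smul_mem f g a p.1 p.2⟩

theorem pb_one_smul {X Y Z : GSet G} (f : X →[G] Z) (g : Y →[G] Z) (p : PbType f g) :
    pbSmul f g 1 p = p :=
  Subtype.ext (Prod.ext (one_smul G p.1.1) (one_smul G p.1.2))

theorem pb_mul_smul {X Y Z : GSet G} (f : X →[G] Z) (g : Y →[G] Z) (a b : G) (p : PbType f g) :
    pbSmul f g (a * b) p = pbSmul f g a (pbSmul f g b p) :=
  Subtype.ext (Prod.ext (mul_smul a b p.1.1) (mul_smul a b p.1.2))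

theorem pb_finite {X Y Z : GSet G} (f : X →[G] Z) (g : Y →[G] Z) : Finite (PbType f g) :=
  inferInstanceAs (Finite {p : X × Y // f p.1 = g p.2})

/-- The action of `G` on the pullback. -/
instance pbAct {X Y Z : GSet G} (f : X →[G] Z) (g : Y →[G] Z) : MulAction G (PbType f g) where
  smul := pbSmul f g
  one_smul := pb_one_smul f g
  mul_smul := pb_mul_smul f g

/-- The pullback of two equivariant maps, as a finite `G`-set: the pairs `(x, y)` with
`f x = g y`. -/
def pb {X Y Z : GSet G} (f : X →[G] Z) (g : Y →[G] Z) : GSet G where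
  carrier := PbType f g
  act := pbAct f g
  fin := pb_finite f g

/-- First projection of the pullback. -/
def pb1 {X Y Z : GSet G} (f : X →[G] Z) (g : Y →[G] Z) : pb f g →[G] X where
  toFun p := p.1.1
  map_smul' _ _ := rfl

/-- Second projection of the pullback. -/
def pb2 {X Y Z : GSet G} (f : X →[G] Z) (g : Y →[G] Z) : pb f g →[G] Y where
  toFun p := p.1.2
  map_smul' _ _ := rfl

theorem admMap_id (O : TransferSystem G) (X : GSet G) : O.AdmMap (MulActionHom.id G : X →[G] X) :=
  fun x => O.adm_refl _

theorem admMap_comp (O : TransferSystem G) {X Y Z : GSet G} {f : X →[G] Y} {g : Y →[G] Z}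
    (hf : O.AdmMap f) (hg : O.AdmMap g) : O.AdmMap (g.comp f) :=
  fun x => O.adm_trans (hf x) (hg (f x))

theorem stab_le_map {X Y : GSet G} (f : X →[G] Y) (x : X) :
    stabilizer G x ≤ stabilizer G (f x) := by
  intro g hg
  rw [mem_stabilizer_iff] at hg ⊢
  rw [← map_smul, hg]

theorem stab_pb {X Y Z : GSet G} (f : X →[G] Z) (g : Y →[G] Z) (p : pb f g) :
    stabilizer G p = stabilizer G (pb1 f g p) ⊓ stabilizer G (pb2 f g p) := by
  ext a
  rw [Subgroup.mem_inf, mem_stabilizer_iff, mem_stabilizer_iff, mem_stabilizer_iff]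
  constructor
  · intro h
    refine ⟨?_, ?_⟩
    · rw [← map_smul, h]
    · rw [← map_smul, h]
  · rintro ⟨h1, h2⟩
    apply Subtype.ext
    exact Prod.ext h1 h2

/-- In a pullback square the map parallel to an admissible map is admissible. -/
theorem admMap_pb1 (O : TransferSystem G) {X Y Z : GSet G} (f : X →[G] Z) {g : Y →[G] Z}
    (hg : O.AdmMap g) : O.AdmMap (pb1 f g) := by
  intro p
  rw [stab_pb, inf_comm]
  apply O.adm_restr (hg (pb2 f g p))
  have h : g (pb2 f g p) = f (pb1 f g p) := p.2.symm
  rw [h]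
  exact stab_le_map f _

/-- In a pullback square the map parallel to an admissible map is admissible. -/
theorem admMap_pb2 (O : TransferSystem G) {X Y Z : GSet G} {f : X →[G] Z} (g : Y →[G] Z)
    (hf : O.AdmMap f) : O.AdmMap (pb2 f g) := by
  intro p
  rw [stab_pb]
  apply O.adm_restr (hf (pb1 f g p))
  have h : f (pb1 f g p) = g (pb2 f g p) := p.2
  rw [h]
  exact stab_le_map g _

/-! ## The span category -/

/-- A span `X ← U → Y` of finite `G`-sets with `O`-admissible right leg. -/
structure Span (O : TransferSystem G) (X Y : GSet G) where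
  /-- the apex `U` -/
  apex : GSet G
  /-- the left leg -/
  left : apex →[G] X
  /-- the right leg -/
  right : apex →[G] Y
  adm : O.AdmMap right

variable (O : TransferSystem G)

/-- Isomorphism of spans. -/
def Span.Rel {O : TransferSystem G} {X Y : GSet G} (s t : Span O X Y) : Prop :=
  ∃ e : s.apex →[G] t.apex, Function.Bijective e ∧ (∀ u, t.left (e u) = s.left u) ∧
    ∀ u, t.right (e u) = s.right u

theorem Span.Rel.refl {X Y : GSet G} (s : Span O X Y) : s.Rel s :=
  ⟨MulActionHom.id G, Function.bijective_id, fun _ => rfl, fun _ => rfl⟩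

theorem Span.Rel.symm {X Y : GSet G} {s t : Span O X Y} (h : s.Rel t) : t.Rel s := by
  obtain ⟨e, he, h1, h2⟩ := h
  let e' := Equiv.ofBijective e he
  have hs : ∀ v, e (e'.symm v) = v := fun v => Equiv.ofBijective_apply_symm_apply e he v
  refine ⟨⟨e'.symm, fun a v => ?_⟩, e'.symm.bijective, fun v => ?_, fun v => ?_⟩
  · apply he.1
    rw [hs, map_smul, hs]
    rfl
  · rw [← h1]
    exact congrArg t.left (hs v)
  · rw [← h2]
    exact congrArg t.right (hs v)

theorem Span.Rel.trans {X Y : GSet G} {s t r : Span O X Y} (h : s.Rel t) (h' : t.Rel r) :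
    s.Rel r := by
  obtain ⟨e, he, h1, h2⟩ := h
  obtain ⟨e', he', h1', h2'⟩ := h'
  exact ⟨e'.comp e, he'.comp he, fun u => (h1' (e u)).trans (h1 u),
    fun u => (h2' (e u)).trans (h2 u)⟩

/-- The setoid of isomorphism of spans. -/
instance Span.setoid (X Y : GSet G) : Setoid (Span O X Y) where
  r := Span.Rel
  iseqv := ⟨Span.Rel.refl O, Span.Rel.symm O, Span.Rel.trans O⟩

/-- Composition of spans by pullback. -/
def Span.comp {O : TransferSystem G} {X Y Z : GSet G} (s : Span O X Y) (t : Span O Y Z) :
    Span O X Z where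
  apex := pb s.right t.left
  left := s.left.comp (pb1 s.right t.left)
  right := t.right.comp (pb2 s.right t.left)
  adm := admMap_comp O (admMap_pb2 O t.left s.adm) t.adm

/-- The identity span. -/
def Span.id (X : GSet G) : Span O X X where
  apex := X
  left := MulActionHom.id G
  right := MulActionHom.id G
  adm := admMap_id O X

/-- The span category: objects are the finite `G`-sets, a morphism `X ⟶ Y` is an isomorphism
class of spans `X ← U → Y` whose right leg is `O`-admissible; composition is by pullback. -/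
structure SpanCat (O : TransferSystem G) where
  /-- the underlying `G`-set -/
  as : GSet G

theorem Span.comp_congr {X Y Z : GSet G} {s s' : Span O X Y} {t t' : Span O Y Z}
    (hs : s.Rel s') (ht : t.Rel t') : (s.comp t).Rel (s'.comp t') := by
  obtain ⟨e, he, h1, h2⟩ := hs
  obtain ⟨e', he', h1', h2'⟩ := ht
  refine ⟨⟨fun p => ⟨(e p.1.1, e' p.1.2), ?_⟩, fun a p => ?_⟩, ⟨?_, ?_⟩, fun p => ?_, fun p => ?_⟩
  · show s'.right (e p.1.1) = t'.left (e' p.1.2)
    rw [h2, h1']
    exact p.2
  · apply Subtype.ext
    exact Prod.ext (map_smul e a p.1.1) (map_smul e' a p.1.2)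
  · intro p q h
    apply Subtype.ext
    have h' : (e p.1.1, e' p.1.2) = (e q.1.1, e' q.1.2) := congrArg Subtype.val h
    rw [Prod.mk.injEq] at h'
    exact Prod.ext (he.1 h'.1) (he'.1 h'.2)
  · rintro ⟨⟨u, v⟩, huv⟩
    obtain ⟨u, rfl⟩ := he.2 u
    obtain ⟨v, rfl⟩ := he'.2 v
    have huv' : s.right u = t.left v := by
      rw [← h2, ← h1']
      exact huv
    exact ⟨⟨(u, v), huv'⟩, rfl⟩
  · exact h1 p.1.1
  · exact h2' p.1.2

theorem Span.id_comp {X Y : GSet G} (s : Span O X Y) : ((Span.id O X).comp s).Rel s := by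
  refine ⟨pb2 _ _, ⟨?_, ?_⟩, fun p => ?_, fun p => rfl⟩
  · rintro ⟨⟨u, v⟩, huv⟩ ⟨⟨u', v'⟩, huv'⟩ h
    have h' : v = v' := h
    have h1 : u = s.left v := huv
    have h2 : u' = s.left v' := huv'
    apply Subtype.ext
    exact Prod.ext (h1.trans ((congrArg s.left h').trans h2.symm)) h'
  · intro v
    exact ⟨⟨(s.left v, v), rfl⟩, rfl⟩
  · exact p.2.symm

theorem Span.comp_id {X Y : GSet G} (s : Span O X Y) : (s.comp (Span.id O Y)).Rel s := by
  refine ⟨pb1 _ _, ⟨?_, ?_⟩, fun p => rfl, fun p => ?_⟩
  · rintro ⟨⟨u, v⟩, huv⟩ ⟨⟨u', v'⟩, huv'⟩ h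
    have h' : u = u' := h
    have h1 : s.right u = v := huv
    have h2 : s.right u' = v' := huv'
    apply Subtype.ext
    exact Prod.ext h' (h1.symm.trans ((congrArg s.right h').trans h2))
  · intro v
    exact ⟨⟨(v, s.right v), rfl⟩, rfl⟩
  · exact p.2

theorem Span.assoc {X Y Z W : GSet G} (s : Span O X Y) (t : Span O Y Z) (r : Span O Z W) :
    ((s.comp t).comp r).Rel (s.comp (t.comp r)) := by
  refine ⟨⟨fun p => ⟨(p.1.1.1.1, ⟨(p.1.1.1.2, p.1.2), p.2⟩), p.1.1.2⟩, fun a p => rfl⟩,
    ⟨?_, ?_⟩, fun p => rfl, fun p => rfl⟩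
  · rintro ⟨⟨⟨⟨u, v⟩, huv⟩, w⟩, hw⟩ ⟨⟨⟨⟨u', v'⟩, huv'⟩, w'⟩, hw'⟩ h
    have h1 : u = u' := congrArg (fun q => q.1.1) h
    have h2 : v = v' := congrArg (fun q => q.1.2.1.1) h
    have h3 : w = w' := congrArg (fun q => q.1.2.1.2) h
    subst h1 h2 h3
    rfl
  · rintro ⟨⟨u, ⟨⟨v, w⟩, hvw⟩⟩, huv⟩
    exact ⟨⟨(⟨(u, v), huv⟩, w), hvw⟩, rfl⟩

/-- Morphisms of the span category: isomorphism classes of spans. -/
def SpanCat.Hom {O : TransferSystem G} (X Y : SpanCat O) : Type 1 :=
  Quotient (Span.setoid O X.as Y.as)

/-- The class of the identity span. -/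
def SpanCat.id (X : SpanCat O) : SpanCat.Hom X X := Quotient.mk _ (Span.id O X.as)

theorem SpanCat.comp_wd {X Y Z : SpanCat O} (s s' : Span O X.as Y.as) (hs : s ≈ s')
    (t t' : Span O Y.as Z.as) (ht : t ≈ t') : s.comp t ≈ s'.comp t' :=
  Span.comp_congr O hs ht

/-- Composition of isomorphism classes of spans. -/
def SpanCat.comp {X Y Z : SpanCat O} (f : SpanCat.Hom X Y) (g : SpanCat.Hom Y Z) :
    SpanCat.Hom X Z :=
  Quotient.map₂ Span.comp (SpanCat.comp_wd O) f g

theorem SpanCat.id_comp {X Y : SpanCat O} (f : SpanCat.Hom X Y) :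
    SpanCat.comp O (SpanCat.id O X) f = f := by
  induction f using Quotient.inductionOn with
  | h s => exact Quotient.sound (Span.id_comp O s)

theorem SpanCat.comp_id {X Y : SpanCat O} (f : SpanCat.Hom X Y) :
    SpanCat.comp O f (SpanCat.id O Y) = f := by
  induction f using Quotient.inductionOn with
  | h s => exact Quotient.sound (Span.comp_id O s)

theorem SpanCat.assoc {X Y Z W : SpanCat O} (f : SpanCat.Hom X Y) (g : SpanCat.Hom Y Z)
    (h : SpanCat.Hom Z W) :
    SpanCat.comp O (SpanCat.comp O f g) h = SpanCat.comp O f (SpanCat.comp O g h) := by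
  induction f using Quotient.inductionOn with
  | h s =>
    induction g using Quotient.inductionOn with
    | h t =>
      induction h using Quotient.inductionOn with
      | h r => exact Quotient.sound (Span.assoc O s t r)

instance : Category (SpanCat O) where
  Hom := SpanCat.Hom
  id := SpanCat.id O
  comp := SpanCat.comp O
  id_comp := SpanCat.id_comp O
  comp_id := SpanCat.comp_id O
  assoc := SpanCat.assoc O

/-- The morphism of the span category given by a span. -/
def spanHom {X Y : GSet G} (s : Span O X Y) : (⟨X⟩ : SpanCat O) ⟶ ⟨Y⟩ :=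
  Quotient.mk (Span.setoid O X Y) s

/-- The rational `O`-Burnside category: objects are the finite `G`-sets, morphisms `X ⟶ Y` are the
`ℚ`-linear combinations of isomorphism classes of spans `X ← U → Y` with `O`-admissible right leg,
composition is the bilinear extension of composition by pullback. -/
abbrev BurnsideCat (O : TransferSystem G) := Free ℚ (SpanCat O)

/-- A finite `G`-set as an object of the rational `O`-Burnside category. -/
def bObj (O : TransferSystem G) (X : GSet G) : BurnsideCat O := Free.of ℚ (⟨X⟩ : SpanCat O)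

/-- The class of a span as a morphism of the rational `O`-Burnside category. -/
noncomputable def bHom {O : TransferSystem G} {X Y : GSet G} (s : Span O X Y) :
    bObj O X ⟶ bObj O Y :=
  (Free.embedding ℚ (SpanCat O)).map (spanHom O s)

/-- The restriction along `f : X → Y`: the class of the span `Y ← X → X` with legs `f` and `id`. -/
noncomputable def resHom {X Y : GSet G} (f : X →[G] Y) : bObj O Y ⟶ bObj O X :=
  bHom ⟨X, f, MulActionHom.id G, admMap_id O X⟩

/-- `T` is the disjoint union of `X` and `Y` via the injective maps `i` and `j`. -/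
def IsDisj {X Y T : GSet G} (i : X →[G] T) (j : Y →[G] T) : Prop :=
  Function.Injective i ∧ Function.Injective j ∧ IsCompl (Set.range i) (Set.range j)

/-- The restriction `F Y → F X` along `f : X → Y` of a functor `F` on the Burnside category. -/
noncomputable def funRes {O : TransferSystem G} (F : BurnsideCat O ⥤ ModuleCat.{0} ℚ)
    {X Y : GSet G} (f : X →[G] Y) (m : F.obj (bObj O Y)) : F.obj (bObj O X) :=
  (F.map (resHom O f)).hom m

/-- `F` is additive on disjoint unions: if `T` is the disjoint union of `X` and `Y`, then the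
restrictions `F T → F X × F Y` form a bijection. -/
def AdditiveOnUnions {O : TransferSystem G} (F : BurnsideCat O ⥤ ModuleCat.{0} ℚ) : Prop :=
  ∀ ⦃X Y T : GSet G⦄ (i : X →[G] T) (j : Y →[G] T), IsDisj i j →
    Function.Bijective (fun m : F.obj (bObj O T) => (funRes F i m, funRes F j m))

/-- `F` is a `ℚ`-linear functor. -/
def IsLinear {O : TransferSystem G} (F : BurnsideCat O ⥤ ModuleCat.{0} ℚ) : Prop :=
  ∃ _ : F.Additive, F.Linear ℚ

/-- A rational `O`-Mackey functor is a `ℚ`-linear functor `F` from the rational `O`-Burnside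
category to `ℚ`-vector spaces which is additive: if `T` is the disjoint union of `X` and `Y`, then
the restrictions `F T → F X × F Y` form a bijection. -/
def IsMackey (O : TransferSystem G) : ObjectProperty (BurnsideCat O ⥤ ModuleCat.{0} ℚ) :=
  fun F => IsLinear F ∧ AdditiveOnUnions F

/-- The category of rational `O`-Mackey functors. -/
abbrev Mack (O : TransferSystem G) := (IsMackey O).FullSubcategory

end

end Pool.Agent.Q20.MK
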