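import Mathlib
import Pool.Agent.Q20.MK.Defs

/-!
# Project MK (MP_093cae_al): statements with proofs in the docstrings

`G` is a finite group, `O` a transfer system. All finite `G`-sets are in `Type`.
-/

set_option linter.unusedVariables false

open CategoryTheory MulAction

namespace Pool.Agent.Q20.MK

section

variable {G : Type} [Group G]

/-! ## Dress pairs -/

/-- `P` (with the maps `p`, `q`) is a pullback of `f : X → Z` and `g : Y → Z`. -/
def IsPB {P X Y Z : GSet G} (p : P →[G] X) (q : P →[G] Y) (f : X →[G] Z) (g : Y →[G] Z) : Prop :=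
  (∀ u, f (p u) = g (q u)) ∧ ∀ x y, f x = g y → ∃! u, p u = x ∧ q u = y

/-- A rational `O`-Mackey functor in the form of Dress. -/
structure Dress (O : TransferSystem G) where
  obj : GSet G → ModuleCat.{0} ℚ
  res : ∀ {X Y : GSet G}, (X →[G] Y) → (obj Y →ₗ[ℚ] obj X)
  tr : ∀ {X Y : GSet G} (f : X →[G] Y), O.AdmMap f → (obj X →ₗ[ℚ] obj Y)
  res_id : ∀ (X : GSet G) (m : obj X), res (MulActionHom.id G : X →[G] X) m = m
  res_comp : ∀ {X Y Z : GSet G} (f : X →[G] Y) (g : Y →[G] Z) (m : obj Z),
    res (g.comp f) m = res f (res g m)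
  tr_id : ∀ (X : GSet G) (h : O.AdmMap (MulActionHom.id G : X →[G] X)) (m : obj X),
    tr (MulActionHom.id G : X →[G] X) h m = m
  tr_comp : ∀ {X Y Z : GSet G} (f : X →[G] Y) (g : Y →[G] Z) (hf : O.AdmMap f) (hg : O.AdmMap g)
    (hgf : O.AdmMap (g.comp f)) (m : obj X), tr (g.comp f) hgf m = tr g hg (tr f hf m)
  base_change : ∀ {P X Y Z : GSet G} (p : P →[G] X) (q : P →[G] Y) (f : X →[G] Z) (g : Y →[G] Z)
    (hp : O.AdmMap p) (hg : O.AdmMap g), IsPB p q f g →
    ∀ m : obj Y, res f (tr g hg m) = tr p hp (res q m)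
  additive : ∀ {X Y T : GSet G} (i : X →[G] T) (j : Y →[G] T), IsDisj i j →
    Function.Bijective (fun m : obj T => (res i m, res j m))

/-- Morphisms of Dress pairs. -/
@[ext]
structure Dress.Hom {O : TransferSystem G} (M N : Dress O) where
  app : ∀ X : GSet G, M.obj X →ₗ[ℚ] N.obj X
  res : ∀ {X Y : GSet G} (f : X →[G] Y) (m : M.obj Y), app X (M.res f m) = N.res f (app Y m)
  tr : ∀ {X Y : GSet G} (f : X →[G] Y) (hf : O.AdmMap f) (m : M.obj X),
    app Y (M.tr f hf m) = N.tr f hf (app X m)

instance (O : TransferSystem G) : Category (Dress O) where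
  Hom := Dress.Hom
  id M := ⟨fun X => LinearMap.id, fun _ _ => rfl, fun _ _ _ => rfl⟩
  comp f g := ⟨fun X => (g.app X).comp (f.app X),
    fun h m => by
      rw [LinearMap.comp_apply, LinearMap.comp_apply, f.res, g.res],
    fun h hh m => by
      rw [LinearMap.comp_apply, LinearMap.comp_apply, f.tr, g.tr]⟩

/-- **Lindner = Dress.** The category of rational `O`-Mackey functors (additive `ℚ`-linear functors
on the rational `O`-Burnside category) is equivalent to the category of Dress pairs.

Proof. Functor `Mack O ⥤ Dress O`: for `F` put `obj X := F.obj (bObj O X)`,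
`res f := (F.map (resHom O f)).hom`, `tr f hf := (F.map (bHom ⟨X, id, f, hf⟩)).hom`.
The laws are isomorphisms of spans: for `g.comp f` restriction the pullback of `id` and `f`;
`res_id`, `tr_id` because `bHom (Span.id O X) = 𝟙`; for `base_change` the composite of the spans
`(Y, id, g)` and `(X, f, id)` is the span `(P, q, p)` for every pullback square (the canonical
pullback `pb g f` is in equivariant bijection with `P`), which is also the composite of `(P, q, id)`
and `(P, id, p)`. Note `bHom s ≫ bHom t = bHom (s.comp t)` (functoriality of `Free.embedding`,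
`Quotient.map₂`), and `bHom s = bHom t` if `s.Rel t` (`Quotient.sound`). Additivity is the second
half of `IsMackey`.
A natural transformation commutes with all `res` and `tr`, so it gives a `Dress.Hom`.
Inverse on objects: from a Dress pair `D` define on `SpanCat O` the functor `X ↦ D.obj X.as`,
`[U, l, r] ↦ D.tr r (D.res l _)`; it is well defined on isomorphism classes (for an equivariant
bijection `e : U → V` the square `e, e, id, id`-type pullback gives `D.tr e (D.res e m) = m`:
use `base_change` with `p = q = id`, `f = g = e`, giving `res e (tr e m) = m`, and that `res e` is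
injective with inverse `res e⁻¹`), and compatible with composition by `base_change` for
`pb s.right t.left`. Extend it linearly to `Free ℚ (SpanCat O)` (copy `Free.lift` of Mathlib, whose
universe levels do not fit). The functor `Mack O ⥤ Dress O` is full (a `Dress.Hom` commutes with
all `bHom s`, because `s` is the composite of `(U, l, id)` and `(U, id, r)`, and then with all
morphisms by linearity), faithful (same underlying maps) and essentially surjective. -/
def S_DRS : Prop :=
  ∀ (G : Type) [Group G] (O : TransferSystem G), Nonempty (Mack O ≌ Dress O)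

/-! ## Dense maps -/

/-- `J` is `O`-dense in `K`: `J ≤ K` and the only admissible subgroup of `K` containing `J`
is `K`. -/
def TransferSystem.Dense (O : TransferSystem G) (J K : Subgroup G) : Prop :=
  J ≤ K ∧ ∀ A : Subgroup G, O.adm A K → J ≤ A → A = K

/-- An equivariant map `f` is dense if `Stab(x)` is dense in `Stab(f x)` for every `x`. -/
def TransferSystem.DenseMap (O : TransferSystem G) {X Y : GSet G} (f : X →[G] Y) : Prop :=
  ∀ x : X, O.Dense (stabilizer G x) (stabilizer G (f x))

theorem dense_refl (O : TransferSystem G) (K : Subgroup G) : O.Dense K K :=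
  ⟨le_refl _, fun A hA h => le_antisymm (O.adm_le hA) h⟩

theorem dense_trans (O : TransferSystem G) {J K L : Subgroup G} (h1 : O.Dense J K)
    (h2 : O.Dense K L) : O.Dense J L := by
  refine ⟨h1.1.trans h2.1, fun A hA h => ?_⟩
  have h3 := h1.2 (A ⊓ K) (O.adm_restr hA h2.1) (le_inf h h1.1)
  exact h2.2 A hA (inf_eq_right.mp h3)

theorem dense_right (O : TransferSystem G) {J K L : Subgroup G} (h : O.Dense J L) (h1 : J ≤ K)
    (h2 : K ≤ L) : O.Dense K L :=
  ⟨h2, fun A hA h3 => h.2 A hA (h1.trans h3)⟩

theorem denseMap_id (O : TransferSystem G) (X : GSet G) :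
    O.DenseMap (MulActionHom.id G : X →[G] X) := fun x => dense_refl O _

theorem denseMap_comp (O : TransferSystem G) {X Y Z : GSet G} {f : X →[G] Y} {g : Y →[G] Z}
    (hf : O.DenseMap f) (hg : O.DenseMap g) : O.DenseMap (g.comp f) :=
  fun x => dense_trans O (hf x) (hg (f x))

theorem denseMap_mono {O O' : TransferSystem G} (h : ∀ K H, O.adm K H → O'.adm K H)
    {X Y : GSet G} {f : X →[G] Y} (hf : O'.DenseMap f) : O.DenseMap f :=
  fun x => ⟨(hf x).1, fun A hA => (hf x).2 A (h _ _ hA)⟩

variable [Finite G]

/-- The dense orbit category of `O`: objects are the subgroups of `G`, morphisms `J ⟶ K` are the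
dense equivariant maps `G / J → G / K`. -/
structure DCat (O : TransferSystem G) where
  /-- the subgroup -/
  sub : Subgroup G

instance (O : TransferSystem G) : Category (DCat O) where
  Hom J K := {f : orb J.sub →[G] orb K.sub // O.DenseMap f}
  id J := ⟨MulActionHom.id G, denseMap_id O _⟩
  comp f g := ⟨g.1.comp f.1, denseMap_comp O f.2 g.2⟩

/-- The morphism of the dense orbit category given by a dense map. -/
def dHom (O : TransferSystem G) {J K : Subgroup G} (σ : orb J →[G] orb K) (h : O.DenseMap σ) :
    (⟨J⟩ : DCat O) ⟶ ⟨K⟩ := ⟨σ, h⟩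

/-- Presheaves of rational vector spaces on the dense orbit category. -/
abbrev DFun (O : TransferSystem G) := (DCat O)ᵒᵖ ⥤ ModuleCat.{0} ℚ

/-- **Factorisation.** Every equivariant map `f : G / K → T` is a dense map `G / K → G / A`
followed by an admissible map `G / A → T`.

Proof. Let `t := f (pt K)`, `H := Stab t`, so `K ≤ H`. If `A → H` and `B → H` then `A ⊓ B → B` (by
`adm_restr`, because `B ≤ H`), so `A ⊓ B → H`. Hence among the finitely many `A → H` with `K ≤ A`
there is a smallest one, `A`. `K` is dense in `A`: if `B → A`, `K ≤ B`, then `B → H`, so `A ≤ B`.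
`σ : g K ↦ g A`, `α : g A ↦ g • t` are well defined equivariant maps. At the point `g K` the
stabilisers are `g K g⁻¹` and `g A g⁻¹` (`stabilizer_smul_eq_stabilizer_map_conj`,
`stabilizer_quotient`), density is invariant under conjugation (because `adm` is), and similarly for
admissibility of `α`. -/
def S_FACT : Prop :=
  ∀ (G : Type) [Group G] [Finite G] (O : TransferSystem G) (K : Subgroup G) (T : GSet G)
    (f : orb K →[G] T), ∃ (A : Subgroup G) (σ : orb K →[G] orb A) (α : orb A →[G] T),
      O.DenseMap σ ∧ O.AdmMap α ∧ α.comp σ = f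

/-- **Orthogonality.** A commutative square with a dense map `σ : G / J → G / K` on the left and an
admissible map `g : S → T` on the right has a unique diagonal `h : G / K → S`.

Proof. Let `x := pt J`, `y := σ x`, `s := u x`, so `g s = v y`. `Stab(x) ≤ Stab(s)`, and
`Stab(s) → Stab(g s) = Stab(v y) ≥ Stab(y)`, so `A := Stab(s) ⊓ Stab(y) → Stab(y)` by `adm_restr`
and `Stab(x) ≤ A`. As `Stab(x)` is dense in `Stab(y)`, `A = Stab(y)`, i.e. `Stab(y) ≤ Stab(s)`.
Since `G` acts transitively on `G / K` there is a (unique) equivariant `h` with `h (a • y) = a • s`.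
`h ∘ σ = u` and `g ∘ h = v` hold at `x` resp. `y`, so everywhere by transitivity. Uniqueness: `σ` is
surjective (transitivity). -/
def S_ORTH : Prop :=
  ∀ (G : Type) [Group G] [Finite G] (O : TransferSystem G) (J K : Subgroup G) (S T : GSet G)
    (σ : orb J →[G] orb K) (g : S →[G] T) (u : orb J →[G] S) (v : orb K →[G] T),
    O.DenseMap σ → O.AdmMap g → g.comp u = v.comp σ →
    ∃! h : orb K →[G] S, h.comp σ = u ∧ g.comp h = v

/-! ## Basic facts on Dress pairs -/

/-- **Detection on orbits.** An element of `D.obj T` all of whose restrictions to orbits `G / K → T`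
vanish is zero.

Proof. Induction on the number of elements of `T`. If `T` is empty then `T` is the disjoint union of
`T` and `T` via the identity (both ranges are empty, so they are complementary: `⊥` and `⊥ = ⊤`),
so `m ↦ (m, m)` is a bijection `D.obj T → D.obj T × D.obj T` by `res_id`; as `(m, 0)` is a value,
`m = 0`. If `t ∈ T` let `X := orb (stabilizer G t) → T`, `g ↦ g • t` (injective equivariant map
with range the orbit of `t`) and `Y` the complement of the orbit (a `G`-set) with the inclusion `j`.
By `additive` it is enough that `res i m = 0` (hypothesis) and `res j m = 0` (induction: the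
restrictions of `res j m` to orbits are restrictions of `m` by `res_comp`). -/
def S_JI : Prop :=
  ∀ (G : Type) [Group G] [Finite G] (O : TransferSystem G) (D : Dress O) (T : GSet G)
    (m : D.obj T), (∀ (K : Subgroup G) (f : orb K →[G] T), D.res f m = 0) → m = 0

/-- **Decomposition.** If `T` is the disjoint union of a finite family of `G`-sets `X a` via the
injective maps `i a` then `m = ∑ tr (i a) (res (i a) m)`.

Proof. (Given `S_JI`.) Injective equivariant maps are admissible (equal stabilisers). It is enough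
that both sides have the same restriction along each `f : G / K → T`. As `G / K` is transitive, the
range of `f` meets (so lies in) the range of exactly one `i a₀`, `f = (i a₀).comp f'` for some `f'`.
For `a ≠ a₀` the empty `G`-set is a pullback of `f` and `i a`, so by `base_change`
`res f (tr (i a) _) = tr _ (_) ` with the argument in `D.obj ∅ = 0`, so it vanishes (`S_JI` for
the empty `G`-set). For `a = a₀` the pullback of `i a₀` and `i a₀` is `X a₀` (injectivity), so
`res (i a₀) (tr (i a₀) n) = n`, so
`res f (tr (i a₀) (res (i a₀) m)) = res f' (res (i a₀) m) = res f m`. -/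
def S_DEC : Prop :=
  ∀ (G : Type) [Group G] [Finite G] (O : TransferSystem G) (D : Dress O) (T : GSet G)
    (ι : Type) [Fintype ι] (X : ι → GSet G) (i : ∀ a, X a →[G] T)
    (hi : ∀ a, Function.Injective (i a)) (hd : ∀ a b x y, i a x = i b y → a = b)
    (hc : ∀ t, ∃ a x, i a x = t) (ha : ∀ a, O.AdmMap (i a)) (m : D.obj T),
    ∑ a, D.tr (i a) (ha a) (D.res (i a) m) = m

/-- The subspace of `D.obj (G / K)` generated by the proper transfers: transfers along admissible
maps `p : P → G / K` all of whose points satisfy `Stab(u) < Stab(p u)`. -/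
def PT {O : TransferSystem G} (D : Dress O) (K : Subgroup G) : Submodule ℚ (D.obj (orb K)) :=
  Submodule.span ℚ {n | ∃ (P : GSet G) (p : P →[G] orb K) (hp : O.AdmMap p) (m : D.obj P),
    (∀ u, ¬ stabilizer G (p u) ≤ stabilizer G u) ∧ D.tr p hp m = n}

noncomputable instance fintypeHom (X Y : GSet G) : Fintype (X →[G] Y) :=
  haveI : Finite (X →[G] Y) := Finite.of_injective (fun f => (f : X → Y)) DFunLike.coe_injective
  Fintype.ofFinite _

noncomputable instance fintypeSub (X Y : GSet G) (p : (X →[G] Y) → Prop) :
    Fintype {f : X →[G] Y // p f} := Fintype.ofFinite _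

/-- **Restriction of a transfer modulo proper transfers.** For `g : S → T` admissible and
`f : G / K → T`, `f^* g_* m` is congruent to the sum of `h^* m` over all lifts `h : G / K → S` of
`f`, modulo proper transfers.

Proof. Let `P := pb f g`, `p := pb1`, `q := pb2`; by `base_change` `f^* g_* m = p_* q^* m`. Put
`n := q^* m`. `P` is the disjoint union of `P₁ := {u | ¬ Stab(p u) ≤ Stab(u)}` and of the ranges of
the sections `s : G / K → P` of `p` (`p.comp s = id`): if `Stab(p u) ≤ Stab(u)` there is a unique
section through `u`, because `G / K` is transitive: `a • p u ↦ a • u`; two sections with a common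
point are equal; sections are injective; every point `u` in the range of a section has
`Stab(p u) ≤ Stab(u)`. By `S_DEC` (index type `Option {s // p.comp s = id}`)
`n = j_* j^* n + ∑ s_* s^* n` (`j` the inclusion of `P₁`), so
`p_* n = (p j)_* j^* n + ∑ (p s)_* s^* n`; the first term is a proper transfer and `p s = id`.
The sections `s` of `p` correspond to the lifts `h = q s` of `f`. -/
def S_KL : Prop :=
  ∀ (G : Type) [Group G] [Finite G] (O : TransferSystem G) (D : Dress O) (S T : GSet G)
    (g : S →[G] T) (hg : O.AdmMap g) (m : D.obj S) (K : Subgroup G) (f : orb K →[G] T),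
    D.res f (D.tr g hg m) - ∑ h : {h : orb K →[G] S // g.comp h = f}, D.res h.1 m ∈ PT D K

/-- **Dense restrictions preserve proper transfers.**

Proof. Let `p : P → G / K` be admissible with `¬ Stab(p u) ≤ Stab(u)` for all `u`. By
`base_change` `σ^* p_* m = p'_* q^* m` with `p' : P' = pb σ p → G / J`. For `(x, u) ∈ P'`,
`Stab(x, u) = Stab(x) ⊓ Stab(u)`. If `Stab(x) ≤ Stab(x, u)` then `Stab(x) ≤ Stab(u)`, and
`Stab(u) → Stab(p u) = Stab(σ x)` is admissible, so `Stab(u) = Stab(σ x) = Stab(p u)` as `Stab(x)`
is dense in `Stab(σ x)`; contradiction. -/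
def S_PTD : Prop :=
  ∀ (G : Type) [Group G] [Finite G] (O : TransferSystem G) (D : Dress O) (J K : Subgroup G)
    (σ : orb J →[G] orb K) (hσ : O.DenseMap σ) (m : D.obj (orb K)), m ∈ PT D K →
    D.res σ m ∈ PT D J

/-- **Surjectivity of `η`.** A family `a K f ∈ D(G / K) / PT` (`f : G / K → T`) compatible with
dense maps comes from an element of `D.obj T`. (The family is given by representatives
`a K f ∈ D.obj (G / K)`, everything modulo `PT`.)

Proof. (Given `S_FACT`, `S_KL`.) Claim: for every `n` and every compatible family `a` such that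
`a K f ∈ PT D K` for all ADMISSIBLE `f : G / K → T` with `|K| > n` there is `m` as wanted.
Induction on `n`; `n = |G|` is the theorem. `n = 0`: `a K f ∈ PT D K` for all admissible `f`, so for
all `f` by `S_FACT`, compatibility and `S_PTD`; take `m = 0`. Step `n - 1 ⇒ n`: let `I` be the
finite set of pairs `(K, p)` with `|K| = n` and `p : G / K → T` admissible. For `(J, q) ∈ I` let
`N(J, q)` be the number of triples `(K, p, τ)` with `(K, p) ∈ I` and `τ : G / J → G / K` with
`p τ = q`. Such `τ` is bijective (`|J| = |K|`), so it is dense, and `N(J, q) = N(K, p)` if such a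
`τ` exists (composition with `τ` is a bijection of the triples), and `N ≥ 1` (`τ = id`). Put
`m₁ := ∑_{(K,p) ∈ I} N(K,p)⁻¹ p_* a(K, p)`. By `S_KL`, for an admissible `q : G / J → T` with
`|J| ≥ n`: `q^* m₁ ≡ ∑_{(K,p) ∈ I} N(K,p)⁻¹ ∑_{τ : p τ = q} τ^* a(K,p)`. If `|J| > n` there is no
`τ : G / J → G / K` with `|K| = n`; so `q^* m₁ ∈ PT`. If `|J| = n` then
`τ^* a(K,p) ≡ a(J, p τ) = a(J, q)` by compatibility (`τ` is dense), so
`q^* m₁ ≡ ∑ N(J,q)⁻¹ a(J,q) = a(J,q)`. So the family `a K f - f^* m₁` (compatible, by `res_comp`)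
satisfies the hypothesis for `n - 1`. -/
def S_ETS : Prop :=
  ∀ (G : Type) [Group G] [Finite G] (O : TransferSystem G) (D : Dress O) (T : GSet G)
    (a : ∀ (K : Subgroup G), (orb K →[G] T) → D.obj (orb K)),
    (∀ (J K : Subgroup G) (σ : orb J →[G] orb K) (f : orb K →[G] T), O.DenseMap σ →
      a J (f.comp σ) - D.res σ (a K f) ∈ PT D J) →
    ∃ m : D.obj T, ∀ (K : Subgroup G) (f : orb K →[G] T), D.res f m - a K f ∈ PT D K

/-- **Injectivity of `η`.** If all restrictions of `m` to orbits are sums of proper transfers then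
`m = 0`.

Proof. (Given `S_JI`, `S_KL`.) For `n : ℕ` let `F n` be the span in `D.obj T` of the `p_* m'` with
`p : G / K → T` admissible, `|K| ≤ n`, `m' ∈ D.obj (G / K)`. Then `m ∈ F |G|` (`S_DEC` for the
decomposition of `T` into orbits; inclusions of orbits are admissible), and `F 0 = 0`. Moreover
`p_* (PT D K) ⊆ F (|K| - 1)` for `p : G / K → T` admissible (decompose the source of a proper
transfer into orbits with `S_DEC`; all its stabilisers have fewer than `|K|` elements, and an orbit
of a `G`-set is `G / Stab`). Claim: if `m ∈ F n`, `n ≥ 1`, has all restrictions in `PT` then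
`m ∈ F (n - 1)`. Let `I` be the finite set of pairs `(K, p)`, `|K| = n`, `p : G / K → T`
admissible. `m = ∑_{(K,p) ∈ I} p_* m(K,p) + m₀`, `m₀ ∈ F (n - 1)`. For `(J, q) ∈ I` let `N(J,q)` be
the number of triples `(K, p, τ)`, `(K, p) ∈ I`, `τ : G / J → G / K`, `p τ = q` (such `τ` are
bijections, so `N(J,q) = N(K,p)`, and `N ≥ 1`), and
`m'(J,q) := N(J,q)⁻¹ ∑_{(K,p,τ)} τ^* m(K,p)`. Since `q_* τ^* = p_*` (`τ` is bijective,
`τ_* τ^* = id`, `p_* τ_* = q_*`), `∑_{(J,q)} q_* m'(J,q) = ∑_{(J,q)} N(J,q)⁻¹ ∑ p_* m(K,p) =
∑_{(K,p)} p_* m(K,p)` (the triples over a fixed `(K,p)` are `(J, τ)` with `q = p τ`; inverting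
`τ` they are in bijection with the triples counted by `N(K,p)`). So
`m = ∑ q_* m'(J,q) + m₀`, and now `τ^* m'(K,p) = m'(J,q)` whenever `p τ = q`. Apply `q^*` for
`(J,q) ∈ I` and `S_KL`: `q^* m ≡ ∑_{(K,p)} ∑_{τ : p τ = q} τ^* m'(K,p) = N(J,q) m'(J,q)` modulo
`PT D J` (`q^* m₀ ∈ PT`: by `S_KL` `q^* p_* m''` with `|K| < n = |J|` is in `PT` because there is no
equivariant map `G / J → G / K`). As `q^* m ∈ PT`, `m'(J,q) ∈ PT D J`, so `q_* m'(J,q) ∈ F (n - 1)`,
so `m ∈ F (n - 1)`. -/
def S_ETI : Prop :=
  ∀ (G : Type) [Group G] [Finite G] (O : TransferSystem G) (D : Dress O) (T : GSet G)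
    (m : D.obj T), (∀ (K : Subgroup G) (f : orb K →[G] T), D.res f m ∈ PT D K) → m = 0

/-! ## The Dress pair of a presheaf on the dense orbit category -/

/-- `D` is the Dress pair attached to the presheaf `F`: the elements of `D.obj T` are the families
`a K f ∈ F K` (`f : G / K → T` arbitrary) compatible with dense maps, `(g^* a) f = a (g f)` and
`(g_* a) f = ∑_{g h = f} a h`. -/
structure IsPsi {O : TransferSystem G} (F : DFun O) (D : Dress O) where
  ev : ∀ {T : GSet G} {K : Subgroup G} (f : orb K →[G] T),
    D.obj T →ₗ[ℚ] F.obj (Opposite.op ⟨K⟩)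
  ev_dense : ∀ {T : GSet G} {J K : Subgroup G} (σ : orb J →[G] orb K) (h : O.DenseMap σ)
    (f : orb K →[G] T) (m : D.obj T),
    ev (f.comp σ) m = (F.map (dHom O σ h).op).hom (ev f m)
  ev_bij : ∀ (T : GSet G) (a : ∀ (K : Subgroup G), (orb K →[G] T) → F.obj (Opposite.op ⟨K⟩)),
    (∀ (J K : Subgroup G) (σ : orb J →[G] orb K) (h : O.DenseMap σ) (f : orb K →[G] T),
      a J (f.comp σ) = (F.map (dHom O σ h).op).hom (a K f)) →
    ∃! m : D.obj T, ∀ (K : Subgroup G) (f : orb K →[G] T), ev f m = a K f
  ev_res : ∀ {S T : GSet G} (g : S →[G] T) {K : Subgroup G} (f : orb K →[G] S) (m : D.obj T),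
    ev f (D.res g m) = ev (g.comp f) m
  ev_tr : ∀ {S T : GSet G} (g : S →[G] T) (hg : O.AdmMap g) {K : Subgroup G} (f : orb K →[G] T)
    (m : D.obj S), ev f (D.tr g hg m) = ∑ h : {h : orb K →[G] S // g.comp h = f}, ev h.1 m

/-- **Every presheaf has a Dress pair.**

Proof. `D.obj T` is the submodule of compatible families of the product over `K` and
`f : G / K → T` of `F K`. `(res g a) K f := a K (g.comp f)`, compatible. `(tr g a) K f :=
∑_{h : g h = f} a K h`; it is compatible: for `σ : G / J → G / K` dense and `f : G / K → T`,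
`h ↦ h.comp σ` is a bijection from the lifts of `f` to the lifts of `f.comp σ` by `S_ORTH`, so
`(tr g a) J (f σ) = ∑_h a J (h σ) = ∑_h F(σ) (a K h) = F(σ) ((tr g a) K f)`. `res_id`, `res_comp`
are clear, `tr_id` (only one lift), `tr_comp`: a lift of `f` along `g.comp g'` is a lift `h` of `f`
along `g` and a lift of `h` along `g'`. `base_change`: lifts of `h : G / K → X` along `p` are in
bijection with lifts of `f.comp h` along `g` (pullback square). `additive`: an equivariant map
`G / K → T`, `T` the disjoint union of `X` and `Y`, factors uniquely through exactly one of `i`,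
`j` (transitivity), compatibly with precomposition by `σ`. -/
def S_PSI : Prop :=
  ∀ (G : Type) [Group G] [Finite G] (O : TransferSystem G) (F : DFun O),
    ∃ D : Dress O, Nonempty (IsPsi F D)

/-- The geometric fixed point presheaf `K ↦ D(G / K) / PT` of a Dress pair. -/
noncomputable def Phi (hP : S_PTD) (O : TransferSystem G) : Dress O ⥤ DFun O where
  obj D :=
    { obj := fun K => ModuleCat.of ℚ (D.obj (orb K.unop.sub) ⧸ PT D K.unop.sub)
      map := fun {K J} σ => ModuleCat.ofHom
        (Submodule.mapQ (PT D K.unop.sub) (PT D J.unop.sub) (D.res σ.unop.1)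
          (fun m hm => hP G O D _ _ σ.unop.1 σ.unop.2 m hm))
      map_id := fun K => by
        ext m
        exact congrArg (Submodule.Quotient.mk) (D.res_id _ m)
      map_comp := fun {K J L} σ τ => by
        ext m
        exact congrArg (Submodule.Quotient.mk) (D.res_comp τ.unop.1 σ.unop.1 m) }
  map {D D'} φ :=
    { app := fun K => ModuleCat.ofHom
        (Submodule.mapQ (PT D K.unop.sub) (PT D' K.unop.sub) (φ.app (orb K.unop.sub))
          (by
            rw [PT, Submodule.span_le]
            rintro _ ⟨P, p, hp, m, hu, rfl⟩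
            show φ.app (orb K.unop.sub) (D.tr p hp m) ∈ PT D' K.unop.sub
            rw [φ.tr]
            exact Submodule.subset_span ⟨P, p, hp, φ.app P m, hu, rfl⟩))
      naturality := fun K J σ => by
        ext m
        exact congrArg (Submodule.Quotient.mk) (φ.res σ.unop.1 m) }
  map_id D := by
    ext K m
    rfl
  map_comp φ ψ := by
    ext K m
    rfl

/-- **`Phi` is fully faithful.**

Proof. (Given `S_KL`, `S_ETS`, `S_ETI`.) For `m ∈ D.obj T` let `η m` be the family
`f ↦ [f^* m] ∈ Phi D K` (`f : G / K → T`); it is compatible, and by `S_ETS`, `S_ETI` `η` is a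
bijection of `D.obj T` onto the compatible families of `Phi D` on `T`; it is linear. For
`φ : D ⟶ D'` `η (φ m) = Phi φ (η m)`, so `φ` is determined by `Phi φ`: faithful. Full: given
`f : Phi D ⟶ Phi D'` let `φ_T m` be the unique element of `D'.obj T` with `η (φ_T m) h = f (η m h)`
for all `h : G / K → T`. It is linear in `m` by uniqueness. It commutes with restrictions,
`η (g^* φ m) h = η (φ m) (g h) = f (η m (g h)) = f (η (g^* m) h)`, and with transfers by `S_KL`:
`η (φ (g_* m)) h = f [h^* g_* m] = ∑_{k : g k = h} f [k^* m] = ∑_k [k^* φ m] = [h^* g_* φ m]`.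
`Phi φ = f`: `[φ m] = η (φ m) id = f (η m id) = f [m]` for `m ∈ D.obj (G / K)`. -/
def S_FF : Prop :=
  ∀ (hP : S_PTD) (G : Type) [Group G] [Finite G] (O : TransferSystem G),
    (Phi hP O).Full ∧ (Phi hP O).Faithful

/-- **`Phi` is essentially surjective.**

Proof. (Given `S_FACT`, `S_PSI`, `S_ETS`, `S_ETI`.) Let `F` be a presheaf and `D`, `ev` as in
`S_PSI`. `ev id : D.obj (G / K) → F K` kills `PT D K`: for `p : P → G / K` with
`¬ Stab(p u) ≤ Stab(u)` there is no `h` with `p h = id`, so `ev id (p_* m) = 0` by `ev_tr`. So it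
induces `ε_K : Phi D K → F K`, `ε_K [m] = ev id m`, natural in `K` by `ev_res` and `ev_dense`
(`ev id (σ^* m) = ev σ m = F(σ) (ev id m)`). Note `ε_K [f^* m] = ev f m` for `f : G / K → T`.
SECTION: for a presheaf `E` and `v ∈ E K` let `b v` be the family on `T = G / K`,
`b v J f := E(f) v` if `f` is dense and `0` otherwise. It is compatible: for `σ` dense `f σ` is
dense iff `f` is (if `f σ` is dense then `f` is dense: `dense_right` and surjectivity of `σ`). And
`b v K id = v`.
Surjective: for `v ∈ F K` the family `b v` is `ev _ m` for some `m ∈ D.obj (G / K)` by `ev_bij`, and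
`ε_K [m] = ev id m = v`. Injective: let `ε_K x = 0`. The family `b x` of `Phi D` is, by `S_ETS`,
`f ↦ [f^* m]` for some `m ∈ D.obj (G / K)`; `ev f m = ε [f^* m] = ε (b x f) = 0` (for `f` dense it
is `ε (Phi D (f) x) = F(f) (ε x) = 0`), so `m = 0` by uniqueness in `ev_bij`, so
`x = b x id = [id^* m] = 0`. Hence `ε` is an isomorphism (`NatIso` from bijective components). -/
def S_ES : Prop :=
  ∀ (hP : S_PTD) (G : Type) [Group G] [Finite G] (O : TransferSystem G), (Phi hP O).EssSurj

/-! ## Presheaf categories -/

/-- The free presheaf of rational vector spaces on the family of sets `V`. -/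
noncomputable def freeF (C : Type) [SmallCategory C] (V : C → Type) :
    Cᵒᵖ ⥤ ModuleCat.{0} ℚ where
  obj J := ModuleCat.of ℚ ((Σ K : C, V K × (J.unop ⟶ K)) →₀ ℚ)
  map σ := ModuleCat.ofHom (Finsupp.lmapDomain ℚ ℚ (fun x => ⟨x.1, x.2.1, σ.unop ≫ x.2.2⟩))
  map_id J := by
    ext x
    simp
  map_comp σ τ := by
    ext x
    simp

/-- Free presheaves are projective.

Proof. A map `freeF C V ⟶ F` is the same as a family of elements `x(K, v) ∈ F K` (`v ∈ V K`), the
images of the basis vectors `(K, v, 𝟙 K)`; the basis vector `(K, v, f)` is mapped to `F(f) x(K,v)`.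
An epimorphism `E ⟶ F` of presheaves is pointwise surjective (`NatTrans.epi_iff_epi_app`,
`ModuleCat.epi_iff_surjective`), so lift the elements `x(K, v)`. -/
def S_FRP : Prop :=
  ∀ (C : Type) [SmallCategory C] (V : C → Type), Projective (freeF C V)

/-- Every presheaf is a quotient of a free one.

Proof. `V K := F K` (the underlying set; it is in `Type`), the basis vector `(K, v, f)` is mapped to
`F(f) v`. Pointwise surjective because `(K, v, 𝟙 K) ↦ v`. -/
def S_FRQ : Prop :=
  ∀ (C : Type) [SmallCategory C] (F : Cᵒᵖ ⥤ ModuleCat.{0} ℚ),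
    ∃ (V : C → Type) (e : freeF C V ⟶ F), Epi e

/-- For `O ⊆ O'` the dense orbit category of `O'` is a wide subcategory of that of `O`. -/
def incl {O O' : TransferSystem G} (h : ∀ K H, O.adm K H → O'.adm K H) : DCat O' ⥤ DCat O where
  obj K := ⟨K.sub⟩
  map f := ⟨f.1, denseMap_mono h f.2⟩

/-- Restriction of presheaves from the dense orbit category of `O` to that of `O' ⊇ O`. -/
def resFun {O O' : TransferSystem G} (h : ∀ K H, O.adm K H → O'.adm K H) : DFun O ⥤ DFun O' :=
  (Functor.whiskeringLeft _ _ _).obj (incl h).op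

/-- **The restriction of a free presheaf is projective.**

Proof. (Given `S_FACT`, `S_ORTH`.) Let `e : E ⟶ F` be an epimorphism of presheaves on `DCat O'`
(pointwise surjective) and `g : resFun h (freeF V) ⟶ F`. Fix `K` and `v ∈ V K`. For `f : J ⟶ K` in
`DCat O` let `x(f) := g_J (K, v, f) ∈ F J`; for `ρ : J' ⟶ J` in `DCat O'`, `F(ρ) x(f) = x(f ρ)`. We
must find `y(f) ∈ E J` with `e y(f) = x(f)` and `E(ρ) y(f) = y(f ρ)`. For every `A` and every
`α : A ⟶ K` in `DCat O` choose `z(α) ∈ E A` with `e z(α) = x(α)`. For `f : J ⟶ K` in `DCat O` let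
`Fact f` be the finite set of triples `(A, σ, α)`, `σ : G / J → G / A` `O'`-dense,
`α : G / A → G / K` `O'`-admissible, `α σ = f`. It is not empty by `S_FACT` for `O'`. `α` is
`O`-dense (`dense_right`, and `σ` is surjective). Put
`y(f) := |Fact f|⁻¹ ∑_{(A,σ,α) ∈ Fact f} E(σ) z(α)`. Then
`e y(f) = |Fact f|⁻¹ ∑ F(σ) x(α) = |Fact f|⁻¹ ∑ x(α σ) = x(f)`. For `ρ : G / J' → G / J` `O'`-dense
`(A, σ, α) ↦ (A, σ ρ, α)` is a bijection `Fact f → Fact (f ρ)`: injective as `ρ` is surjective;
surjective: given `(A, τ, α) ∈ Fact (f ρ)`, by `S_ORTH` for `O'` (the dense map `ρ`, the admissible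
map `α`, `α τ = f ρ`) there is `t : G / J → G / A` with `t ρ = τ`, `α t = f`; `t` is `O'`-dense
since `t ρ = τ` is (`dense_right`, `ρ` surjective). So `E(ρ) y(f) = y(f ρ)`. The lift of `g` maps
the basis vector `(K, v, f)` to `y(f)`. -/
def S_RSF : Prop :=
  ∀ (G : Type) [Group G] [Finite G] (O O' : TransferSystem G)
    (h : ∀ K H, O.adm K H → O'.adm K H) (V : DCat O → Type),
    Projective ((resFun h).obj (freeF (DCat O) V))

/-- **Devissage.** If all restrictions of presheaves on `DCat O` to `DCat O'` have projective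
dimension `< n`, `n ≥ 1`, then so does every presheaf on `DCat O'`.

Proof. By induction on `m` every presheaf `M` on `DCat O'` with `M K = 0` for all `|K| ≥ m` has
projective dimension `< n`; `m = |G| + 1` is the theorem, for `m = 0` (`M = 0`) it is clear (take
`M ≅ resFun h 0`, or a zero object is projective). Step: let `M K = 0` for `|K| ≥ m + 1`. Let `X` be
the presheaf on `DCat O` with `X K := (|K| = m → M K)` (functions on a proposition: the space `M K`
if `|K| = m` and `0` otherwise), and for `σ : J ⟶ K` in `DCat O`, `X(σ) φ := fun hJ => if hK : |K| =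
m then M(σ) (φ hK) else 0`: if `|J| = |K|` then the equivariant map `σ : G / J → G / K` is bijective,
so `Stab(x) = Stab(σ x)` for all `x` and `σ` is dense for every transfer system, so it is a morphism
of `DCat O'`. It is a functor, because for `J ⟶ K ⟶ L` with `|J| = |L| = m` we have
`|J| ≤ |K| ≤ |L|`. There is a natural map `π : M ⟶ resFun h X`, `v ↦ fun _ => v` (natural: for
`σ : J ⟶ K` in `DCat O'` with `|J| = m`, `M(σ) v = X(σ)(fun _ => v)`: if `|K| = m` clear, otherwise
`|K| > m` and `M K = 0`). `π` is surjective at each `K`, and its kernel `M'` has `M' K = 0` for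
`|K| ≥ m`. So `0 → M' → M → resFun h X → 0` is exact, `M'` has projective dimension `< n` by
induction and `resFun h X` by hypothesis; apply
`ShortComplex.ShortExact.hasProjectiveDimensionLT_X₂`. -/
def S_DEV : Prop :=
  ∀ (G : Type) [Group G] [Finite G] (O O' : TransferSystem G)
    (h : ∀ K H, O.adm K H → O'.adm K H) (n : ℕ),
    (∀ X : DFun O, HasProjectiveDimensionLT ((resFun h).obj X) (n + 1)) →
    ∀ M : DFun O', HasProjectiveDimensionLT M (n + 1)

/-- **Complete transfer systems: every presheaf is projective.**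

Proof. If `O` is complete then `J` is dense in `K` only if `J = K` (take `A = J`), so every morphism
`G / J → G / K` of `DCat O` is bijective (`Stab(x) = Stab(σ x)` for all `x`, transitive actions) and
its inverse is a morphism of `DCat O`. Let `e : E ⟶ F` be pointwise surjective and `g : M ⟶ F`.
Choose linear maps `s_K : M K → E K` with `e_K s_K = g_K` (vector spaces; e.g.
`Module.projective_lifting_property`). Put `t_K := N_K⁻¹ ∑_{(J, σ)} E(σ) s_J M(σ⁻¹)`, the sum over
the finite set of all `J` and all `σ : K ⟶ J`, `N_K ≥ 1` its cardinality. Then `e_K t_K = g_K`, and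
for `ρ : K' ⟶ K`: `E(ρ) t_K = N_K⁻¹ ∑ E(σ ρ) s_J M(σ⁻¹) = N_K⁻¹ ∑ E(σ ρ) s_J M((σ ρ)⁻¹) M(ρ)
= t_{K'} M(ρ)` because `σ ↦ σ ρ` is a bijection. So `t` is a natural lift. -/
def S_GRP : Prop :=
  ∀ (G : Type) [Group G] [Finite G] (O : TransferSystem G), (∀ K H, K ≤ H → O.adm K H) →
    ∀ M : DFun O, Projective M

/-- **If every presheaf is projective then the transfer system is complete.**

Proof. Step 1: if `J` is dense in `K` then `J = K`. Suppose `J ≠ K`, so `|J| < |K| = m`. Let `P` be
the presheaf `freeF` with one generator at `K` (`V L := PLift (L.sub = K)`, or the presheaf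
`L ↦ ((L ⟶ K) →₀ ℚ)`) and `S` the presheaf `S L := (|L| = m → P L)` with
`S(σ) φ := fun hL => if hL' : |L'| = m then P(σ) (φ hL') else 0` for `σ : L ⟶ L'`, and
`π : P ⟶ S`, `π x := fun _ => x`, natural because `P L' = 0` for `|L'| > m`
(no equivariant map `G / L' → G / K`). `π` is an epimorphism, so as `S` is projective there is
`s : S ⟶ P` with `s π... = 𝟙`, i.e. `s ≫ π = 𝟙 S`. Let `u ∈ P K` be the generator and
`w := s (π u) ∈ P K`; `π w = π u`, so (`|K| = m`) `w = u`. Let `σ : J ⟶ K` be the dense map
`G / J → G / K`. `P(σ) u = P(σ) s (π u) = s (S(σ) (π u)) = s 0 = 0` because `S J = 0`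
(`|J| ≠ m`), but `P(σ) u` is a basis vector, so it is not zero.
Step 2: if `J < K` is a maximal subgroup of `K` then `J → K`: otherwise the only `A` with `J ≤ A`
and `A → K` is `K`, so `J` is dense in `K`. Step 3: for arbitrary `K ≤ H` go up a chain of maximal
inclusions (induction on `|H|` : if `K < H` choose `J` with `K ≤ J < H`, `J` maximal in `H`; then
`K → J` by induction and `J → H`). -/
def S_NGR : Prop :=
  ∀ (G : Type) [Group G] [Finite G] (O : TransferSystem G),
    (∀ M : DFun O, Projective M) → ∀ K H, K ≤ H → O.adm K H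

end

end Pool.Agent.Q20.MK
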