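import Mathlib
import Pool.Agent.Q20.MK.Stm

/-!
# Project MK: common lemmas on levels
-/

set_option linter.unusedVariables false
set_option linter.unusedSectionVars false
set_option linter.style.haveILetI false

open CategoryTheory MulAction

namespace Pool.Agent.Q20.MK

section

variable {G : Type} [Group G] [Finite G]

instance pretrans (K : Subgroup G) : IsPretransitive G (orb K) :=
  inferInstanceAs (IsPretransitive G (G ⧸ K))

theorem surj_orb {J K : Subgroup G} (τ : orb J →[G] orb K) : Function.Surjective τ := by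
  intro y
  obtain ⟨g, hg⟩ := exists_smul_eq G (τ (pt J)) y
  exact ⟨g • pt J, by rw [map_smul, hg]⟩

theorem card_orb (K : Subgroup G) : Nat.card (orb K) * Nat.card K = Nat.card G := by
  have h := Subgroup.index_mul_card K
  rw [Subgroup.index] at h
  exact h

theorem card_le_of_hom {J K : Subgroup G} (τ : orb J →[G] orb K) : Nat.card J ≤ Nat.card K := by
  have h1 := Nat.card_le_card_of_surjective τ (surj_orb τ)
  have h2 := card_orb J
  have h3 := card_orb K
  have h4 : 0 < Nat.card (orb J) := by
    haveI : Nonempty (orb J) := ⟨pt J⟩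
    exact Nat.card_pos
  by_contra hc
  rw [not_le] at hc
  have h5 : Nat.card (orb K) * Nat.card K < Nat.card (orb J) * Nat.card J := by
    calc Nat.card (orb K) * Nat.card K ≤ Nat.card (orb J) * Nat.card K := Nat.mul_le_mul_right _ h1
      _ < Nat.card (orb J) * Nat.card J := Nat.mul_lt_mul_of_pos_left hc h4
  omega

theorem bij_of_card {J K : Subgroup G} (τ : orb J →[G] orb K) (h : Nat.card J = Nat.card K) :
    Function.Bijective τ := by
  have h2 := card_orb J
  have h3 := card_orb K
  have h4 : 0 < Nat.card K := Nat.card_pos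
  refine (surj_orb τ).bijective_of_nat_card_le ?_
  rw [h, ← h3] at h2
  exact (Nat.eq_of_mul_eq_mul_right h4 h2).le

theorem stab_of_inj {X Y : GSet G} {f : X →[G] Y} (hf : Function.Injective f) (x : X) :
    stabilizer G (f x) = stabilizer G x := by
  ext g
  rw [mem_stabilizer_iff, mem_stabilizer_iff, ← map_smul, hf.eq_iff]

theorem dense_of_inj (O : TransferSystem G) {X Y : GSet G} {f : X →[G] Y}
    (hf : Function.Injective f) : O.DenseMap f := fun x => by
  rw [stab_of_inj hf]
  exact dense_refl O _

theorem adm_of_inj (O : TransferSystem G) {X Y : GSet G} {f : X →[G] Y}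
    (hf : Function.Injective f) : O.AdmMap f := fun x => by
  rw [stab_of_inj hf]
  exact O.adm_refl _

/-- The inverse of a bijective equivariant map. -/
noncomputable def invHom {X Y : GSet G} (f : X →[G] Y) (hf : Function.Bijective f) : Y →[G] X where
  toFun := (Equiv.ofBijective f hf).symm
  map_smul' g y := by
    apply hf.1
    show f ((Equiv.ofBijective f hf).symm (g • y)) = f (g • (Equiv.ofBijective f hf).symm y)
    rw [map_smul f g ((Equiv.ofBijective f hf).symm y)]
    exact (Equiv.ofBijective_apply_symm_apply f hf _).trans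
      (congrArg (fun z => g • z) (Equiv.ofBijective_apply_symm_apply f hf y).symm)

theorem casc {X Y Z W : GSet G} (h : Z →[G] W) (g : Y →[G] Z) (f : X →[G] Y) :
    (h.comp g).comp f = h.comp (g.comp f) := MulActionHom.ext fun _ => rfl

theorem comp_one {X Y : GSet G} (f : X →[G] Y) : f.comp (MulActionHom.id G : X →[G] X) = f :=
  MulActionHom.ext fun _ => rfl

theorem comp_invHom {X Y : GSet G} (f : X →[G] Y) (hf : Function.Bijective f) :
    f.comp (invHom f hf) = MulActionHom.id G :=
  MulActionHom.ext fun y => Equiv.ofBijective_apply_symm_apply f hf y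

theorem invHom_comp {X Y : GSet G} (f : X →[G] Y) (hf : Function.Bijective f) :
    (invHom f hf).comp f = MulActionHom.id G :=
  MulActionHom.ext fun y => Equiv.ofBijective_symm_apply_apply f hf y

/-- Pairs `(K, p)` with `|K| = n` and `p : G / K → T` admissible. -/
abbrev Idx (O : TransferSystem G) (T : GSet G) (n : ℕ) :=
  Σ K : {K : Subgroup G // Nat.card K = n}, {p : orb K.1 →[G] T // O.AdmMap p}

noncomputable instance fintypeIdx (O : TransferSystem G) (T : GSet G) (n : ℕ) :
    Fintype (Idx O T n) := Fintype.ofFinite _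

/-- Triples `(K, p, τ)` with `(K, p)` of level `n` and `p τ = q`. -/
abbrev Lf (O : TransferSystem G) (T : GSet G) (n : ℕ) (J : Subgroup G) (q : orb J →[G] T) :=
  Σ i : Idx O T n, {τ : orb J →[G] orb i.1.1 // i.2.1.comp τ = q}

/-- The number of triples. -/
noncomputable def Nf (O : TransferSystem G) (T : GSet G) (n : ℕ) (J : Subgroup G)
    (q : orb J →[G] T) : ℕ := Fintype.card (Lf O T n J q)

theorem Nf_pos (O : TransferSystem G) (T : GSet G) (n : ℕ) (i : Idx O T n) :
    0 < Nf O T n i.1.1 i.2.1 :=
  Fintype.card_pos_iff.mpr ⟨⟨i, MulActionHom.id G, MulActionHom.ext fun _ => rfl⟩⟩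

theorem Nf_congr (O : TransferSystem G) (T : GSet G) (n : ℕ) {J K : Subgroup G}
    (p : orb K →[G] T) (τ : orb J →[G] orb K) (hτ : Function.Bijective τ) :
    Nf O T n J (p.comp τ) = Nf O T n K p := by
  refine Fintype.card_congr
    { toFun := fun x => ⟨x.1, x.2.1.comp (invHom τ hτ), ?_⟩
      invFun := fun x => ⟨x.1, x.2.1.comp τ, ?_⟩
      left_inv := fun x => ?_
      right_inv := fun x => ?_ }
  · rw [← casc, x.2.2, casc, comp_invHom, comp_one]
  · rw [← casc, x.2.2]
  · obtain ⟨i, t, ht⟩ := x
    have h : (t.comp (invHom τ hτ)).comp τ = t := by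
      rw [casc, invHom_comp, comp_one]
    exact congrArg (Sigma.mk i) (Subtype.ext h)
  · obtain ⟨i, t, ht⟩ := x
    have h : (t.comp τ).comp (invHom τ hτ) = t := by
      rw [casc, comp_invHom, comp_one]
    exact congrArg (Sigma.mk i) (Subtype.ext h)

end

end Pool.Agent.Q20.MK
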