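import Mathlib
import Pool.Agent.Q20.MK.Com

/-!
# Project MK: free presheaves
-/

set_option linter.unusedVariables false
set_option linter.unusedSectionVars false
set_option linter.style.haveILetI false

open CategoryTheory MulAction

namespace Pool.Agent.Q20.MK

section

variable {C : Type} [SmallCategory C]

/-- The map from a free presheaf given by a compatible choice of images of basis vectors. -/
noncomputable def freeMap (V : C → Type) (E : Cᵒᵖ ⥤ ModuleCat.{0} ℚ)
    (y : ∀ (J K : C), V K → (J ⟶ K) → E.obj (Opposite.op J))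
    (hy : ∀ (J' J K : C) (v : V K) (ρ : J' ⟶ J) (f : J ⟶ K),
      y J' K v (ρ ≫ f) = (E.map ρ.op).hom (y J K v f)) : freeF C V ⟶ E where
  app J := ModuleCat.ofHom (Finsupp.linearCombination ℚ
    (fun z : Σ K : C, V K × (J.unop ⟶ K) => y J.unop z.1 z.2.1 z.2.2))
  naturality J J' ρ := by
    apply ModuleCat.hom_ext
    apply Finsupp.lhom_ext
    intro z c
    show Finsupp.linearCombination ℚ _ (Finsupp.lmapDomain ℚ ℚ _ (Finsupp.single z c)) =
      (E.map ρ).hom (Finsupp.linearCombination ℚ _ (Finsupp.single z c))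
    rw [Finsupp.lmapDomain_apply, Finsupp.mapDomain_single, Finsupp.linearCombination_single,
      Finsupp.linearCombination_single, map_smul]
    congr 1
    exact hy _ _ _ z.2.1 ρ.unop z.2.2

theorem freeMap_single (V : C → Type) (E : Cᵒᵖ ⥤ ModuleCat.{0} ℚ)
    (y : ∀ (J K : C), V K → (J ⟶ K) → E.obj (Opposite.op J))
    (hy : ∀ (J' J K : C) (v : V K) (ρ : J' ⟶ J) (f : J ⟶ K),
      y J' K v (ρ ≫ f) = (E.map ρ.op).hom (y J K v f)) (J K : C) (v : V K) (f : J ⟶ K) :
    ((freeMap V E y hy).app (Opposite.op J)).hom (Finsupp.single ⟨K, v, f⟩ (1 : ℚ)) =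
      y J K v f := by
  show Finsupp.linearCombination ℚ _ (Finsupp.single _ (1 : ℚ)) = _
  rw [Finsupp.linearCombination_single, one_smul]

theorem free_ext {V : C → Type} {E : Cᵒᵖ ⥤ ModuleCat.{0} ℚ} {g h : freeF C V ⟶ E}
    (H : ∀ (J K : C) (v : V K) (f : J ⟶ K),
      (g.app (Opposite.op J)).hom (Finsupp.single ⟨K, v, f⟩ (1 : ℚ)) =
        (h.app (Opposite.op J)).hom (Finsupp.single ⟨K, v, f⟩ (1 : ℚ))) : g = h := by
  apply NatTrans.ext
  funext J
  apply ModuleCat.hom_ext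
  apply Finsupp.lhom_ext'
  intro z
  apply LinearMap.ext_ring
  exact H J.unop z.1 z.2.1 z.2.2

theorem free_nat {V : C → Type} {E : Cᵒᵖ ⥤ ModuleCat.{0} ℚ} (g : freeF C V ⟶ E) (J' J K : C)
    (v : V K) (ρ : J' ⟶ J) (f : J ⟶ K) :
    (g.app (Opposite.op J')).hom (Finsupp.single ⟨K, v, ρ ≫ f⟩ (1 : ℚ)) =
      (E.map ρ.op).hom ((g.app (Opposite.op J)).hom (Finsupp.single ⟨K, v, f⟩ (1 : ℚ))) := by
  have h := congrArg (fun z => z.hom (Finsupp.single ⟨K, v, f⟩ (1 : ℚ))) (g.naturality ρ.op)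
  have h2 : (((freeF C V).map ρ.op) ≫ g.app (Opposite.op J')).hom
      (Finsupp.single ⟨K, v, f⟩ (1 : ℚ)) =
      (g.app (Opposite.op J')).hom (Finsupp.single ⟨K, v, ρ ≫ f⟩ (1 : ℚ)) := by
    show (g.app (Opposite.op J')).hom
      (Finsupp.lmapDomain ℚ ℚ _
        (Finsupp.single (⟨K, v, f⟩ : Σ K : C, V K × (J ⟶ K)) (1 : ℚ))) = _
    rw [Finsupp.lmapDomain_apply, Finsupp.mapDomain_single]
    rfl
  exact h2.symm.trans h

theorem surj_of_epi {E X : Cᵒᵖ ⥤ ModuleCat.{0} ℚ} (e : E ⟶ X) [Epi e] (J : Cᵒᵖ) :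
    Function.Surjective (e.app J).hom := by
  have h := (NatTrans.epi_iff_epi_app e).mp inferInstance J
  exact (ModuleCat.epi_iff_surjective _).mp h

theorem epi_of_surj {E X : Cᵒᵖ ⥤ ModuleCat.{0} ℚ} (e : E ⟶ X)
    (h : ∀ J, Function.Surjective (e.app J).hom) : Epi e := by
  rw [NatTrans.epi_iff_epi_app]
  intro J
  exact (ModuleCat.epi_iff_surjective _).mpr (h J)

end

theorem t_FRP : S_FRP := by
  intro C _ V
  refine ⟨fun {E X} f e he => ?_⟩
  have hs := surj_of_epi e
  choose s hs' using fun (J : Cᵒᵖ) => (hs J)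
  let x : ∀ K : C, V K → E.obj (Opposite.op K) := fun K v =>
    s _ ((f.app (Opposite.op K)).hom (Finsupp.single ⟨K, v, 𝟙 K⟩ (1 : ℚ)))
  refine ⟨freeMap V E (fun J K v g => (E.map g.op).hom (x K v)) (fun J' J K v ρ g => ?_), ?_⟩
  · rw [op_comp, CategoryTheory.Functor.map_comp]
    rfl
  · apply free_ext
    intro J K v g
    have h1 : (e.app (Opposite.op K)).hom (x K v) =
        (f.app (Opposite.op K)).hom (Finsupp.single ⟨K, v, 𝟙 K⟩ (1 : ℚ)) := hs' _ _
    have h2 := free_nat f J K K v g (𝟙 K)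
    rw [Category.comp_id, ← h1] at h2
    rw [h2]
    show (e.app (Opposite.op J)).hom (((freeMap V E _ _).app (Opposite.op J)).hom _) = _
    rw [freeMap_single]
    exact congrArg (fun z => z.hom (x K v)) (e.naturality g.op)

theorem t_FRQ : S_FRQ := by
  intro C _ F
  refine ⟨fun K => F.obj (Opposite.op K), freeMap _ F (fun J K v g => (F.map g.op).hom v)
    (fun J' J K v ρ g => ?_), ?_⟩
  · rw [op_comp, CategoryTheory.Functor.map_comp]
    rfl
  · apply epi_of_surj
    intro J v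
    refine ⟨Finsupp.single ⟨J.unop, v, 𝟙 _⟩ (1 : ℚ), ?_⟩
    have h := freeMap_single (fun K => F.obj (Opposite.op K)) F
      (fun J K v g => (F.map g.op).hom v) (fun J' J K v ρ g => by
        rw [op_comp, CategoryTheory.Functor.map_comp]
        rfl) J.unop J.unop v (𝟙 _)
    rw [op_id, CategoryTheory.Functor.map_id] at h
    exact h

end Pool.Agent.Q20.MK
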