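import Mathlib
import Pool.Agent.Q20.MK.FR

/-!
# Project MK: devissage
-/

set_option linter.unusedVariables false
set_option linter.unusedSectionVars false
set_option linter.style.haveILetI false

open CategoryTheory MulAction Limits

namespace Pool.Agent.Q20.MK

section

variable {G : Type} [Group G] [Finite G]

/-- A map between orbits of the same size is dense for every transfer system. -/
theorem upg (O' : TransferSystem G) {J K : Subgroup G} (σ : orb J →[G] orb K)
    (hc : Nat.card J = Nat.card K) : O'.DenseMap σ := dense_of_inj O' (bij_of_card σ hc).1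

open Classical in
/-- The transition map of the part of level `m`. -/
noncomputable def levLin {O' : TransferSystem G} (M : DFun O') (m : ℕ) {J K : Subgroup G}
    (σ : orb J →[G] orb K) :
    (PLift (Nat.card K = m) → M.obj (Opposite.op ⟨K⟩)) →ₗ[ℚ]
      (PLift (Nat.card J = m) → M.obj (Opposite.op ⟨J⟩)) :=
  if hK : Nat.card K = m then
    LinearMap.pi fun hJ => (M.map (dHom O' σ (upg O' σ (hJ.down.trans hK.symm))).op).hom.comp
      (LinearMap.proj (⟨hK⟩ : PLift (Nat.card K = m)))
  else 0

theorem levLin_pos {O' : TransferSystem G} (M : DFun O') (m : ℕ) {J K : Subgroup G}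
    (σ : orb J →[G] orb K) (hJ : Nat.card J = m) (hK : Nat.card K = m)
    (φ : PLift (Nat.card K = m) → M.obj (Opposite.op ⟨K⟩)) :
    levLin M m σ φ ⟨hJ⟩ =
      (M.map (dHom O' σ (upg O' σ (hJ.trans hK.symm))).op).hom (φ ⟨hK⟩) := by
  rw [levLin, dif_pos hK]
  rfl

theorem levLin_neg {O' : TransferSystem G} (M : DFun O') (m : ℕ) {J K : Subgroup G}
    (σ : orb J →[G] orb K) (hK : Nat.card K ≠ m)
    (φ : PLift (Nat.card K = m) → M.obj (Opposite.op ⟨K⟩)) : levLin M m σ φ = 0 := by
  rw [levLin, dif_neg hK]
  rfl

theorem levLin_id {O' : TransferSystem G} (M : DFun O') (m : ℕ) (K : Subgroup G)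
    (φ : PLift (Nat.card K = m) → M.obj (Opposite.op ⟨K⟩)) :
    levLin M m (MulActionHom.id G : orb K →[G] orb K) φ = φ := by
  funext hK
  obtain ⟨hK⟩ := hK
  rw [levLin_pos M m _ hK hK]
  exact congrArg (fun q => q.hom (φ ⟨hK⟩)) (CategoryTheory.Functor.map_id M (Opposite.op ⟨K⟩))

theorem levLin_comp {O' : TransferSystem G} (M : DFun O') (m : ℕ) {L J K : Subgroup G}
    (τ : orb L →[G] orb J) (σ : orb J →[G] orb K)
    (φ : PLift (Nat.card K = m) → M.obj (Opposite.op ⟨K⟩)) :
    levLin M m (σ.comp τ) φ = levLin M m τ (levLin M m σ φ) := by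
  by_cases hK : Nat.card K = m
  · funext hL
    obtain ⟨hL⟩ := hL
    have h1 := card_le_of_hom τ
    have h2 := card_le_of_hom σ
    have hJ : Nat.card J = m := by omega
    rw [levLin_pos M m _ hL hK, levLin_pos M m _ hL hJ, levLin_pos M m _ hJ hK]
    have h3 := CategoryTheory.Functor.map_comp M
      (dHom O' σ (upg O' σ (hJ.trans hK.symm))).op
      (dHom O' τ (upg O' τ (hL.trans hJ.symm))).op
    exact congrArg (fun q => q.hom (φ ⟨hK⟩)) h3
  · rw [levLin_neg M m _ hK, levLin_neg M m σ hK, map_zero]

/-- The part of level `m` of a presheaf, as a presheaf on the dense orbit category of an arbitrary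
transfer system. -/
noncomputable def lev (O : TransferSystem G) {O' : TransferSystem G} (M : DFun O') (m : ℕ) :
    DFun O where
  obj K := ModuleCat.of ℚ (PLift (Nat.card K.unop.sub = m) → M.obj (Opposite.op ⟨K.unop.sub⟩))
  map {K J} σ := ModuleCat.ofHom (levLin M m σ.unop.1)
  map_id K := by
    apply ModuleCat.hom_ext
    apply LinearMap.ext
    intro φ
    exact levLin_id M m K.unop.sub φ
  map_comp {K J L} σ τ := by
    apply ModuleCat.hom_ext
    apply LinearMap.ext
    intro φ
    exact levLin_comp M m τ.unop.1 σ.unop.1 φ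

theorem lev_map {O O' : TransferSystem G} (M : DFun O') (m : ℕ) {J K : Subgroup G}
    (σ : orb J →[G] orb K) (hσ : O.DenseMap σ) (hJ : Nat.card J = m)
    (hK : Nat.card K = m) (φ : PLift (Nat.card K = m) → M.obj (Opposite.op ⟨K⟩)) :
    (((lev O M m).map (dHom O σ hσ).op).hom φ :
      PLift (Nat.card J = m) → M.obj (Opposite.op ⟨J⟩)) ⟨hJ⟩ =
      (M.map (dHom O' σ (upg O' σ (hJ.trans hK.symm))).op).hom (φ ⟨hK⟩) :=
  levLin_pos M m σ hJ hK φ

theorem lev_map' {O O' : TransferSystem G} (M : DFun O') (m : ℕ) {J K : Subgroup G}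
    (σ : orb J →[G] orb K) (hσ : O.DenseMap σ) (hJ : Nat.card J = m)
    (hK : Nat.card K ≠ m) (φ : PLift (Nat.card K = m) → M.obj (Opposite.op ⟨K⟩)) :
    (((lev O M m).map (dHom O σ hσ).op).hom φ :
      PLift (Nat.card J = m) → M.obj (Opposite.op ⟨J⟩)) ⟨hJ⟩ = 0 :=
  congrFun (levLin_neg M m σ hK φ) ⟨hJ⟩

/-- The projection to the top level. -/
noncomputable def levMap {O O' : TransferSystem G} (h : ∀ K H, O.adm K H → O'.adm K H)
    (M : DFun O') (m : ℕ)
    (hM : ∀ K : Subgroup G, m < Nat.card K → ∀ v : M.obj (Opposite.op ⟨K⟩), v = 0) :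
    M ⟶ (resFun h).obj (lev O M m) where
  app K := ModuleCat.ofHom
    { toFun := fun v _ => v
      map_add' := fun _ _ => rfl
      map_smul' := fun _ _ => rfl }
  naturality K J σ := by
    apply ModuleCat.hom_ext
    apply LinearMap.ext
    intro v
    funext hJ'
    obtain ⟨hJ⟩ := hJ'
    by_cases hK : Nat.card K.unop.sub = m
    · exact (lev_map M m σ.unop.1 (denseMap_mono h σ.unop.2) hJ hK (fun _ => v)).symm
    · refine Eq.trans ?_
        (lev_map' M m σ.unop.1 (denseMap_mono h σ.unop.2) hJ hK (fun _ => v)).symm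
      have h1 := card_le_of_hom σ.unop.1
      have h2 : m < Nat.card K.unop.sub := by
        have h3 : Nat.card J.unop.sub = m := hJ
        omega
      show (M.map σ).hom v = 0
      rw [hM K.unop.sub h2 v]
      exact map_zero _

theorem t_DEV : S_DEV := by
  intro G _ _ O O' h n H
  have key : ∀ (m : ℕ) (M : DFun O'),
      (∀ K : Subgroup G, m ≤ Nat.card K → ∀ v : M.obj (Opposite.op ⟨K⟩), v = 0) →
      HasProjectiveDimensionLT M (n + 1) := by
    intro m
    induction m with
    | zero =>
      intro M hM
      have h1 : IsZero M := by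
        rw [Functor.isZero_iff]
        intro K
        haveI : Subsingleton (M.obj K) :=
          ⟨fun a b => (hM K.unop.sub (Nat.zero_le _) a).trans (hM K.unop.sub (Nat.zero_le _) b).symm⟩
        exact ModuleCat.isZero_of_subsingleton _
      haveI := h1.hasProjectiveDimensionLT_zero
      exact hasProjectiveDimensionLT_of_ge M 0 (n + 1) (Nat.zero_le _)
    | succ m ih =>
      intro M hM
      let π := levMap h M m (fun K hK v => hM K hK v)
      have hsurj : ∀ K, Function.Surjective (π.app K).hom := by
        intro K φ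
        by_cases hK : Nat.card K.unop.sub = m
        · refine ⟨φ ⟨hK⟩, ?_⟩
          funext hK'
          rfl
        · refine ⟨0, ?_⟩
          funext hK'
          exact absurd hK'.down hK
      haveI : Epi π := epi_of_surj π hsurj
      let S : ShortComplex (DFun O') := ShortComplex.mk (kernel.ι π) π (kernel.condition _)
      have hS : S.ShortExact :=
        { exact := ShortComplex.exact_of_f_is_kernel S (kernelIsKernel π)
          mono_f := inferInstanceAs (Mono (kernel.ι π))
          epi_g := inferInstanceAs (Epi π) }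
      have h1 : HasProjectiveDimensionLT S.X₁ (n + 1) := by
        apply ih
        intro K hK v
        have hinj : Function.Injective ((kernel.ι π).app (Opposite.op ⟨K⟩)).hom := by
          have h2 := (NatTrans.mono_iff_mono_app (kernel.ι π)).mp inferInstance
            (Opposite.op ⟨K⟩)
          exact (ModuleCat.mono_iff_injective _).mp h2
        apply hinj
        rw [map_zero]
        have h3 : (π.app (Opposite.op ⟨K⟩)).hom
            (((kernel.ι π).app (Opposite.op ⟨K⟩)).hom v) = 0 := by
          have h4 := congrArg (fun q => (q.app (Opposite.op (⟨K⟩ : DCat O'))).hom v)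
            (kernel.condition π)
          exact h4
        rcases Nat.lt_or_ge m (Nat.card K) with h5 | h5
        · exact hM K h5 _
        · exact congrFun h3 ⟨le_antisymm h5 hK⟩
      have h3 : HasProjectiveDimensionLT S.X₃ (n + 1) := H _
      exact hS.hasProjectiveDimensionLT_X₂ (n + 1) h1 h3
  intro M
  refine key (Nat.card G + 1) M (fun K hK => ?_)
  have h1 : Nat.card K ≤ Nat.card G :=
    Nat.card_le_card_of_injective _ (Subgroup.subtype_injective K)
  omega

end

end Pool.Agent.Q20.MK
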