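import Mathlib
import Pool.Agent.Q20.MK.Stm

/-!
# Project MK: additive linear functors on the rational Burnside category are Dress pairs
-/

set_option linter.unusedVariables false
set_option linter.unusedSectionVars false
set_option linter.style.haveILetI false

open CategoryTheory MulAction

namespace Pool.Agent.Q20.MK

section

variable {G : Type} [Group G]

theorem bHom_congr {O : TransferSystem G} {X Y : GSet G} {s t : Span O X Y} (h : s.Rel t) :
    bHom s = bHom t := by
  have h1 : spanHom O s = spanHom O t := Quotient.sound h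
  rw [bHom, h1]
  rfl

theorem bHom_comp {O : TransferSystem G} {X Y Z : GSet G} (s : Span O X Y) (t : Span O Y Z) :
    bHom s ≫ bHom t = bHom (s.comp t) :=
  ((Free.embedding ℚ (SpanCat O)).map_comp (spanHom O s) (spanHom O t)).symm

theorem bHom_id (O : TransferSystem G) (X : GSet G) : bHom (Span.id O X) = 𝟙 (bObj O X) := rfl

/-- The span of a restriction. -/
def resSpan (O : TransferSystem G) {X Y : GSet G} (f : X →[G] Y) : Span O Y X :=
  ⟨X, f, MulActionHom.id G, admMap_id O X⟩

/-- The span of a transfer. -/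
def trSpan (O : TransferSystem G) {X Y : GSet G} (f : X →[G] Y) (hf : O.AdmMap f) : Span O X Y :=
  ⟨X, MulActionHom.id G, f, hf⟩

theorem res_comp_span (O : TransferSystem G) {X Y Z : GSet G} (f : X →[G] Y) (g : Y →[G] Z) :
    bHom (resSpan O (g.comp f)) = bHom (resSpan O g) ≫ bHom (resSpan O f) := by
  rw [bHom_comp]
  apply bHom_congr
  refine ⟨⟨fun x => ⟨(f x, x), rfl⟩, fun a x => Subtype.ext (Prod.ext (map_smul f a x) rfl)⟩,
    ⟨fun x y h => congrArg (fun q => q.1.2) h, ?_⟩, fun x => rfl, fun x => rfl⟩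
  rintro ⟨⟨y, x⟩, h⟩
  have h' : y = f x := h
  subst h'
  exact ⟨x, rfl⟩

theorem tr_comp_span (O : TransferSystem G) {X Y Z : GSet G} (f : X →[G] Y) (g : Y →[G] Z)
    (hf : O.AdmMap f) (hg : O.AdmMap g) (hgf : O.AdmMap (g.comp f)) :
    bHom (trSpan O (g.comp f) hgf) = bHom (trSpan O f hf) ≫ bHom (trSpan O g hg) := by
  rw [bHom_comp]
  apply bHom_congr
  refine ⟨⟨fun x => ⟨(x, f x), rfl⟩, fun a x => Subtype.ext (Prod.ext rfl (map_smul f a x))⟩,
    ⟨fun x y h => congrArg (fun q => q.1.1) h, ?_⟩, fun x => rfl, fun x => rfl⟩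
  rintro ⟨⟨x, y⟩, h⟩
  have h' : f x = y := h
  subst h'
  exact ⟨x, rfl⟩

theorem span_factor {O : TransferSystem G} {X Y : GSet G} (s : Span O X Y) :
    bHom s = bHom (resSpan O s.left) ≫ bHom (trSpan O s.right s.adm) := by
  rw [bHom_comp]
  apply bHom_congr
  refine ⟨⟨fun x => ⟨(x, x), rfl⟩, fun a x => rfl⟩,
    ⟨fun x y h => congrArg (fun q => q.1.1) h, ?_⟩, fun x => rfl, fun x => rfl⟩
  rintro ⟨⟨x, y⟩, h⟩
  have h' : x = y := h
  subst h'
  exact ⟨x, rfl⟩

theorem base_span (O : TransferSystem G) {P X Y Z : GSet G} (p : P →[G] X) (q : P →[G] Y)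
    (f : X →[G] Z) (g : Y →[G] Z) (hp : O.AdmMap p) (hg : O.AdmMap g) (h : IsPB p q f g) :
    bHom (trSpan O g hg) ≫ bHom (resSpan O f) = bHom (resSpan O q) ≫ bHom (trSpan O p hp) := by
  have h1 : bHom (resSpan O q) ≫ bHom (trSpan O p hp) = bHom (⟨P, q, p, hp⟩ : Span O Y X) :=
    (span_factor (⟨P, q, p, hp⟩ : Span O Y X)).symm
  rw [h1, bHom_comp]
  symm
  apply bHom_congr
  refine ⟨⟨fun u => ⟨(q u, p u), (h.1 u).symm⟩,
    fun a u => Subtype.ext (Prod.ext (map_smul q a u) (map_smul p a u))⟩,
    ⟨fun u v huv => ?_, ?_⟩, fun x => rfl, fun x => rfl⟩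
  · have h2 : q u = q v := congrArg (fun w => w.1.1) huv
    have h3 : p u = p v := congrArg (fun w => w.1.2) huv
    obtain ⟨w, _, hw⟩ := h.2 (p v) (q v) (h.1 v)
    rw [hw u ⟨h3, h2⟩, hw v ⟨rfl, rfl⟩]
  · rintro ⟨⟨y, x⟩, hyx⟩
    obtain ⟨w, ⟨hw1, hw2⟩, _⟩ := h.2 x y (Eq.symm hyx)
    exact ⟨w, Subtype.ext (Prod.ext hw2 hw1)⟩

theorem map_hom_comp {O : TransferSystem G} (F : BurnsideCat O ⥤ ModuleCat.{0} ℚ)
    {X Y Z : BurnsideCat O} (f : X ⟶ Y) (g : Y ⟶ Z) (m : F.obj X) :
    (F.map (f ≫ g)).hom m = (F.map g).hom ((F.map f).hom m) := by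
  rw [CategoryTheory.Functor.map_comp]
  rfl

theorem map_hom_id {O : TransferSystem G} (F : BurnsideCat O ⥤ ModuleCat.{0} ℚ)
    {X : BurnsideCat O} (m : F.obj X) : (F.map (𝟙 X)).hom m = m := by
  rw [CategoryTheory.Functor.map_id]
  rfl

/-- The Dress pair of an additive functor. -/
noncomputable def toDress {O : TransferSystem G} (F : Mack O) : Dress O where
  obj X := F.obj.obj (bObj O X)
  res f := (F.obj.map (bHom (resSpan O f))).hom
  tr f hf := (F.obj.map (bHom (trSpan O f hf))).hom
  res_id X m := map_hom_id F.obj m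
  res_comp f g m := by
    rw [res_comp_span, map_hom_comp]
  tr_id X h m := map_hom_id F.obj m
  tr_comp f g hf hg hgf m := by
    rw [tr_comp_span O f g hf hg hgf, map_hom_comp]
  base_change p q f g hp hg h m := by
    rw [← map_hom_comp, ← map_hom_comp, base_span O p q f g hp hg h]
  additive i j h := F.property.2 i j h

theorem nat_hom {O : TransferSystem G} {F F' : BurnsideCat O ⥤ ModuleCat.{0} ℚ} (η : F ⟶ F')
    {X Y : BurnsideCat O} (f : X ⟶ Y) (m : F.obj X) :
    (η.app Y).hom ((F.map f).hom m) = (F'.map f).hom ((η.app X).hom m) :=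
  congrArg (fun q => q.hom m) (η.naturality f)

/-- The functor to Dress pairs. -/
noncomputable def toDressF (O : TransferSystem G) : Mack O ⥤ Dress O where
  obj F := toDress F
  map η :=
    { app := fun X => (η.hom.app (bObj O X)).hom
      res := fun f m => nat_hom η.hom _ m
      tr := fun f hf m => nat_hom η.hom _ m }
  map_id F := rfl
  map_comp η θ := rfl

instance faithful_toDressF (O : TransferSystem G) : (toDressF O).Faithful where
  map_injective {F F'} η θ h := by
    apply ObjectProperty.hom_ext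
    apply NatTrans.ext
    funext X
    apply ModuleCat.hom_ext
    exact congrFun (congrArg Dress.Hom.app h) (X : SpanCat O).as

theorem free_induction {O : TransferSystem G} {X Y : GSet G}
    (p : (bObj O X ⟶ bObj O Y) → Prop) (h0 : p 0) (ha : ∀ f g, p f → p g → p (f + g))
    (hs : ∀ (r : ℚ) (s : Span O X Y), p (r • bHom s))
    (f : bObj O X ⟶ bObj O Y) : p f := by
  have key : ∀ f : ((⟨X⟩ : SpanCat O) ⟶ (⟨Y⟩ : SpanCat O)) →₀ ℚ,
      p (show bObj O X ⟶ bObj O Y from f) := by
    intro f
    induction f using Finsupp.induction_linear with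
    | zero => exact h0
    | add f g hf hg => exact ha _ _ hf hg
    | single a r =>
      obtain ⟨s, rfl⟩ : ∃ s : Span O X Y, spanHom O s = a := Quotient.exists_rep a
      have h1 : (Finsupp.single (spanHom O s) r :
          ((⟨X⟩ : SpanCat O) ⟶ (⟨Y⟩ : SpanCat O)) →₀ ℚ) =
          r • Finsupp.single (spanHom O s) (1 : ℚ) := by
        rw [Finsupp.smul_single, smul_eq_mul, mul_one]
      rw [h1]
      exact hs r s
  exact key f

theorem nat_of_dress {O : TransferSystem G} (F F' : Mack O)
    (a : ∀ X : GSet G, F.obj.obj (bObj O X) ⟶ F'.obj.obj (bObj O X))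
    (hr : ∀ {X Y : GSet G} (f : X →[G] Y) (m : F.obj.obj (bObj O Y)),
      (a X).hom ((F.obj.map (bHom (resSpan O f))).hom m) =
        (F'.obj.map (bHom (resSpan O f))).hom ((a Y).hom m))
    (ht : ∀ {X Y : GSet G} (f : X →[G] Y) (hf : O.AdmMap f) (m : F.obj.obj (bObj O X)),
      (a Y).hom ((F.obj.map (bHom (trSpan O f hf))).hom m) =
        (F'.obj.map (bHom (trSpan O f hf))).hom ((a X).hom m))
    {X Y : GSet G} (f : bObj O X ⟶ bObj O Y) :
    F.obj.map f ≫ a Y = a X ≫ F'.obj.map f := by
  obtain ⟨hFa, hFl⟩ := F.property.1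
  obtain ⟨hFa', hFl'⟩ := F'.property.1
  refine free_induction (fun f => F.obj.map f ≫ a Y = a X ≫ F'.obj.map f) ?_ ?_ ?_ f
  · show F.obj.map 0 ≫ a Y = a X ≫ F'.obj.map 0
    rw [Functor.map_zero, Functor.map_zero, Limits.zero_comp, Limits.comp_zero]
  · intro f g hf hg
    show F.obj.map (f + g) ≫ a Y = a X ≫ F'.obj.map (f + g)
    rw [Functor.map_add, Functor.map_add, Preadditive.add_comp, Preadditive.comp_add, hf, hg]
  · intro r s
    show F.obj.map (r • bHom s) ≫ a Y = a X ≫ F'.obj.map (r • bHom s)
    have h0 : F.obj.map (bHom s) ≫ a Y = a X ≫ F'.obj.map (bHom s) := by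
      rw [span_factor s]
      apply ModuleCat.hom_ext
      apply LinearMap.ext
      intro m
      show (a Y).hom ((F.obj.map (bHom (resSpan O s.left) ≫
        bHom (trSpan O s.right s.adm))).hom m) =
        (F'.obj.map (bHom (resSpan O s.left) ≫ bHom (trSpan O s.right s.adm))).hom
          ((a X).hom m)
      rw [map_hom_comp, map_hom_comp, ht, hr]
    rw [F.obj.map_smul, F'.obj.map_smul, Linear.smul_comp, Linear.comp_smul, h0]

instance full_toDressF (O : TransferSystem G) : (toDressF O).Full where
  map_surjective {F F'} φ := by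
    have hnat : ∀ {X Y : GSet G} (f : bObj O X ⟶ bObj O Y),
        F.obj.map f ≫ ModuleCat.ofHom (φ.app Y) = ModuleCat.ofHom (φ.app X) ≫ F'.obj.map f :=
      fun {X Y} f => nat_of_dress F F' (fun X => ModuleCat.ofHom (φ.app X))
        (fun f m => φ.res f m) (fun f hf m => φ.tr f hf m) f
    exact ⟨ObjectProperty.homMk { app := fun X => ModuleCat.ofHom (φ.app (X : SpanCat O).as)
                                  naturality := fun X Y f => hnat f }, rfl⟩

end

/-! ### The linear extension -/

section lift

universe v u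

variable {C : Type u} [Category.{v} C] (E : C ⥤ ModuleCat.{0} ℚ)

/-- The linear extension of a functor on morphisms. -/
noncomputable def liftMap (X Y : C) : ((X ⟶ Y) →₀ ℚ) →ₗ[ℚ] (E.obj X ⟶ E.obj Y) :=
  Finsupp.linearCombination ℚ (fun f : X ⟶ Y => E.map f)

theorem liftMap_single (X Y : C) (f : X ⟶ Y) (r : ℚ) :
    liftMap E X Y (Finsupp.single f r) = r • E.map f := Finsupp.linearCombination_single _ _ _

theorem liftMap_comp (X Y Z : C) (f : (X ⟶ Y) →₀ ℚ) (g : (Y ⟶ Z) →₀ ℚ) :
    liftMap E X Z (f.sum (fun f' s => g.sum (fun g' t => Finsupp.single (f' ≫ g') (s * t)))) =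
      liftMap E X Y f ≫ liftMap E Y Z g := by
  rw [map_finsuppSum]
  have h1 : ∀ (f' : X ⟶ Y) (s : ℚ), liftMap E X Z (g.sum (fun g' t =>
      Finsupp.single (f' ≫ g') (s * t))) = (s • E.map f') ≫ liftMap E Y Z g := by
    intro f' s
    rw [map_finsuppSum]
    have h2 : liftMap E Y Z g = g.sum (fun g' t => t • E.map g') :=
      Finsupp.linearCombination_apply _ _
    rw [h2, Finsupp.sum, Finsupp.sum, Preadditive.comp_sum]
    refine Finset.sum_congr rfl fun g' _ => ?_
    rw [liftMap_single, CategoryTheory.Functor.map_comp, Linear.smul_comp, Linear.comp_smul,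
      smul_smul]
  have h4 : (f.sum fun f' s => liftMap E X Z (g.sum (fun g' t =>
      Finsupp.single (f' ≫ g') (s * t)))) =
      f.sum (fun f' s => (s • E.map f') ≫ liftMap E Y Z g) :=
    Finsupp.sum_congr fun f' _ => h1 f' (f f')
  rw [h4]
  have h3 : liftMap E X Y f = f.sum (fun f' t => t • E.map f') :=
    Finsupp.linearCombination_apply _ _
  rw [h3, Finsupp.sum, Finsupp.sum, Preadditive.sum_comp]

theorem liftMap_id (X : C) : liftMap E X X (Finsupp.single (𝟙 X) 1) = 𝟙 (E.obj X) := by
  rw [liftMap_single, one_smul, CategoryTheory.Functor.map_id]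

/-- The linear extension of a functor. -/
noncomputable def linLift : Free ℚ C ⥤ ModuleCat.{0} ℚ where
  obj X := E.obj (X : C)
  map {X Y} f := liftMap E X Y f
  map_id X := liftMap_id E X
  map_comp {X Y Z} f g := liftMap_comp E X Y Z f g

theorem linLift_additive : (linLift E).Additive where
  map_add {X Y} {f g} := map_add (liftMap E X Y) f g

theorem linLift_linear : @Functor.Linear ℚ _ _ _ _ _ _ _ _ _ (linLift E) :=
  { map_smul := fun {X Y} f r => map_smul (liftMap E X Y) r f }

end lift

section

variable {G : Type} [Group G]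

theorem dress_iso {O : TransferSystem G} (D : Dress O) {X Y : GSet G} (τ : X →[G] Y)
    (hb : Function.Bijective τ) (h : O.AdmMap τ) (m : D.obj Y) : D.tr τ h (D.res τ m) = m := by
  let e := Equiv.ofBijective τ hb
  let inv : Y →[G] X :=
    { toFun := e.symm
      map_smul' := fun g y => by
        apply hb.1
        show τ (e.symm (g • y)) = τ (g • e.symm y)
        rw [map_smul τ g (e.symm y)]
        exact (Equiv.ofBijective_apply_symm_apply τ hb _).trans
          (congrArg (fun z => g • z) (Equiv.ofBijective_apply_symm_apply τ hb y).symm) }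
  have hinv : τ.comp inv = MulActionHom.id G :=
    MulActionHom.ext fun y => Equiv.ofBijective_apply_symm_apply τ hb y
  have h1 : ∀ x : D.obj X, D.res τ (D.tr τ h x) = x := by
    intro x
    have h2 := D.base_change (MulActionHom.id G : X →[G] X) (MulActionHom.id G : X →[G] X) τ τ
      (admMap_id O X) h ⟨fun _ => rfl, fun a b hab => ⟨a, ⟨rfl, hb.1 hab⟩, fun c hc => hc.1⟩⟩ x
    rw [h2, D.res_id, D.tr_id]
  have h3 : ∀ y : D.obj Y, D.res inv (D.res τ y) = y := by
    intro y
    rw [← D.res_comp, hinv, D.res_id]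
  have h4 := h1 (D.res τ m)
  have h5 := congrArg (D.res inv) h4
  rwa [h3, h3] at h5

theorem span_wd {O : TransferSystem G} (D : Dress O) {X Y : GSet G} (s t : Span O X Y)
    (h : s.Rel t) : (D.tr s.right s.adm).comp (D.res s.left) =
      (D.tr t.right t.adm).comp (D.res t.left) := by
  obtain ⟨e, he, h1, h2⟩ := h
  apply LinearMap.ext
  intro m
  show D.tr s.right s.adm (D.res s.left m) = D.tr t.right t.adm (D.res t.left m)
  have hl : t.left.comp e = s.left := MulActionHom.ext h1
  have hr : t.right.comp e = s.right := MulActionHom.ext h2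
  have hea : O.AdmMap e := fun x => by
    have h3 : stabilizer G (e x) = stabilizer G x := by
      ext g
      rw [mem_stabilizer_iff, mem_stabilizer_iff, ← map_smul, he.1.eq_iff]
    rw [h3]
    exact O.adm_refl _
  have h4 : ∀ (f : s.apex →[G] Y) (hf : O.AdmMap f) (_ : t.right.comp e = f)
      (x : D.obj s.apex), D.tr f hf x = D.tr t.right t.adm (D.tr e hea x) := by
    intro f hf hfe x
    subst hfe
    exact D.tr_comp _ _ _ _ _ _
  rw [h4 s.right s.adm hr, ← hl, D.res_comp, dress_iso D e he hea]

/-- The functor on the span category of a Dress pair. -/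
noncomputable def spanFun {O : TransferSystem G} (D : Dress O) : SpanCat O ⥤ ModuleCat.{0} ℚ where
  obj X := D.obj X.as
  map {X Y} f := ModuleCat.ofHom (Quotient.lift
    (fun s : Span O X.as Y.as => (D.tr s.right s.adm).comp (D.res s.left))
    (fun s t h => span_wd D s t h) f)
  map_id X := by
    apply ModuleCat.hom_ext
    apply LinearMap.ext
    intro m
    exact (D.tr_id X.as (admMap_id O X.as) (D.res (MulActionHom.id G : X.as →[G] X.as) m)).trans
      (D.res_id X.as m)
  map_comp {X Y Z} f g := by
    induction f using Quotient.inductionOn with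
    | h s =>
      induction g using Quotient.inductionOn with
      | h t =>
        apply ModuleCat.hom_ext
        apply LinearMap.ext
        intro m
        show D.tr (t.right.comp (pb2 s.right t.left)) _
          (D.res (s.left.comp (pb1 s.right t.left)) m) =
          D.tr t.right t.adm (D.res t.left (D.tr s.right s.adm (D.res s.left m)))
        have h1 := D.base_change (pb2 s.right t.left) (pb1 s.right t.left) t.left s.right
          (admMap_pb2 O t.left s.adm) s.adm
          ⟨fun u => u.2.symm, fun x y h => ⟨⟨(y, x), h.symm⟩, ⟨rfl, rfl⟩, fun z hz =>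
            Subtype.ext (Prod.ext hz.2 hz.1)⟩⟩ (D.res s.left m)
        rw [h1, D.res_comp]
        exact D.tr_comp _ _ (admMap_pb2 O t.left s.adm) t.adm _ _

/-- The additive functor of a Dress pair. -/
noncomputable def ofDress {O : TransferSystem G} (D : Dress O) : Mack O :=
  ⟨linLift (spanFun D), ⟨linLift_additive _, linLift_linear _⟩, fun X Y T i j hij => by
    have h1 : ∀ {X T : GSet G} (i : X →[G] T) (m : D.obj T),
        ((linLift (spanFun D)).map (resHom O i)).hom m = D.res i m := by
      intro X T i m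
      have h2 : (linLift (spanFun D)).map (resHom O i) =
          (1 : ℚ) • (spanFun D).map (spanHom O (resSpan O i)) :=
        liftMap_single (spanFun D) _ _ _ _
      rw [h2, one_smul]
      exact D.tr_id _ _ _
    have h3 := D.additive i j hij
    have h4 : (fun m : (linLift (spanFun D)).obj (bObj O T) =>
        (funRes (linLift (spanFun D)) i m, funRes (linLift (spanFun D)) j m)) =
        fun m : D.obj T => (D.res i m, D.res j m) := by
      funext m
      exact Prod.ext (h1 i m) (h1 j m)
    rw [h4]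
    exact h3⟩

theorem ofDress_map {O : TransferSystem G} (D : Dress O) {X Y : GSet G} (s : Span O X Y)
    (m : D.obj X) : ((ofDress D).obj.map (bHom s)).hom m = D.tr s.right s.adm (D.res s.left m) := by
  have h2 : (linLift (spanFun D)).map (bHom s) =
      (1 : ℚ) • (spanFun D).map (spanHom O s) := liftMap_single (spanFun D) _ _ _ _
  have h3 : ((ofDress D).obj.map (bHom s)) = (spanFun D).map (spanHom O s) := by
    refine Eq.trans h2 ?_
    rw [one_smul]
  rw [h3]
  rfl

instance ess_toDressF (O : TransferSystem G) : (toDressF O).EssSurj where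
  mem_essImage D := by
    refine ⟨ofDress D, ⟨{ hom := ⟨fun X => LinearMap.id, ?_, ?_⟩,
                          inv := ⟨fun X => LinearMap.id, ?_, ?_⟩,
                          hom_inv_id := rfl, inv_hom_id := rfl }⟩⟩
    · intro X Y f m
      refine (ofDress_map D (resSpan O f) m).trans ?_
      exact D.tr_id _ _ _
    · intro X Y f hf m
      refine (ofDress_map D (trSpan O f hf) m).trans ?_
      exact congrArg (D.tr f hf) (D.res_id _ _)
    · intro X Y f m
      refine Eq.symm ((ofDress_map D (resSpan O f) m).trans ?_)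
      exact D.tr_id _ _ _
    · intro X Y f hf m
      refine Eq.symm ((ofDress_map D (trSpan O f hf) m).trans ?_)
      exact congrArg (D.tr f hf) (D.res_id _ _)

theorem t_DRS : S_DRS := by
  intro G _ O
  haveI : (toDressF O).IsEquivalence := {}
  exact ⟨(toDressF O).asEquivalence⟩

end

end Pool.Agent.Q20.MK
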