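import Mathlib
import Pool.Agent.Q20.MK.Com

/-!
# Project MK: injectivity of eta
-/

set_option linter.unusedVariables false
set_option linter.unusedSectionVars false
set_option linter.style.haveILetI false

open CategoryTheory MulAction

namespace Pool.Agent.Q20.MK

section

variable {G : Type} [Group G] [Finite G]

/-- The orbit map of a point. -/
def orbMap {X : GSet G} (x : X) : orb (stabilizer G x) →[G] X where
  toFun := ofQuotientStabilizer G x
  map_smul' g y := ofQuotientStabilizer_smul G x g y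

theorem orbMap_inj {X : GSet G} (x : X) : Function.Injective (orbMap x) :=
  injective_ofQuotientStabilizer G x

theorem orbMap_mem {X : GSet G} (x y : X) (h : y ∈ orbit G x) : ∃ z, orbMap x z = y := by
  obtain ⟨g, rfl⟩ := h
  exact ⟨((g : G) : G ⧸ stabilizer G x), ofQuotientStabilizer_mk G x g⟩

theorem orbMap_orbit {X : GSet G} (x : X) (z : orb (stabilizer G x)) :
    orbMap x z ∈ orbit G x := by
  obtain ⟨g, rfl⟩ := QuotientGroup.mk_surjective z
  exact ⟨g, (ofQuotientStabilizer_mk G x g).symm⟩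

theorem tr_res_bij {O : TransferSystem G} (D : Dress O) {X Y : GSet G} (τ : X →[G] Y)
    (hb : Function.Bijective τ) (h : O.AdmMap τ) (m : D.obj Y) : D.tr τ h (D.res τ m) = m := by
  have h1 : ∀ x : D.obj X, D.res τ (D.tr τ h x) = x := by
    intro x
    have h2 := D.base_change (MulActionHom.id G : X →[G] X) (MulActionHom.id G : X →[G] X) τ τ
      (admMap_id O X) h ⟨fun _ => rfl, fun a b hab => ⟨a, ⟨rfl, hb.1 hab⟩, fun c hc => hc.1⟩⟩ x
    rw [h2, D.res_id, D.tr_id]
  have h3 : ∀ y : D.obj Y, D.res (invHom τ hb) (D.res τ y) = y := by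
    intro y
    rw [← D.res_comp, comp_invHom, D.res_id]
  have h4 := h1 (D.res τ m)
  have h5 := congrArg (D.res (invHom τ hb)) h4
  rwa [h3, h3] at h5

theorem tr_congr {O : TransferSystem G} (D : Dress O) {X Y : GSet G} {f g : X →[G] Y}
    (h : f = g) (hf : O.AdmMap f) (hg : O.AdmMap g) (m : D.obj X) : D.tr f hf m = D.tr g hg m := by
  subst h
  rfl

/-- The span of the transfers from orbits with at most `n` elements in the stabiliser. -/
def Fn {O : TransferSystem G} (D : Dress O) (T : GSet G) (n : ℕ) : Submodule ℚ (D.obj T) :=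
  Submodule.span ℚ {m | ∃ (K : Subgroup G) (p : orb K →[G] T) (hp : O.AdmMap p)
    (m' : D.obj (orb K)), Nat.card K ≤ n ∧ D.tr p hp m' = m}

theorem mem_Fn (hD : S_DEC) {O : TransferSystem G} (D : Dress O) {X T : GSet G} (n : ℕ)
    (p : X →[G] T) (hp : O.AdmMap p) (hX : ∀ x : X, Nat.card (stabilizer G x) ≤ n)
    (m : D.obj X) : D.tr p hp m ∈ Fn D T n := by
  classical
  let ι := Quotient (orbitRel G X)
  haveI : Fintype ι := Fintype.ofFinite _
  have hi : ∀ a : ι, Function.Injective (orbMap (Quotient.out a : X)) := fun a => orbMap_inj _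
  have h := hD G O D X ι (fun a => orb (stabilizer G (Quotient.out a : X)))
    (fun a => orbMap (Quotient.out a : X)) hi
    (fun a b x y hxy => by
      have h1 := orbMap_orbit (Quotient.out a : X) x
      have h2 := orbMap_orbit (Quotient.out b : X) y
      rw [hxy] at h1
      have h3 : (Quotient.out a : X) ∈ orbit G (Quotient.out b : X) := by
        rw [← orbit_eq_iff] at h1 h2 ⊢
        rw [← h1, h2]
      have h4 : (⟦(Quotient.out a : X)⟧ : ι) = ⟦(Quotient.out b : X)⟧ :=
        Quotient.sound (orbitRel_apply.mpr h3)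
      rwa [Quotient.out_eq, Quotient.out_eq] at h4)
    (fun t => by
      have h1 : t ∈ orbit G (Quotient.out (⟦t⟧ : ι) : X) := by
        have h2 : (orbitRel G X) (Quotient.out (⟦t⟧ : ι)) t := Quotient.mk_out t
        rw [orbitRel_apply] at h2
        exact (orbit_eq_iff.mpr h2) ▸ mem_orbit_self t
      obtain ⟨z, hz⟩ := orbMap_mem _ _ h1
      exact ⟨⟦t⟧, z, hz⟩)
    (fun a => adm_of_inj O (hi a)) m
  rw [← h, map_sum]
  refine Submodule.sum_mem _ fun a _ => Submodule.subset_span ?_
  refine ⟨stabilizer G (Quotient.out a : X), p.comp (orbMap (Quotient.out a : X)),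
    admMap_comp O (adm_of_inj O (hi a)) hp, D.res (orbMap (Quotient.out a : X)) m, hX _, ?_⟩
  exact D.tr_comp _ _ _ _ _ _

theorem card_stab_orb (K : Subgroup G) (y : orb K) : Nat.card (stabilizer G y) ≤ Nat.card K :=
  card_le_of_hom (orbMap y)

theorem tr_PT (hD : S_DEC) {O : TransferSystem G} (D : Dress O) {T : GSet G} (n : ℕ)
    (K : Subgroup G) (hK : Nat.card K ≤ n + 1) (p : orb K →[G] T) (hp : O.AdmMap p)
    (x : D.obj (orb K)) (hx : x ∈ PT D K) : D.tr p hp x ∈ Fn D T n := by
  rw [PT] at hx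
  refine Submodule.span_induction ?_ ?_ ?_ ?_ hx
  · rintro _ ⟨P, p', hp', m, hu, rfl⟩
    rw [← D.tr_comp p' p hp' hp (admMap_comp O hp' hp)]
    refine mem_Fn hD D n _ _ (fun u => ?_) m
    have h1 : stabilizer G u < stabilizer G (p' u) := lt_of_le_not_ge (O.adm_le (hp' u)) (hu u)
    have h2 : Nat.card (stabilizer G u) < Nat.card (stabilizer G (p' u)) := by
      by_contra hc
      exact h1.ne (Subgroup.eq_of_le_of_card_ge h1.le (not_lt.mp hc))
    have h3 := card_stab_orb K (p' u)
    omega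
  · rw [map_zero]
    exact Submodule.zero_mem _
  · intro a b _ _ ha hb
    rw [map_add]
    exact Submodule.add_mem _ ha hb
  · intro c a _ ha
    rw [map_smul]
    exact Submodule.smul_mem _ _ ha

/-- The averaged sum of transfers of restrictions at level `n`. -/
noncomputable def En {O : TransferSystem G} (D : Dress O) (T : GSet G) (n : ℕ) :
    D.obj T →ₗ[ℚ] D.obj T :=
  ∑ i : Idx O T n, ((Nf O T n i.1.1 i.2.1 : ℚ))⁻¹ • (D.tr i.2.1 i.2.2).comp (D.res i.2.1)

theorem En_apply {O : TransferSystem G} (D : Dress O) (T : GSet G) (n : ℕ) (m : D.obj T) :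
    En D T n m = ∑ i : Idx O T n, ((Nf O T n i.1.1 i.2.1 : ℚ))⁻¹ •
      D.tr i.2.1 i.2.2 (D.res i.2.1 m) := by
  rw [En, LinearMap.sum_apply]
  rfl

/-- Triples over a fixed target. -/
abbrev Wf (O : TransferSystem G) (T : GSet G) (n : ℕ) (L : Subgroup G) (r : orb L →[G] T) :=
  Σ i : Idx O T n, {τ : orb i.1.1 →[G] orb L // r.comp τ = i.2.1}

theorem comp_inv_of {X Y Z : GSet G} {t : X →[G] Y} (hb : Function.Bijective t) {r : Y →[G] Z}
    {p : X →[G] Z} (h : r.comp t = p) : p.comp (invHom t hb) = r := by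
  rw [← h, casc, comp_invHom, comp_one]

theorem invHom_invHom {X Y : GSet G} (t : X →[G] Y) (hb : Function.Bijective t)
    (hb' : Function.Bijective (invHom t hb)) (y : X) : invHom (invHom t hb) hb' y = t y := by
  apply hb'.1
  have h1 : (invHom t hb) (invHom (invHom t hb) hb' y) = y :=
    DFunLike.congr_fun (comp_invHom (invHom t hb) hb') y
  have h2 : (invHom t hb) (t y) = y := DFunLike.congr_fun (invHom_comp t hb) y
  rw [h1, h2]

theorem card_Wf (O : TransferSystem G) (T : GSet G) (n : ℕ) (L : Subgroup G) (hL : Nat.card L = n)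
    (r : orb L →[G] T) : Fintype.card (Wf O T n L r) = Nf O T n L r := by
  refine Fintype.card_congr
    { toFun := fun x => ⟨x.1, invHom x.2.1 (bij_of_card _ (x.1.1.2.trans hL.symm)), ?_⟩
      invFun := fun x => ⟨x.1, invHom x.2.1 (bij_of_card _ (hL.trans x.1.1.2.symm)), ?_⟩
      left_inv := fun x => ?_
      right_inv := fun x => ?_ }
  · exact comp_inv_of _ x.2.2
  · exact comp_inv_of _ x.2.2
  · obtain ⟨i, t, ht⟩ := x
    refine congrArg (Sigma.mk i) (Subtype.ext (MulActionHom.ext fun y => ?_))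
    exact invHom_invHom t _ _ y
  · obtain ⟨i, t, ht⟩ := x
    refine congrArg (Sigma.mk i) (Subtype.ext (MulActionHom.ext fun y => ?_))
    exact invHom_invHom t _ _ y

theorem En_gen (hD : S_DEC) (hKL : S_KL) {O : TransferSystem G} (D : Dress O) (T : GSet G) (n : ℕ)
    (L : Subgroup G) (r : orb L →[G] T) (hr : O.AdmMap r) (m' : D.obj (orb L))
    (hL : Nat.card L ≤ n + 1) :
    En D T (n + 1) (D.tr r hr m') - D.tr r hr m' ∈ Fn D T n := by
  rw [En_apply]
  have h1 : ∀ i : Idx O T (n + 1), D.tr i.2.1 i.2.2 (D.res i.2.1 (D.tr r hr m')) -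
      ∑ t : {τ : orb i.1.1 →[G] orb L // r.comp τ = i.2.1}, D.tr i.2.1 i.2.2 (D.res t.1 m') ∈
      Fn D T n := by
    intro i
    have h2 := hKL G O D _ _ r hr m' i.1.1 i.2.1
    have h3 := tr_PT hD D n i.1.1 i.1.2.le i.2.1 i.2.2 _ h2
    rw [map_sub, map_sum] at h3
    convert h3 using 2
  rcases Nat.lt_or_ge n (Nat.card L) with hn | hn
  · have hL' : Nat.card L = n + 1 := le_antisymm hL hn
    have h2 : ∀ (i : Idx O T (n + 1)) (t : {τ : orb i.1.1 →[G] orb L // r.comp τ = i.2.1}),
        ((Nf O T (n + 1) i.1.1 i.2.1 : ℚ))⁻¹ • D.tr i.2.1 i.2.2 (D.res t.1 m') =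
          ((Nf O T (n + 1) L r : ℚ))⁻¹ • D.tr r hr m' := by
      intro i t
      have hb := bij_of_card t.1 (i.1.2.trans hL'.symm)
      have ha := adm_of_inj O hb.1
      have h3 : D.tr i.2.1 i.2.2 (D.res t.1 m') = D.tr r hr m' := by
        rw [tr_congr D t.2.symm i.2.2 (admMap_comp O ha hr), D.tr_comp t.1 r ha hr,
          tr_res_bij D t.1 hb ha]
      have h4 : Nf O T (n + 1) i.1.1 i.2.1 = Nf O T (n + 1) L r := by
        rw [← t.2]
        exact Nf_congr O T (n + 1) r t.1 hb
      rw [h3, h4]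
    have h5 : D.tr r hr m' = ∑ i : Idx O T (n + 1), ((Nf O T (n + 1) i.1.1 i.2.1 : ℚ))⁻¹ •
        ∑ t : {τ : orb i.1.1 →[G] orb L // r.comp τ = i.2.1},
          D.tr i.2.1 i.2.2 (D.res t.1 m') := by
      have hN : (Nf O T (n + 1) L r : ℚ) ≠ 0 := by
        have h1 := Nf_pos O T (n + 1) ⟨⟨L, hL'⟩, ⟨r, hr⟩⟩
        have h2 : 0 < Nf O T (n + 1) L r := h1
        exact_mod_cast h2.ne'
      have h6 : ∀ i : Idx O T (n + 1), ((Nf O T (n + 1) i.1.1 i.2.1 : ℚ))⁻¹ •
          ∑ t : {τ : orb i.1.1 →[G] orb L // r.comp τ = i.2.1},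
            D.tr i.2.1 i.2.2 (D.res t.1 m') =
          ∑ t : {τ : orb i.1.1 →[G] orb L // r.comp τ = i.2.1},
            ((Nf O T (n + 1) L r : ℚ))⁻¹ • D.tr r hr m' := by
        intro i
        rw [Finset.smul_sum]
        exact Finset.sum_congr rfl fun t _ => h2 i t
      rw [Finset.sum_congr rfl fun i _ => h6 i]
      have h7 := Fintype.sum_sigma (fun x : Wf O T (n + 1) L r =>
        ((Nf O T (n + 1) L r : ℚ))⁻¹ • D.tr r hr m')
      rw [Finset.sum_const, Finset.card_univ, card_Wf O T (n + 1) L hL' r,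
        ← Nat.cast_smul_eq_nsmul ℚ, smul_smul, mul_inv_cancel₀ hN, one_smul] at h7
      convert h7 using 2
    nth_rewrite 2 [h5]
    rw [← Finset.sum_sub_distrib]
    refine Submodule.sum_mem _ fun i _ => ?_
    rw [← smul_sub]
    exact Submodule.smul_mem _ _ (h1 i)
  · refine Submodule.sub_mem _ (Submodule.sum_mem _ fun i _ => Submodule.smul_mem _ _ ?_)
      (Submodule.subset_span ⟨L, r, hr, m', hn, rfl⟩)
    have h2 := h1 i
    have hz : ∑ t : {τ : orb i.1.1 →[G] orb L // r.comp τ = i.2.1},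
        D.tr i.2.1 i.2.2 (D.res t.1 m') = 0 := Finset.sum_eq_zero fun t _ => by
      have h3 := card_le_of_hom t.1
      have h4 := i.1.2
      omega
    rwa [hz, sub_zero] at h2

theorem En_sub (hD : S_DEC) (hKL : S_KL) {O : TransferSystem G} (D : Dress O) (T : GSet G) (n : ℕ)
    (m : D.obj T) (hm : m ∈ Fn D T (n + 1)) : En D T (n + 1) m - m ∈ Fn D T n := by
  rw [Fn] at hm
  refine Submodule.span_induction ?_ ?_ ?_ ?_ hm
  · rintro _ ⟨K, p, hp, m', hK, rfl⟩
    exact En_gen hD hKL D T n K p hp m' hK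
  · rw [map_zero, sub_zero]
    exact Submodule.zero_mem _
  · intro a b _ _ ha hb
    rw [map_add, add_sub_add_comm]
    exact Submodule.add_mem _ ha hb
  · intro c a _ ha
    rw [map_smul, ← smul_sub]
    exact Submodule.smul_mem _ _ ha

theorem t_ETI (hJ : S_JI) (hD : S_DEC) (hKL : S_KL) : S_ETI := by
  intro G _ _ O D T m hm
  have key : ∀ n : ℕ, m ∈ Fn D T n → m ∈ Fn D T 0 := by
    intro n
    induction n with
    | zero => exact id
    | succ n ih =>
      intro h
      apply ih
      have h1 := En_sub hD hKL D T n m h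
      have h2 : En D T (n + 1) m ∈ Fn D T n := by
        rw [En_apply]
        exact Submodule.sum_mem _ fun i _ => Submodule.smul_mem _ _
          (tr_PT hD D n i.1.1 i.1.2.le i.2.1 i.2.2 _ (hm _ _))
      have h3 := Submodule.sub_mem _ h2 h1
      rwa [sub_sub_cancel] at h3
  have h0 : m ∈ Fn D T (Nat.card G) := by
    have h1 := mem_Fn hD D (Nat.card G) (MulActionHom.id G : T →[G] T) (admMap_id O T)
      (fun x => Nat.card_le_card_of_injective _ (Subgroup.subtype_injective _)) m
    rwa [D.tr_id] at h1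
  have h1 := key _ h0
  have h2 : Fn D T 0 = ⊥ := by
    rw [Fn, Submodule.span_eq_bot]
    rintro _ ⟨K, p, hp, m', hK, rfl⟩
    exact absurd hK (not_le.mpr Nat.card_pos)
  rw [h2, Submodule.mem_bot] at h1
  exact h1

end

end Pool.Agent.Q20.MK
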