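import Mathlib
import Pool.Agent.Q20.MK.Com

/-!
# Project MK: surjectivity of eta
-/

set_option linter.unusedVariables false
set_option linter.unusedSectionVars false
set_option linter.style.haveILetI false

open CategoryTheory MulAction

namespace Pool.Agent.Q20.MK

section

variable {G : Type} [Group G] [Finite G]

/-- Restriction to an orbit of a weighted sum of transfers, modulo proper transfers. -/
theorem res_sum (hKL : S_KL) {O : TransferSystem G} (D : Dress O) (T : GSet G) (n : ℕ)
    (b : ∀ K : Subgroup G, (orb K →[G] T) → D.obj (orb K)) (J : Subgroup G) (q : orb J →[G] T) :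
    D.res q (∑ i : Idx O T n, D.tr i.2.1 i.2.2 (b i.1.1 i.2.1)) -
      ∑ x : Lf O T n J q, D.res x.2.1 (b x.1.1.1 x.1.2.1) ∈ PT D J := by
  rw [map_sum, Fintype.sum_sigma, ← Finset.sum_sub_distrib]
  refine Submodule.sum_mem _ fun i _ => ?_
  have h := hKL G O D _ _ i.2.1 i.2.2 (b i.1.1 i.2.1) J q
  convert h using 2

theorem ets_step (hKL : S_KL) {O : TransferSystem G} (D : Dress O) (T : GSet G) (n : ℕ)
    (a : ∀ K : Subgroup G, (orb K →[G] T) → D.obj (orb K))
    (hc : ∀ (J K : Subgroup G) (σ : orb J →[G] orb K) (f : orb K →[G] T), O.DenseMap σ →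
      a J (f.comp σ) - D.res σ (a K f) ∈ PT D J) :
    ∃ m : D.obj T, (∀ (J : Subgroup G) (q : orb J →[G] T), n < Nat.card J → D.res q m ∈ PT D J) ∧
      ∀ (J : Subgroup G) (q : orb J →[G] T), Nat.card J = n → O.AdmMap q →
        D.res q m - a J q ∈ PT D J := by
  let b : ∀ K : Subgroup G, (orb K →[G] T) → D.obj (orb K) :=
    fun K p => ((Nf O T n K p : ℚ))⁻¹ • a K p
  refine ⟨∑ i : Idx O T n, D.tr i.2.1 i.2.2 (b i.1.1 i.2.1), fun J q hJ => ?_, fun J q hJ hq => ?_⟩
  · have h := res_sum hKL D T n b J q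
    have he : IsEmpty (Lf O T n J q) := ⟨fun x => by
      have h1 := card_le_of_hom x.2.1
      have h2 := x.1.1.2
      omega⟩
    have hz : ∑ x : Lf O T n J q, D.res x.2.1 (b x.1.1.1 x.1.2.1) = 0 :=
      Finset.sum_eq_zero fun x _ => he.elim x
    rw [hz, sub_zero] at h
    exact h
  · have h := res_sum hKL D T n b J q
    have hN : (Nf O T n J q : ℚ) ≠ 0 := by
      have h1 := Nf_pos O T n ⟨⟨J, hJ⟩, ⟨q, hq⟩⟩
      have h2 : 0 < Nf O T n J q := h1
      exact_mod_cast h2.ne'
    have h1 : ∑ x : Lf O T n J q, D.res x.2.1 (b x.1.1.1 x.1.2.1) - a J q ∈ PT D J := by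
      have h2 : a J q = ∑ x : Lf O T n J q, ((Nf O T n J q : ℚ))⁻¹ • a J q := by
        rw [Finset.sum_const, Finset.card_univ, ← Nat.cast_smul_eq_nsmul ℚ, smul_smul]
        have h3 : ((Fintype.card (Lf O T n J q) : ℕ) : ℚ) = (Nf O T n J q : ℚ) := rfl
        rw [h3, mul_inv_cancel₀ hN, one_smul]
      have h3 : ∑ x : Lf O T n J q, D.res x.2.1 (b x.1.1.1 x.1.2.1) - a J q =
          ∑ x : Lf O T n J q, (D.res x.2.1 (b x.1.1.1 x.1.2.1) -
            ((Nf O T n J q : ℚ))⁻¹ • a J q) := by
        rw [Finset.sum_sub_distrib, ← h2]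
      rw [h3]
      refine Submodule.sum_mem _ fun x _ => ?_
      obtain ⟨i, t, ht⟩ := x
      have hb : Function.Bijective t := bij_of_card t (hJ.trans i.1.2.symm)
      have hN2 : Nf O T n i.1.1 i.2.1 = Nf O T n J q := by
        rw [← ht]
        exact (Nf_congr O T n i.2.1 t hb).symm
      have h4 := hc J i.1.1 t i.2.1 (dense_of_inj O hb.1)
      rw [ht] at h4
      show D.res t (((Nf O T n i.1.1 i.2.1 : ℚ))⁻¹ • a i.1.1 i.2.1) - _ ∈ _
      rw [hN2, map_smul, ← smul_sub]
      refine Submodule.smul_mem _ _ ?_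
      rw [← neg_sub]
      exact Submodule.neg_mem _ h4
    have h5 := Submodule.add_mem _ h h1
    rwa [sub_add_sub_cancel] at h5

theorem t_ETS (hF : S_FACT) (hKL : S_KL) (hP : S_PTD) : S_ETS := by
  intro G _ _ O D T a hc
  have key : ∀ (n : ℕ) (a : ∀ K : Subgroup G, (orb K →[G] T) → D.obj (orb K)),
      (∀ (J K : Subgroup G) (σ : orb J →[G] orb K) (f : orb K →[G] T), O.DenseMap σ →
        a J (f.comp σ) - D.res σ (a K f) ∈ PT D J) →
      (∀ (K : Subgroup G) (f : orb K →[G] T), O.AdmMap f → n < Nat.card K → a K f ∈ PT D K) →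
      ∃ m : D.obj T, ∀ (K : Subgroup G) (f : orb K →[G] T), D.res f m - a K f ∈ PT D K := by
    intro n
    induction n with
    | zero =>
      intro a hc h0
      refine ⟨0, fun K f => ?_⟩
      rw [map_zero, zero_sub]
      refine Submodule.neg_mem _ ?_
      obtain ⟨A, σ, α, hσ, hα, rfl⟩ := hF G O K T f
      have h1 := hc K A σ α hσ
      have h2 := hP G O D K A σ hσ _ (h0 A α hα Nat.card_pos)
      have h3 := Submodule.add_mem _ h1 h2
      rwa [sub_add_cancel] at h3
    | succ n ih =>
      intro a hc h0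
      obtain ⟨m₁, hm1, hm2⟩ := ets_step hKL D T (n + 1) a hc
      obtain ⟨m₂, hm⟩ := ih (fun K f => a K f - D.res f m₁) (fun J K σ f hσ => by
        have h1 := hc J K σ f hσ
        have h2 : a J (f.comp σ) - D.res (f.comp σ) m₁ - D.res σ (a K f - D.res f m₁) =
            a J (f.comp σ) - D.res σ (a K f) := by
          rw [map_sub, D.res_comp]
          abel
        rw [h2]
        exact h1) (fun K f hf hn => by
        rcases Nat.lt_or_ge (n + 1) (Nat.card K) with h | h
        · exact Submodule.sub_mem _ (h0 K f hf h) (hm1 K f h)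
        · have h1 := hm2 K f (by omega) hf
          rw [← neg_sub]
          exact Submodule.neg_mem _ h1)
      refine ⟨m₂ + m₁, fun K f => ?_⟩
      have h1 := hm K f
      rw [map_add]
      have h2 : D.res f m₂ + D.res f m₁ - a K f = D.res f m₂ - (a K f - D.res f m₁) := by abel
      rw [h2]
      exact h1
  refine key (Nat.card G) a hc (fun K f _ h => ?_)
  exact absurd h (not_lt.mpr (Nat.card_le_card_of_injective _ (Subgroup.subtype_injective K)))

end

end Pool.Agent.Q20.MK
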