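import Mathlib
import Pool.Agent.Q20.MK.Com

/-!
# Project MK: the functor Phi is an equivalence
-/

set_option linter.unusedVariables false
set_option linter.unusedSectionVars false
set_option linter.style.haveILetI false

open CategoryTheory MulAction

namespace Pool.Agent.Q20.MK

section

variable {G : Type} [Group G] [Finite G]

/-- The class of an element in the geometric fixed points. -/
def cl {O : TransferSystem G} (D : Dress O) (K : Subgroup G) (m : D.obj (orb K)) :
    D.obj (orb K) ⧸ PT D K := Submodule.Quotient.mk m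

theorem cl_eq {O : TransferSystem G} (D : Dress O) (K : Subgroup G) (m n : D.obj (orb K)) :
    cl D K m = cl D K n ↔ m - n ∈ PT D K := Submodule.Quotient.eq _

/-- `η` determines an element. -/
theorem eta_inj (hI : S_ETI) {O : TransferSystem G} (D : Dress O) (T : GSet G) (m n : D.obj T)
    (h : ∀ (K : Subgroup G) (f : orb K →[G] T), cl D K (D.res f m) = cl D K (D.res f n)) :
    m = n := by
  rw [← sub_eq_zero]
  apply hI G O D T
  intro K f
  rw [map_sub]
  exact (cl_eq D K _ _).mp (h K f)

/-- The restriction along a dense map on geometric fixed points. -/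
def rq (hP : S_PTD) {O : TransferSystem G} (D : Dress O) {J K : Subgroup G}
    (σ : orb J →[G] orb K) (hσ : O.DenseMap σ) :
    (D.obj (orb K) ⧸ PT D K) →ₗ[ℚ] (D.obj (orb J) ⧸ PT D J) :=
  Submodule.mapQ _ _ (D.res σ) (fun m hm => hP G O D J K σ hσ m hm)

theorem rq_cl (hP : S_PTD) {O : TransferSystem G} (D : Dress O) {J K : Subgroup G}
    (σ : orb J →[G] orb K) (hσ : O.DenseMap σ) (m : D.obj (orb K)) :
    rq hP D σ hσ (cl D K m) = cl D J (D.res σ m) := rfl

/-- Compatible families come from elements. -/
theorem eta_surj (hP : S_PTD) (hS : S_ETS) {O : TransferSystem G} (D : Dress O) (T : GSet G)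
    (a : ∀ K : Subgroup G, (orb K →[G] T) → (D.obj (orb K) ⧸ PT D K))
    (ha : ∀ (J K : Subgroup G) (σ : orb J →[G] orb K) (f : orb K →[G] T) (hσ : O.DenseMap σ),
      a J (f.comp σ) = rq hP D σ hσ (a K f)) :
    ∃ m : D.obj T, ∀ (K : Subgroup G) (f : orb K →[G] T), cl D K (D.res f m) = a K f := by
  have h1 : ∀ (K : Subgroup G) (f : orb K →[G] T), cl D K (Quotient.out (a K f)) = a K f :=
    fun K f => Quotient.out_eq _
  obtain ⟨m, hm⟩ := hS G O D T (fun K f => Quotient.out (a K f)) (fun J K σ f hσ => by
    rw [← cl_eq, h1, ha J K σ f hσ, ← rq_cl hP D σ hσ, h1])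
  refine ⟨m, fun K f => ?_⟩
  rw [← h1 K f, cl_eq]
  exact hm K f

/-- The components of a morphism of geometric fixed point presheaves. -/
noncomputable def fl (hP : S_PTD) {O : TransferSystem G} {D D' : Dress O}
    (f : (Phi hP O).obj D ⟶ (Phi hP O).obj D') (K : Subgroup G) :
    (D.obj (orb K) ⧸ PT D K) →ₗ[ℚ] (D'.obj (orb K) ⧸ PT D' K) :=
  (f.app (Opposite.op (⟨K⟩ : DCat O))).hom

theorem fl_nat (hP : S_PTD) {O : TransferSystem G} {D D' : Dress O}
    (f : (Phi hP O).obj D ⟶ (Phi hP O).obj D') {J K : Subgroup G}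
    (σ : orb J →[G] orb K) (hσ : O.DenseMap σ) (x : D.obj (orb K) ⧸ PT D K) :
    fl hP f J (rq hP D σ hσ x) = rq hP D' σ hσ (fl hP f K x) :=
  congrArg (fun z => z.hom x) (f.naturality (dHom O σ hσ).op)

theorem t_FF (hKL : S_KL) (hS : S_ETS) (hI : S_ETI) : S_FF := by
  intro hP G _ _ O
  refine ⟨⟨fun {D D'} f => ?_⟩, ⟨fun {D D'} φ ψ h => ?_⟩⟩
  · -- full
    have hex : ∀ (T : GSet G) (m : D.obj T), ∃ m' : D'.obj T, ∀ (K : Subgroup G)
        (h : orb K →[G] T), cl D' K (D'.res h m') = fl hP f K (cl D K (D.res h m)) := by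
      intro T m
      refine eta_surj hP hS D' T (fun K h => fl hP f K (cl D K (D.res h m))) ?_
      intro J K σ g hσ
      rw [← fl_nat, rq_cl, D.res_comp]
    choose φ hφ using hex
    have huniq : ∀ (T : GSet G) (x y : D'.obj T), (∀ (K : Subgroup G) (h : orb K →[G] T),
        cl D' K (D'.res h x) = cl D' K (D'.res h y)) → x = y := eta_inj hI D'
    have hclA : ∀ (K : Subgroup G) (x y : D.obj (orb K)), cl D K (x + y) = cl D K x + cl D K y :=
      fun _ _ _ => rfl
    have hclA' : ∀ (K : Subgroup G) (x y : D'.obj (orb K)),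
        cl D' K (x + y) = cl D' K x + cl D' K y := fun _ _ _ => rfl
    have hclS : ∀ (K : Subgroup G) (c : ℚ) (x : D.obj (orb K)), cl D K (c • x) = c • cl D K x :=
      fun _ _ _ => rfl
    have hclS' : ∀ (K : Subgroup G) (c : ℚ) (x : D'.obj (orb K)),
        cl D' K (c • x) = c • cl D' K x := fun _ _ _ => rfl
    let Φ : D ⟶ D' :=
      { app := fun T =>
          { toFun := φ T
            map_add' := fun x y => by
              apply huniq
              intro K h
              rw [hφ, map_add, map_add, hclA, hclA', map_add, hφ, hφ]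
            map_smul' := fun c x => by
              apply huniq
              intro K h
              rw [hφ, map_smul, map_smul, hclS, hclS', map_smul, hφ, RingHom.id_apply] }
        res := fun {X Y} g m => by
          apply huniq
          intro K h
          show cl D' K (D'.res h (φ X (D.res g m))) = cl D' K (D'.res h (D'.res g (φ Y m)))
          rw [hφ, ← D.res_comp, ← D'.res_comp, hφ]
        tr := fun {X Y} g hg m => by
          apply huniq
          intro K h
          show cl D' K (D'.res h (φ Y (D.tr g hg m))) = cl D' K (D'.res h (D'.tr g hg (φ X m)))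
          rw [hφ]
          have h1 := (cl_eq D K _ _).mpr (hKL G O D X Y g hg m K h)
          have h2 := (cl_eq D' K _ _).mpr (hKL G O D' X Y g hg (φ X m) K h)
          rw [h1, h2]
          have h3 : cl D K (∑ k : {k : orb K →[G] X // g.comp k = h}, D.res k.1 m) =
              ∑ k : {k : orb K →[G] X // g.comp k = h}, cl D K (D.res k.1 m) :=
            map_sum (Submodule.mkQ (PT D K)) _ _
          have h4 : cl D' K (∑ k : {k : orb K →[G] X // g.comp k = h}, D'.res k.1 (φ X m)) =
              ∑ k : {k : orb K →[G] X // g.comp k = h}, cl D' K (D'.res k.1 (φ X m)) :=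
            map_sum (Submodule.mkQ (PT D' K)) _ _
          rw [h3, h4, map_sum]
          exact Finset.sum_congr rfl fun k _ => (hφ X m K k.1).symm }
    refine ⟨Φ, ?_⟩
    apply NatTrans.ext
    funext K
    obtain ⟨⟨K⟩⟩ := K
    apply ModuleCat.hom_ext
    apply LinearMap.ext
    intro x
    obtain ⟨m, rfl⟩ := Submodule.Quotient.mk_surjective _ x
    have h1 := hφ (orb K) m K (MulActionHom.id G)
    rw [D.res_id, D'.res_id] at h1
    exact h1
  · -- faithful
    apply Dress.Hom.ext
    funext T
    apply LinearMap.ext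
    intro m
    apply eta_inj hI
    intro K g
    have h1 : ∀ n : D.obj (orb K), cl D' K (φ.app (orb K) n) = cl D' K (ψ.app (orb K) n) := by
      intro n
      have h2 := congrArg (fun z => (z.app (Opposite.op (⟨K⟩ : DCat O))).hom (cl D K n)) h
      exact h2
    rw [← φ.res, ← ψ.res]
    exact h1 _

theorem t_ES (hF : S_FACT) (hPsi : S_PSI) (hS : S_ETS) (hI : S_ETI) : S_ES := by
  intro hP G _ _ O
  refine ⟨fun F => ?_⟩
  classical
  obtain ⟨D, ⟨hD⟩⟩ := hPsi G O F
  -- the evaluation kills proper transfers
  have hk : ∀ (K : Subgroup G) (x : D.obj (orb K)), x ∈ PT D K →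
      hD.ev (MulActionHom.id G : orb K →[G] orb K) x = 0 := by
    intro K x hx
    rw [PT] at hx
    refine Submodule.span_induction ?_ ?_ ?_ ?_ hx
    · rintro _ ⟨P, p, hp, m, hu, rfl⟩
      rw [hD.ev_tr]
      refine Finset.sum_eq_zero fun h _ => ?_
      exfalso
      have h1 : p (h.1 (pt K)) = pt K := DFunLike.congr_fun h.2 (pt K)
      apply hu (h.1 (pt K))
      rw [h1]
      exact stab_le_map h.1 (pt K)
    · exact map_zero _
    · intro a b _ _ ha hb
      rw [map_add, ha, hb, add_zero]
    · intro c a _ ha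
      rw [map_smul, ha, smul_zero]
  let ε : ∀ K : Subgroup G, (D.obj (orb K) ⧸ PT D K) →ₗ[ℚ] F.obj (Opposite.op ⟨K⟩) :=
    fun K => Submodule.liftQ (PT D K) (hD.ev (MulActionHom.id G : orb K →[G] orb K))
      (fun x hx => hk K x hx)
  have hε : ∀ (K : Subgroup G) (m : D.obj (orb K)),
      ε K (cl D K m) = hD.ev (MulActionHom.id G : orb K →[G] orb K) m := fun _ _ => rfl
  have hεf : ∀ (K : Subgroup G) (T : GSet G) (f : orb K →[G] T) (m : D.obj T),
      ε K (cl D K (D.res f m)) = hD.ev f m := by
    intro K T f m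
    rw [hε, hD.ev_res]
    rfl
  have hnat : ∀ (J K : Subgroup G) (σ : orb J →[G] orb K) (h : O.DenseMap σ)
      (x : D.obj (orb K) ⧸ PT D K),
      ε J (rq hP D σ h x) = (F.map (dHom O σ h).op).hom (ε K x) := by
    intro J K σ h x
    obtain ⟨m, rfl⟩ := Submodule.Quotient.mk_surjective _ x
    show ε J (cl D J (D.res σ m)) = (F.map (dHom O σ h).op).hom (ε K (cl D K m))
    rw [hεf, hε, ← hD.ev_dense σ h]
    rfl
  -- dense maps and composition
  have hdense : ∀ (J K : Subgroup G) (T : GSet G) (σ : orb J →[G] orb K) (f : orb K →[G] T),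
      O.DenseMap σ → O.DenseMap (f.comp σ) → O.DenseMap f := by
    intro J K T σ f hσ hf y
    obtain ⟨x, rfl⟩ := surj_orb σ y
    exact dense_right O (hf x) (hσ x).1 (stab_le_map f _)
  -- the section family
  have hsec : ∀ (E : DFun O) (K : Subgroup G) (v : E.obj (Opposite.op ⟨K⟩)),
      ∃ b : ∀ J : Subgroup G, (orb J →[G] orb K) → E.obj (Opposite.op ⟨J⟩),
        (∀ (J L : Subgroup G) (σ : orb J →[G] orb L) (h : O.DenseMap σ) (f : orb L →[G] orb K),
          b J (f.comp σ) = (E.map (dHom O σ h).op).hom (b L f)) ∧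
        (∀ (J : Subgroup G) (f : orb J →[G] orb K) (h : O.DenseMap f),
          b J f = (E.map (dHom O f h).op).hom v) ∧
        ∀ (J : Subgroup G) (f : orb J →[G] orb K), ¬ O.DenseMap f → b J f = 0 := by
    intro E K v
    refine ⟨fun J f => if h : O.DenseMap f then (E.map (dHom O f h).op).hom v else 0, ?_, ?_, ?_⟩
    · intro J L σ h f
      by_cases hf : O.DenseMap f
      · have hfσ : O.DenseMap (f.comp σ) := denseMap_comp O h hf
        simp only [dif_pos hf, dif_pos hfσ]
        have h1 : (dHom O (f.comp σ) hfσ).op = (dHom O f hf).op ≫ (dHom O σ h).op := rfl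
        rw [h1, CategoryTheory.Functor.map_comp]
        rfl
      · have hfσ : ¬ O.DenseMap (f.comp σ) := fun h' => hf (hdense J L _ σ f h h')
        simp only [dif_neg hf, dif_neg hfσ]
        exact (map_zero _).symm
    · intro J f h
      simp only [dif_pos h]
    · intro J f h
      simp only [dif_neg h]
  have hbij : ∀ K : Subgroup G, Function.Bijective (ε K) := by
    intro K
    constructor
    · rw [injective_iff_map_eq_zero]
      intro x hx
      obtain ⟨b, hb1, hb2, hb3⟩ := hsec ((Phi hP O).obj D) K x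
      have hb2' : ∀ (J : Subgroup G) (f : orb J →[G] orb K) (h : O.DenseMap f),
          b J f = rq hP D f h x := hb2
      have hb3' : ∀ (J : Subgroup G) (f : orb J →[G] orb K), ¬ O.DenseMap f →
          b J f = (0 : D.obj (orb J) ⧸ PT D J) := hb3
      obtain ⟨m, hm⟩ := eta_surj hP hS D (orb K) b (fun J K σ f hσ => hb1 J K σ hσ f)
      have h0 : m = 0 := by
        obtain ⟨z, _, hz⟩ := hD.ev_bij (orb K) (fun _ _ => 0) (fun J K σ h f =>
          (map_zero _).symm)
        have hm0 : m = z := by
          apply hz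
          intro J f
          rw [← hεf, hm]
          by_cases hf : O.DenseMap f
          · rw [hb2' J f hf, hnat J K f hf, hx, map_zero]
          · rw [hb3' J f hf, map_zero]
        have h00 : (0 : D.obj (orb K)) = z := by
          apply hz
          intro J f
          exact map_zero _
        rw [hm0, ← h00]
      have h1 := hm K (MulActionHom.id G)
      rw [h0, map_zero, hb2' K _ (denseMap_id O _)] at h1
      obtain ⟨y, rfl⟩ := Submodule.Quotient.mk_surjective _ x
      have h2 : rq hP D (MulActionHom.id G : orb K →[G] orb K) (denseMap_id O _) (cl D K y) =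
          cl D K y := by
        rw [rq_cl, D.res_id]
      exact (h1.trans h2).symm
    · intro v
      obtain ⟨b, hb1, hb2, hb3⟩ := hsec F K v
      obtain ⟨m, hm, _⟩ := hD.ev_bij (orb K) b hb1
      refine ⟨cl D K m, ?_⟩
      rw [hε, hm, hb2 K _ (denseMap_id O _)]
      have h2 : (dHom O (MulActionHom.id G : orb K →[G] orb K) (denseMap_id O _)).op =
          𝟙 (Opposite.op (⟨K⟩ : DCat O)) := rfl
      rw [h2, CategoryTheory.Functor.map_id]
      rfl
  refine ⟨D, ⟨NatIso.ofComponents (fun K =>
    (LinearEquiv.ofBijective (ε K.unop.sub) (hbij K.unop.sub)).toModuleIso) ?_⟩⟩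
  intro K J σ
  apply ModuleCat.hom_ext
  apply LinearMap.ext
  intro x
  exact hnat J.unop.sub K.unop.sub σ.unop.1 σ.unop.2 x

end

end Pool.Agent.Q20.MK
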