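import Mathlib
import Pool.Agent.Q20.MK.Com

/-!
# Project MK: factorisation and orthogonality
-/

set_option linter.unusedVariables false
set_option linter.unusedSectionVars false
set_option linter.style.haveILetI false

open CategoryTheory MulAction

namespace Pool.Agent.Q20.MK

section

variable {G : Type} [Group G] [Finite G]

theorem stab_pt (K : Subgroup G) : stabilizer G (pt K) = K := stabilizer_quotient K

theorem conj_inj (g : G) {K H : Subgroup G}
    (h : K.map (MulAut.conj g).toMonoidHom ≤ H.map (MulAut.conj g).toMonoidHom) : K ≤ H :=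
  (Subgroup.map_le_map_iff_of_injective (MulAut.conj g).injective).mp h

theorem map_conj_inv (g : G) (K : Subgroup G) :
    (K.map (MulAut.conj g⁻¹).toMonoidHom).map (MulAut.conj g).toMonoidHom = K := by
  rw [Subgroup.map_map]
  have h : (MulAut.conj g).toMonoidHom.comp (MulAut.conj g⁻¹).toMonoidHom = MonoidHom.id G := by
    ext x
    show g * (g⁻¹ * x * g⁻¹⁻¹) * g⁻¹ = x
    group
  rw [h, Subgroup.map_id]

theorem dense_conj (O : TransferSystem G) (g : G) {J K : Subgroup G} (h : O.Dense J K) :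
    O.Dense (J.map (MulAut.conj g).toMonoidHom) (K.map (MulAut.conj g).toMonoidHom) := by
  refine ⟨Subgroup.map_mono h.1, fun A hA hJ => ?_⟩
  have h1 := O.adm_conj g⁻¹ hA
  have h2 : (K.map (MulAut.conj g).toMonoidHom).map (MulAut.conj g⁻¹).toMonoidHom = K := by
    have := map_conj_inv g⁻¹ K
    rwa [inv_inv] at this
  rw [h2] at h1
  have h3 : J ≤ A.map (MulAut.conj g⁻¹).toMonoidHom := by
    have h4 := Subgroup.map_mono (f := (MulAut.conj g⁻¹).toMonoidHom) hJ
    have h5 := map_conj_inv g⁻¹ J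
    rw [inv_inv] at h5
    rwa [h5] at h4
  have h4 := h.2 _ h1 h3
  rw [← h4, map_conj_inv]

/-- The equivariant map `G / K → T` with a given value at the base point. -/
def homOf {T : GSet G} (K : Subgroup G) (t : T) (h : K ≤ stabilizer G t) : orb K →[G] T where
  toFun := Quotient.lift (fun g : G => g • t) (fun a b hab => by
    have h1 : a⁻¹ * b ∈ K := QuotientGroup.leftRel_apply.mp hab
    have h2 := h h1
    rw [mem_stabilizer_iff, mul_smul, inv_smul_eq_iff] at h2
    exact h2.symm)
  map_smul' g x := by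
    obtain ⟨a, rfl⟩ := QuotientGroup.mk_surjective x
    exact mul_smul g a t

theorem homOf_pt {T : GSet G} (K : Subgroup G) (t : T) (h : K ≤ stabilizer G t) :
    homOf K t h (pt K) = t := one_smul G t

theorem hom_ext {K : Subgroup G} {T : GSet G} {f g : orb K →[G] T} (h : f (pt K) = g (pt K)) :
    f = g := by
  apply MulActionHom.ext
  intro y
  obtain ⟨a, rfl⟩ := exists_smul_eq G (pt K) y
  rw [map_smul, map_smul, h]

theorem denseMap_of_pt (O : TransferSystem G) {K : Subgroup G} {T : GSet G} (f : orb K →[G] T)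
    (h : O.Dense (stabilizer G (pt K)) (stabilizer G (f (pt K)))) : O.DenseMap f := by
  intro y
  obtain ⟨a, rfl⟩ := exists_smul_eq G (pt K) y
  rw [map_smul, stabilizer_smul_eq_stabilizer_map_conj, stabilizer_smul_eq_stabilizer_map_conj]
  exact dense_conj O a h

theorem admMap_of_pt (O : TransferSystem G) {K : Subgroup G} {T : GSet G} (f : orb K →[G] T)
    (h : O.adm (stabilizer G (pt K)) (stabilizer G (f (pt K)))) : O.AdmMap f := by
  intro y
  obtain ⟨a, rfl⟩ := exists_smul_eq G (pt K) y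
  rw [map_smul, stabilizer_smul_eq_stabilizer_map_conj, stabilizer_smul_eq_stabilizer_map_conj]
  exact O.adm_conj a h

/-- The smallest admissible subgroup above `K`. -/
theorem exists_closure (O : TransferSystem G) (K H : Subgroup G) (h : K ≤ H) :
    ∃ A, K ≤ A ∧ O.adm A H ∧ O.Dense K A := by
  classical
  haveI : Fintype (Subgroup G) := Fintype.ofFinite _
  have hne : ∃ n : ℕ, ∃ A : Subgroup G, K ≤ A ∧ O.adm A H ∧ Nat.card A = n :=
    ⟨_, H, h, O.adm_refl H, rfl⟩
  obtain ⟨A, hKA, hA, hn⟩ := Nat.find_spec hne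
  refine ⟨A, hKA, hA, hKA, fun B hB hKB => ?_⟩
  have h1 : Nat.find hne ≤ Nat.card B :=
    Nat.find_min' hne ⟨B, hKB, O.adm_trans hB hA, rfl⟩
  exact Subgroup.eq_of_le_of_card_ge (O.adm_le hB) (hn ▸ h1)

theorem t_FACT : S_FACT := by
  intro G _ _ O K T f
  have hK : K ≤ stabilizer G (f (pt K)) := by
    have := stab_le_map f (pt K)
    rwa [stab_pt] at this
  obtain ⟨A, hKA, hA, hd⟩ := exists_closure O K _ hK
  have hKA' : K ≤ stabilizer G (pt A) := by rw [stab_pt]; exact hKA
  refine ⟨A, homOf K (pt A) hKA', homOf A (f (pt K)) (O.adm_le hA), ?_, ?_, ?_⟩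
  · apply denseMap_of_pt
    rw [homOf_pt, stab_pt, stab_pt]
    exact hd
  · apply admMap_of_pt
    rw [homOf_pt, stab_pt]
    exact hA
  · apply hom_ext
    show homOf A (f (pt K)) (O.adm_le hA) (homOf K (pt A) hKA' (pt K)) = f (pt K)
    rw [homOf_pt, homOf_pt]

theorem t_ORTH : S_ORTH := by
  intro G _ _ O J K S T σ g u v hσ hg hsq
  have hs : g (u (pt J)) = v (σ (pt J)) := DFunLike.congr_fun hsq (pt J)
  have h1 : stabilizer G (pt J) ≤ stabilizer G (u (pt J)) ⊓ stabilizer G (σ (pt J)) :=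
    le_inf (stab_le_map u _) (stab_le_map σ _)
  have h2 : O.adm (stabilizer G (u (pt J)) ⊓ stabilizer G (σ (pt J))) (stabilizer G (σ (pt J))) := by
    apply O.adm_restr (hg (u (pt J)))
    rw [hs]
    exact stab_le_map v _
  have h3 := (hσ (pt J)).2 _ h2 h1
  have h4 : stabilizer G (σ (pt J)) ≤ stabilizer G (u (pt J)) := inf_eq_right.mp h3
  obtain ⟨a, ha⟩ := exists_smul_eq G (σ (pt J)) (pt K)
  have h5 : K ≤ stabilizer G (a • u (pt J)) := by
    have h6 : stabilizer G (a • σ (pt J)) ≤ stabilizer G (a • u (pt J)) := by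
      rw [stabilizer_smul_eq_stabilizer_map_conj, stabilizer_smul_eq_stabilizer_map_conj]
      exact Subgroup.map_mono h4
    rw [ha, stab_pt] at h6
    exact h6
  let h := homOf K (a • u (pt J)) h5
  have hh : h (σ (pt J)) = u (pt J) := by
    have h7 : σ (pt J) = a⁻¹ • pt K := by rw [← ha, inv_smul_smul]
    rw [h7, map_smul, homOf_pt, inv_smul_smul]
  refine ⟨h, ⟨hom_ext hh, hom_ext ?_⟩, fun k hk => hom_ext ?_⟩
  · show g (h (pt K)) = v (pt K)
    rw [homOf_pt, map_smul, hs, ← map_smul, ha]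
  · have h8 : k (σ (pt J)) = u (pt J) := DFunLike.congr_fun hk.1 (pt J)
    rw [← ha, map_smul, map_smul, hh, h8]

end

end Pool.Agent.Q20.MK
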