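import Mathlib
import Pool.Agent.Q20.MK.DEV
import Pool.Agent.Q20.MK.FO

/-!
# Project MK: global dimension zero
-/

set_option linter.unusedVariables false
set_option linter.unusedSectionVars false
set_option linter.style.haveILetI false

open CategoryTheory MulAction Limits

namespace Pool.Agent.Q20.MK

section

variable {G : Type} [Group G] [Finite G]

theorem bij_of_complete {O : TransferSystem G} (hO : ∀ K H, K ≤ H → O.adm K H) {J K : Subgroup G}
    {σ : orb J →[G] orb K} (h : O.DenseMap σ) : Function.Bijective σ := by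
  refine ⟨fun x y hxy => ?_, surj_orb σ⟩
  obtain ⟨g, rfl⟩ := exists_smul_eq G x y
  have h1 := (h x).2 (stabilizer G x) (hO _ _ (stab_le_map σ x)) le_rfl
  have h2 : g ∈ stabilizer G (σ x) := by
    rw [mem_stabilizer_iff, ← map_smul, ← hxy]
  rw [← h1, mem_stabilizer_iff] at h2
  exact h2.symm

/-- Dense maps out of `G / K`. -/
abbrev Out (O : TransferSystem G) (K : Subgroup G) :=
  Σ J : Subgroup G, {σ : orb K →[G] orb J // O.DenseMap σ}

noncomputable instance fintypeOut (O : TransferSystem G) (K : Subgroup G) : Fintype (Out O K) := by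
  haveI : Finite ((J : Subgroup G) × {σ : orb K →[G] orb J // O.DenseMap σ}) := inferInstance
  exact Fintype.ofFinite _

theorem invHom_bij {X Y : GSet G} (f : X →[G] Y) (hf : Function.Bijective f) :
    Function.Bijective (invHom f hf) := (Equiv.ofBijective f hf).symm.bijective

theorem map_two {O : TransferSystem G} (E : DFun O) {J' J K : Subgroup G}
    (ρ : orb J' →[G] orb J) (hρ : O.DenseMap ρ) (σ : orb J →[G] orb K) (hσ : O.DenseMap σ)
    (τ : orb J' →[G] orb K) (hτ : O.DenseMap τ) (he : σ.comp ρ = τ)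
    (x : E.obj (Opposite.op ⟨K⟩)) :
    (E.map (dHom O ρ hρ).op).hom ((E.map (dHom O σ hσ).op).hom x) =
      (E.map (dHom O τ hτ).op).hom x := by
  subst he
  have h1 : (dHom O (σ.comp ρ) hτ).op = (dHom O σ hσ).op ≫ (dHom O ρ hρ).op := rfl
  rw [h1, CategoryTheory.Functor.map_comp]
  rfl

theorem map_one' {O : TransferSystem G} (E : DFun O) {K : Subgroup G}
    (τ : orb K →[G] orb K) (hτ : O.DenseMap τ) (he : τ = MulActionHom.id G)
    (x : E.obj (Opposite.op ⟨K⟩)) : (E.map (dHom O τ hτ).op).hom x = x := by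
  subst he
  exact congrArg (fun q => q.hom x) (CategoryTheory.Functor.map_id E (Opposite.op ⟨K⟩))

theorem t_GRP : S_GRP := by
  intro G _ _ O hO M
  classical
  refine ⟨fun {E X} g e he => ?_⟩
  have hs := surj_of_epi e
  have hlift : ∀ K : (DCat O)ᵒᵖ, ∃ s : M.obj K →ₗ[ℚ] E.obj K, (e.app K).hom ∘ₗ s = (g.app K).hom :=
    fun K => Module.projective_lifting_property _ _ (hs K)
  choose s hs' using hlift
  have hb : ∀ {J K : Subgroup G} {σ : orb J →[G] orb K}, O.DenseMap σ → Function.Bijective σ :=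
    fun h => bij_of_complete hO h
  have hi : ∀ {J K : Subgroup G} {σ : orb J →[G] orb K} (h : O.DenseMap σ),
      O.DenseMap (invHom σ (hb h)) := fun h => dense_of_inj O (invHom_bij _ _).1
  let t : ∀ K : Subgroup G, M.obj (Opposite.op ⟨K⟩) →ₗ[ℚ] E.obj (Opposite.op ⟨K⟩) := fun K =>
    ((Fintype.card (Out O K) : ℚ))⁻¹ • ∑ w : Out O K,
      (E.map (dHom O w.2.1 w.2.2).op).hom ∘ₗ (s (Opposite.op ⟨w.1⟩)) ∘ₗ
        (M.map (dHom O (invHom w.2.1 (hb w.2.2)) (hi w.2.2)).op).hom
  have ht : ∀ (K : Subgroup G) (v : M.obj (Opposite.op ⟨K⟩)), t K v =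
      ((Fintype.card (Out O K) : ℚ))⁻¹ • ∑ w : Out O K,
      (E.map (dHom O w.2.1 w.2.2).op).hom ((s (Opposite.op ⟨w.1⟩))
        ((M.map (dHom O (invHom w.2.1 (hb w.2.2)) (hi w.2.2)).op).hom v)) := by
    intro K v
    simp only [t, LinearMap.smul_apply, LinearMap.sum_apply, LinearMap.comp_apply]
  have hcard : ∀ K : Subgroup G, (Fintype.card (Out O K) : ℚ) ≠ 0 := by
    intro K
    have h4 : 0 < Fintype.card (Out O K) :=
      Fintype.card_pos_iff.mpr ⟨⟨K, ⟨MulActionHom.id G, denseMap_id O _⟩⟩⟩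
    exact_mod_cast h4.ne'
  have hnat : ∀ (K' K : Subgroup G) (ρ : orb K' →[G] orb K) (hρ : O.DenseMap ρ)
      (v : M.obj (Opposite.op ⟨K⟩)),
      t K' ((M.map (dHom O ρ hρ).op).hom v) = (E.map (dHom O ρ hρ).op).hom (t K v) := by
    intro K' K ρ hρ v
    have hbij : Function.Bijective (fun w : Out O K =>
        (⟨w.1, ⟨w.2.1.comp ρ, denseMap_comp O hρ w.2.2⟩⟩ : Out O K')) := by
      constructor
      · rintro ⟨A, σ, h1⟩ ⟨B, τ, h2⟩ h
        have hAB : A = B := congrArg Sigma.fst h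
        subst hAB
        have h5 : σ.comp ρ = τ.comp ρ := congrArg Subtype.val (eq_of_heq (Sigma.mk.inj h).2)
        have h7 : σ = τ := by
          apply MulActionHom.ext
          intro y
          obtain ⟨x, rfl⟩ := surj_orb ρ y
          exact DFunLike.congr_fun h5 x
        subst h7
        rfl
      · rintro ⟨A, σ, h1⟩
        refine ⟨⟨A, σ.comp (invHom ρ (hb hρ)), denseMap_comp O (hi hρ) h1⟩, ?_⟩
        have h2 : (σ.comp (invHom ρ (hb hρ))).comp ρ = σ := by
          rw [casc, invHom_comp, comp_one]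
        exact congrArg (Sigma.mk A) (Subtype.ext h2)
    rw [ht, ht, map_smul, map_sum, ← Fintype.card_of_bijective hbij]
    congr 1
    symm
    refine Fintype.sum_bijective _ hbij _ _ fun w => ?_
    rw [map_two E ρ hρ w.2.1 w.2.2 (w.2.1.comp ρ) (denseMap_comp O hρ w.2.2) rfl]
    congr 2
    have h3 : ρ.comp (invHom (w.2.1.comp ρ) (hb (denseMap_comp O hρ w.2.2))) =
        invHom w.2.1 (hb w.2.2) := by
      apply MulActionHom.ext
      intro y
      apply (hb w.2.2).1
      have h4 : (w.2.1.comp ρ) (invHom (w.2.1.comp ρ) (hb (denseMap_comp O hρ w.2.2)) y) = y :=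
        DFunLike.congr_fun (comp_invHom (w.2.1.comp ρ) _) y
      have h5 : w.2.1 (invHom w.2.1 (hb w.2.2) y) = y :=
        DFunLike.congr_fun (comp_invHom w.2.1 _) y
      exact h4.trans h5.symm
    exact (map_two M _ (hi (denseMap_comp O hρ w.2.2)) ρ hρ _ (hi w.2.2) h3 v).symm
  have hlast : ∀ (K : Subgroup G) (v : M.obj (Opposite.op ⟨K⟩)),
      (e.app (Opposite.op ⟨K⟩)).hom (t K v) = (g.app (Opposite.op ⟨K⟩)).hom v := by
    intro K v
    have h5 : ∀ w : Out O K, (e.app (Opposite.op ⟨K⟩)).hom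
        ((E.map (dHom O w.2.1 w.2.2).op).hom ((s (Opposite.op ⟨w.1⟩))
        ((M.map (dHom O (invHom w.2.1 (hb w.2.2)) (hi w.2.2)).op).hom v))) =
        (g.app (Opposite.op ⟨K⟩)).hom v := by
      intro w
      have h6 : ∀ x, (e.app (Opposite.op ⟨K⟩)).hom ((E.map (dHom O w.2.1 w.2.2).op).hom x) =
          (X.map (dHom O w.2.1 w.2.2).op).hom ((e.app (Opposite.op ⟨w.1⟩)).hom x) := fun x =>
        congrArg (fun q => q.hom x) (e.naturality (dHom O w.2.1 w.2.2).op)
      have h7 : ∀ x, (e.app (Opposite.op ⟨w.1⟩)).hom (s (Opposite.op ⟨w.1⟩) x) =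
          (g.app (Opposite.op ⟨w.1⟩)).hom x := fun x =>
        LinearMap.congr_fun (hs' (Opposite.op ⟨w.1⟩)) x
      have h8 : ∀ x, (g.app (Opposite.op ⟨K⟩)).hom ((M.map (dHom O w.2.1 w.2.2).op).hom x) =
          (X.map (dHom O w.2.1 w.2.2).op).hom ((g.app (Opposite.op ⟨w.1⟩)).hom x) := fun x =>
        congrArg (fun q => q.hom x) (g.naturality (dHom O w.2.1 w.2.2).op)
      rw [h6, h7, ← h8, map_two M w.2.1 w.2.2 _ (hi w.2.2) (MulActionHom.id G) (denseMap_id O _)
        (invHom_comp _ _), map_one' M _ _ rfl]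
    rw [ht, map_smul, map_sum, Finset.sum_congr rfl fun w _ => h5 w, Finset.sum_const,
      Finset.card_univ, ← Nat.cast_smul_eq_nsmul ℚ, smul_smul, inv_mul_cancel₀ (hcard K), one_smul]
  refine ⟨{ app := fun K => ModuleCat.ofHom (t K.unop.sub), naturality := ?_ }, ?_⟩
  · intro K J σ
    apply ModuleCat.hom_ext
    apply LinearMap.ext
    intro v
    exact hnat J.unop.sub K.unop.sub σ.unop.1 σ.unop.2 v
  · apply NatTrans.ext
    funext K
    apply ModuleCat.hom_ext
    apply LinearMap.ext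
    intro v
    exact hlast K.unop.sub v

theorem eq_of_dense {O : TransferSystem G} (hP : ∀ M : DFun O, Projective M) {J K : Subgroup G}
    (hJK : O.Dense J K) : J = K := by
  by_contra hne
  have hlt : Nat.card J ≠ Nat.card K := fun h => hne (Subgroup.eq_of_le_of_card_ge hJK.1 h.ge)
  let V : DCat O → Type := fun L => PLift (L.sub = K)
  let P : DFun O := freeF (DCat O) V
  have hM : ∀ L : Subgroup G, Nat.card K < Nat.card L → ∀ v : P.obj (Opposite.op ⟨L⟩), v = 0 := by
    intro L hL v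
    apply Finsupp.ext
    rintro ⟨A, ⟨hA⟩, f⟩
    exfalso
    have h1 := card_le_of_hom f.1
    have h2 : A.sub = K := hA
    rw [h2] at h1
    exact absurd h1 (not_le.mpr hL)
  have h : ∀ K H, O.adm K H → O.adm K H := fun _ _ x => x
  let π := levMap h P (Nat.card K) hM
  have hsurj : ∀ L, Function.Surjective (π.app L).hom := by
    intro L φ
    by_cases hL : Nat.card L.unop.sub = Nat.card K
    · refine ⟨φ ⟨hL⟩, ?_⟩
      funext hL'
      rfl
    · refine ⟨0, ?_⟩
      funext hL'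
      exact absurd hL'.down hL
  haveI : Epi π := epi_of_surj π hsurj
  haveI := hP ((resFun h).obj (lev O P (Nat.card K)))
  let s := Projective.factorThru (𝟙 ((resFun h).obj (lev O P (Nat.card K)))) π
  have hs : s ≫ π = 𝟙 _ := Projective.factorThru_comp _ _
  let u : P.obj (Opposite.op ⟨K⟩) :=
    Finsupp.single (⟨⟨K⟩, ⟨rfl⟩, 𝟙 _⟩ : Σ L : DCat O, V L × ((⟨K⟩ : DCat O) ⟶ L)) (1 : ℚ)
  have hw : (s.app (Opposite.op ⟨K⟩)).hom ((π.app (Opposite.op ⟨K⟩)).hom u) = u := by
    have h1 := congrArg (fun q => (q.app (Opposite.op (⟨K⟩ : DCat O))).hom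
      ((π.app (Opposite.op ⟨K⟩)).hom u)) hs
    have h2 : (π.app (Opposite.op ⟨K⟩)).hom
        ((s.app (Opposite.op ⟨K⟩)).hom ((π.app (Opposite.op ⟨K⟩)).hom u)) =
        (π.app (Opposite.op ⟨K⟩)).hom u := h1
    exact congrFun h2 (⟨rfl⟩ : PLift (Nat.card K = Nat.card K))
  have hJs : J ≤ stabilizer G (pt K) := by rw [stab_pt]; exact hJK.1
  let σ : orb J →[G] orb K := homOf J (pt K) hJs
  have hσ : O.DenseMap σ := by
    apply denseMap_of_pt
    rw [homOf_pt, stab_pt, stab_pt]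
    exact hJK
  have h3 : (P.map (dHom O σ hσ).op).hom u = 0 := by
    have h4 := congrArg (fun q => q.hom ((π.app (Opposite.op ⟨K⟩)).hom u))
      (s.naturality (dHom O σ hσ).op)
    have h5 : (s.app (Opposite.op ⟨J⟩)).hom
        ((((resFun h).obj (lev O P (Nat.card K))).map (dHom O σ hσ).op).hom
          ((π.app (Opposite.op ⟨K⟩)).hom u)) =
        (P.map (dHom O σ hσ).op).hom
          ((s.app (Opposite.op ⟨K⟩)).hom ((π.app (Opposite.op ⟨K⟩)).hom u)) := h4
    rw [hw] at h5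
    rw [← h5]
    have h6 : ((((resFun h).obj (lev O P (Nat.card K))).map (dHom O σ hσ).op).hom
          ((π.app (Opposite.op ⟨K⟩)).hom u)) = 0 := by
      funext hJ
      exact absurd hJ.down hlt
    rw [h6, map_zero]
  have h4 : (P.map (dHom O σ hσ).op).hom u =
      Finsupp.single (⟨⟨K⟩, ⟨rfl⟩, dHom O σ hσ ≫ 𝟙 _⟩ :
        Σ L : DCat O, V L × ((⟨J⟩ : DCat O) ⟶ L)) (1 : ℚ) := by
    show Finsupp.lmapDomain ℚ ℚ _ (Finsupp.single _ (1 : ℚ)) = _
    rw [Finsupp.lmapDomain_apply, Finsupp.mapDomain_single]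
    rfl
  rw [h4] at h3
  exact one_ne_zero (Finsupp.single_eq_zero.mp h3)

theorem t_NGR : S_NGR := by
  intro G _ _ O hP K H hKH
  obtain ⟨A, hKA, hA, hd⟩ := exists_closure O K H hKH
  rw [eq_of_dense hP hd]
  exact hA

end

end Pool.Agent.Q20.MK
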