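import Mathlib
import Pool.Agent.Q20.MK.Defs

/-!
# Global dimension of an abelian category; the category of rational Mackey functors
-/

open CategoryTheory

namespace Pool.Agent.Q20.MK

/-- The global dimension of an abelian category: the supremum of the projective dimensions of its
objects (the projective dimension of a zero object is `⊥`, of a nonzero projective object `0`). -/
noncomputable def gldim (C : Type*) [Category C] [Abelian C] : WithBot ℕ∞ :=
  ⨆ X : C, projectiveDimension X

/-- The category of rational `O`-Mackey functors: the full subcategory of the category of functors
from the rational `O`-Burnside category to `ℚ`-vector spaces whose objects are the `ℚ`-linear
functors which are additive on disjoint unions. -/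
def RatMackey {G : Type} [Group G] (O : TransferSystem G) : Type 1 := Mack O

noncomputable instance {G : Type} [Group G] (O : TransferSystem G) : Category (RatMackey O) :=
  inferInstanceAs (Category (Mack O))

end Pool.Agent.Q20.MK
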