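import Mathlib
import Pool.Agent.Q20.MK.Com

/-!
# Project MK: detection on orbits, decomposition, key lemma, dense restrictions
-/

set_option linter.unusedVariables false
set_option linter.unusedSectionVars false
set_option linter.style.haveILetI false

open CategoryTheory MulAction

namespace Pool.Agent.Q20.MK

section

variable {G : Type} [Group G] [Finite G]

/-- The sub-`G`-set of a finite `G`-set. -/
def sub (T : GSet G) (p : T → Prop) (hp : ∀ (g : G) (t : T), p t → p (g • t)) : GSet G where
  carrier := {t : T // p t}
  act :=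
    { smul := fun g t => ⟨g • t.1, hp g t.1 t.2⟩
      one_smul := fun t => Subtype.ext (one_smul G t.1)
      mul_smul := fun a b t => Subtype.ext (mul_smul a b t.1) }
  fin := inferInstance

/-- The inclusion. -/
def subInc (T : GSet G) (p : T → Prop) (hp : ∀ (g : G) (t : T), p t → p (g • t)) :
    sub T p hp →[G] T where
  toFun t := t.1
  map_smul' _ _ := rfl

/-- The orbit map of a point with a subgroup of the stabiliser. -/
def orbMap' {X : GSet G} (x : X) : orb (stabilizer G x) →[G] X where
  toFun := ofQuotientStabilizer G x
  map_smul' g y := ofQuotientStabilizer_smul G x g y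

theorem orbMap'_inj {X : GSet G} (x : X) : Function.Injective (orbMap' x) :=
  injective_ofQuotientStabilizer G x

theorem zero_of_empty {O : TransferSystem G} (D : Dress O) (T : GSet G) [hT : IsEmpty T]
    (m : D.obj T) : m = 0 := by
  have h := D.additive (MulActionHom.id G : T →[G] T) (MulActionHom.id G : T →[G] T)
    ⟨Function.injective_id, Function.injective_id, by
      have h1 : ∀ s : Set T, s = Set.univ := fun s => Set.eq_univ_of_forall fun x => hT.elim x
      refine isCompl_iff.mpr ⟨?_, ?_⟩
      · rw [Set.disjoint_iff]
        exact fun x _ => hT.elim x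
      · rw [codisjoint_iff]
        exact h1 _⟩
  obtain ⟨n, hn⟩ := h.2 (m, 0)
  have h1 := congrArg Prod.fst hn
  have h2 := congrArg Prod.snd hn
  simp only [D.res_id] at h1 h2
  rw [← h1, h2]

theorem t_JI : S_JI := by
  intro G _ _ O D
  have key : ∀ (n : ℕ) (T : GSet G) (m : D.obj T), Nat.card T ≤ n →
      (∀ (K : Subgroup G) (f : orb K →[G] T), D.res f m = 0) → m = 0 := by
    intro n
    induction n with
    | zero =>
      intro T m hn _
      have h1 : Nat.card T = 0 := by omega
      rw [Nat.card_eq_zero] at h1
      rcases h1 with h1 | h1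
      · exact zero_of_empty D T m
      · exact absurd T.fin h1.not_finite
    | succ n ih =>
      intro T m hn hm
      by_cases hT : IsEmpty T
      · exact zero_of_empty D T m
      · rw [not_isEmpty_iff] at hT
        obtain ⟨t⟩ := hT
        let p : T → Prop := fun x => x ∉ orbit G t
        have hp : ∀ (g : G) (x : T), p x → p (g • x) := by
          intro g x hx h
          apply hx
          have h1 : g • x ∈ orbit G x := mem_orbit x g
          rw [← orbit_eq_iff] at h h1 ⊢
          rw [← h, h1]
        have hd := D.additive (orbMap' t) (subInc T p hp) ⟨orbMap'_inj t,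
          fun a b h => Subtype.ext h, by
            have hr : Set.range (orbMap' t) = orbit G t := by
              ext y
              constructor
              · rintro ⟨z, rfl⟩
                obtain ⟨g, rfl⟩ := QuotientGroup.mk_surjective z
                exact ⟨g, (ofQuotientStabilizer_mk G t g).symm⟩
              · rintro ⟨g, rfl⟩
                exact ⟨((g : G) : G ⧸ stabilizer G t), ofQuotientStabilizer_mk G t g⟩
            have hr2 : Set.range (subInc T p hp) = (orbit G t)ᶜ := by
              ext y
              constructor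
              · rintro ⟨z, rfl⟩
                exact z.2
              · intro hy
                exact ⟨⟨y, hy⟩, rfl⟩
            rw [hr, hr2]
            exact isCompl_compl⟩
        apply hd.1
        have h0 : D.res (subInc T p hp) m = 0 := by
          apply ih
          · have h1 : Nat.card {x : T // p x} < Nat.card T :=
              Finite.card_subtype_lt (x := t) (fun h => h (mem_orbit_self t))
            have h2 : Nat.card (sub T p hp) < Nat.card T := h1
            omega
          · intro K f
            rw [← D.res_comp]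
            exact hm K _
        show (D.res (orbMap' t) m, D.res (subInc T p hp) m) =
          (D.res (orbMap' t) 0, D.res (subInc T p hp) 0)
        rw [h0, hm _ (orbMap' t), map_zero, map_zero]
  exact fun T m => key (Nat.card T) T m le_rfl

theorem t_DEC (hJ : S_JI) : S_DEC := by
  intro G _ _ O D T ι _ X i hi hd hc ha m
  classical
  rw [← sub_eq_zero]
  apply hJ G O D T
  intro K f
  rw [map_sub, map_sum, sub_eq_zero]
  obtain ⟨a₀, x₀, hx₀⟩ := hc (f (pt K))
  have hf : ∀ y : orb K, ∃ x, i a₀ x = f y := by
    intro y
    obtain ⟨g, rfl⟩ := exists_smul_eq G (pt K) y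
    exact ⟨g • x₀, by rw [map_smul, map_smul, hx₀]⟩
  choose φ hφ using hf
  let f' : orb K →[G] X a₀ :=
    { toFun := φ
      map_smul' := fun g y => by
        apply hi a₀
        show i a₀ (φ (g • y)) = i a₀ (g • φ y)
        rw [hφ, map_smul, map_smul, hφ] }
  have hf' : (i a₀).comp f' = f := MulActionHom.ext hφ
  rw [Finset.sum_eq_single a₀]
  · have h1 : D.res (i a₀) (D.tr (i a₀) (ha a₀) (D.res (i a₀) m)) = D.res (i a₀) m := by
      rw [D.base_change (MulActionHom.id G : X a₀ →[G] X a₀) (MulActionHom.id G : X a₀ →[G] X a₀)
        (i a₀) (i a₀) (admMap_id O (X a₀)) (ha a₀)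
        ⟨fun _ => rfl, fun a b hab => ⟨a, ⟨rfl, hi a₀ hab⟩, fun c hc => hc.1⟩⟩, D.res_id, D.tr_id]
    rw [← hf', D.res_comp, h1, D.res_comp]
  · intro a _ hne
    let E : GSet G := sub (orb K) (fun _ => False) (fun _ _ h => h)
    haveI hE : IsEmpty E := ⟨fun x => x.2⟩
    let p : E →[G] orb K := subInc _ _ _
    let q : E →[G] X a :=
      { toFun := fun x => hE.elim x
        map_smul' := fun g x => hE.elim x }
    rw [D.base_change p q f (i a) (fun x => hE.elim x) (ha a) ⟨fun x => hE.elim x,
      fun y x hyx => by
        exfalso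
        apply hne
        have h1 : i a x = i a₀ (φ y) := by rw [← hyx, hφ]
        exact hd a a₀ x (φ y) h1⟩]
    rw [zero_of_empty D E (D.res q (D.res (i a) m)), map_zero]
  · intro h
    exact absurd (Finset.mem_univ a₀) h

theorem t_PTD : S_PTD := by
  intro G _ _ O D J K σ hσ m hm
  rw [PT] at hm
  refine Submodule.span_induction ?_ ?_ ?_ ?_ hm
  · rintro _ ⟨P, p, hp, n, hu, rfl⟩
    rw [D.base_change (pb1 σ p) (pb2 σ p) σ p (admMap_pb1 O σ hp) hp
      ⟨fun u => u.2, fun x y h => ⟨⟨(x, y), h⟩, ⟨rfl, rfl⟩, fun z hz =>
        Subtype.ext (Prod.ext hz.1 hz.2)⟩⟩]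
    refine Submodule.subset_span ⟨pb σ p, pb1 σ p, admMap_pb1 O σ hp, D.res (pb2 σ p) n, ?_, rfl⟩
    intro z hz
    rw [stab_pb] at hz
    have h1 : stabilizer G (pb1 σ p z) ≤ stabilizer G (pb2 σ p z) := hz.trans inf_le_right
    have h2 : p (pb2 σ p z) = σ (pb1 σ p z) := z.2.symm
    have h3 := hp (pb2 σ p z)
    rw [h2] at h3
    have h4 := (hσ (pb1 σ p z)).2 _ h3 h1
    apply hu (pb2 σ p z)
    rw [h2, h4]
  · rw [map_zero]
    exact Submodule.zero_mem _
  · intro a b _ _ ha hb
    rw [map_add]
    exact Submodule.add_mem _ ha hb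
  · intro c a _ ha
    rw [map_smul]
    exact Submodule.smul_mem _ _ ha

end

end Pool.Agent.Q20.MK
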