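import Mathlib
import Pool.Agent.Q20.MK.JD

/-!
# Project MK: restriction of a transfer modulo proper transfers
-/

set_option linter.unusedVariables false
set_option linter.unusedSectionVars false
set_option linter.style.haveILetI false

open CategoryTheory MulAction

namespace Pool.Agent.Q20.MK

section

variable {G : Type} [Group G] [Finite G]

/-- Sections of `p`. -/
abbrev Sec {K : Subgroup G} {P : GSet G} (p : P →[G] orb K) :=
  {s : orb K →[G] P // p.comp s = MulActionHom.id G}

theorem notle_smul {K : Subgroup G} {P : GSet G} (p : P →[G] orb K) (g : G) (u : P)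
    (h : ¬ stabilizer G (p u) ≤ stabilizer G u) :
    ¬ stabilizer G (p (g • u)) ≤ stabilizer G (g • u) := by
  intro h1
  apply h
  rw [map_smul, stabilizer_smul_eq_stabilizer_map_conj, stabilizer_smul_eq_stabilizer_map_conj] at h1
  exact (Subgroup.map_le_map_iff_of_injective (MulAut.conj g).injective).mp h1

/-- The part of `P` without sections. -/
def nonSec {K : Subgroup G} {P : GSet G} (p : P →[G] orb K) : GSet G :=
  sub P (fun u => ¬ stabilizer G (p u) ≤ stabilizer G u) (fun g u h => notle_smul p g u h)

/-- The pieces of `P`. -/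
def piece {K : Subgroup G} {P : GSet G} (p : P →[G] orb K) : Option (Sec p) → GSet G
  | none => nonSec p
  | some _ => orb K

/-- The inclusions of the pieces. -/
def pieceMap {K : Subgroup G} {P : GSet G} (p : P →[G] orb K) :
    ∀ a : Option (Sec p), piece p a →[G] P
  | none => subInc P (fun u => ¬ stabilizer G (p u) ≤ stabilizer G u)
      (fun g u h => notle_smul p g u h)
  | some s => s.1

theorem sec_apply {K : Subgroup G} {P : GSet G} {p : P →[G] orb K} (s : Sec p) (y : orb K) :
    p (s.1 y) = y := DFunLike.congr_fun s.2 y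

theorem sec_inj {K : Subgroup G} {P : GSet G} {p : P →[G] orb K} (s : Sec p) :
    Function.Injective s.1 := fun x y h => by
  rw [← sec_apply s x, ← sec_apply s y, h]

/-- Through a point with `Stab(p u) ≤ Stab(u)` there is a section. -/
theorem exists_sec {K : Subgroup G} {P : GSet G} (p : P →[G] orb K) (u : P)
    (h : stabilizer G (p u) ≤ stabilizer G u) : ∃ (s : Sec p) (y : orb K), s.1 y = u := by
  have hex : ∀ y : orb K, ∃ g : G, g • p u = y := fun y => exists_smul_eq G (p u) y
  choose γ hγ using hex
  have hwd : ∀ (g : G) (y : orb K), g • p u = y → g • u = γ y • u := by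
    intro g y hg
    have h1 : (γ y)⁻¹ * g ∈ stabilizer G (p u) := by
      rw [mem_stabilizer_iff, mul_smul, hg, inv_smul_eq_iff, hγ]
    have h2 := h h1
    rw [mem_stabilizer_iff, mul_smul, inv_smul_eq_iff] at h2
    exact h2
  refine ⟨⟨⟨fun y => γ y • u, fun g y => ?_⟩, MulActionHom.ext fun y => ?_⟩, p u, ?_⟩
  · have h1 : (g * γ y) • p u = g • y := by rw [mul_smul, hγ]
    have h2 := hwd (g * γ y) (g • y) h1
    show γ (g • y) • u = g • γ y • u
    rw [← h2, mul_smul]
  · show p (γ y • u) = y
    rw [map_smul, hγ]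
  · show γ (p u) • u = u
    have h1 := hwd 1 (p u) (one_smul G _)
    rw [← h1, one_smul]

theorem sec_eq {K : Subgroup G} {P : GSet G} {p : P →[G] orb K} (s t : Sec p) (x y : orb K)
    (h : s.1 x = t.1 y) : s = t := by
  have hxy : x = y := by rw [← sec_apply s x, ← sec_apply t y, h]
  subst hxy
  apply Subtype.ext
  apply MulActionHom.ext
  intro z
  obtain ⟨g, rfl⟩ := exists_smul_eq G x z
  rw [map_smul, map_smul, h]

theorem tr_sec (hD : S_DEC) {O : TransferSystem G} (D : Dress O) {K : Subgroup G} {P : GSet G}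
    (p : P →[G] orb K) (hp : O.AdmMap p) (n : D.obj P) :
    D.tr p hp n - ∑ s : Sec p, D.res s.1 n ∈ PT D K := by
  classical
  have hi : ∀ a : Option (Sec p), Function.Injective (pieceMap p a) := by
    rintro (_ | s)
    · exact fun a b h => Subtype.ext h
    · exact sec_inj s
  have hle : ∀ (s : Sec p) (y : orb K), stabilizer G (p (s.1 y)) ≤ stabilizer G (s.1 y) := by
    intro s y
    rw [sec_apply]
    exact stab_le_map s.1 y
  have hd := hD G O D P (Option (Sec p)) (piece p) (pieceMap p) hi
    (by
      rintro (_ | s) (_ | t) x y hxy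
      · rfl
      · exfalso
        have h1 : (x : nonSec p).1 = t.1 y := hxy
        apply x.2
        rw [h1]
        exact hle t y
      · exfalso
        have h1 : s.1 x = (y : nonSec p).1 := hxy
        apply y.2
        rw [← h1]
        exact hle s x
      · exact congrArg some (sec_eq s t x y hxy))
    (by
      intro u
      by_cases h : stabilizer G (p u) ≤ stabilizer G u
      · obtain ⟨s, y, hs⟩ := exists_sec p u h
        exact ⟨some s, y, hs⟩
      · exact ⟨none, ⟨u, h⟩, rfl⟩)
    (fun a => adm_of_inj O (hi a)) n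
  have h1 : D.tr p hp n = ∑ a : Option (Sec p),
      D.tr p hp (D.tr (pieceMap p a) (adm_of_inj O (hi a)) (D.res (pieceMap p a) n)) := by
    rw [← map_sum, hd]
  rw [h1, Fintype.sum_option]
  have h2 : ∀ s : Sec p, D.tr p hp (D.tr (pieceMap p (some s)) (adm_of_inj O (hi (some s)))
      (D.res (pieceMap p (some s)) n)) = D.res s.1 n := by
    intro s
    have ha : O.AdmMap (p.comp s.1) := admMap_comp O (adm_of_inj O (sec_inj s)) hp
    have he := D.tr_comp s.1 p (adm_of_inj O (sec_inj s)) hp ha (D.res s.1 n)
    have h3 : ∀ (f : orb K →[G] orb K) (hf : O.AdmMap f) (_ : f = MulActionHom.id G)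
        (x : D.obj (orb K)), D.tr f hf x = x := by
      intro f hf he x
      subst he
      exact D.tr_id _ _ _
    exact he.symm.trans (h3 _ ha s.2 _)
  rw [Finset.sum_congr rfl fun s _ => h2 s, add_sub_cancel_right]
  refine Submodule.subset_span ⟨nonSec p, p.comp (pieceMap p none),
    admMap_comp O (adm_of_inj O (hi none)) hp, D.res (pieceMap p none) n, ?_, ?_⟩
  · intro u h
    apply u.2
    have h3 : stabilizer G u = stabilizer G (pieceMap p none u) :=
      (stab_of_inj (hi none) u).symm
    rw [h3] at h
    exact h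
  · exact D.tr_comp _ _ _ _ _ _

/-- Sections of the pullback are lifts. -/
noncomputable def secEquiv {S T : GSet G} (g : S →[G] T) {K : Subgroup G} (f : orb K →[G] T) :
    Sec (pb1 f g) ≃ {h : orb K →[G] S // g.comp h = f} where
  toFun s := ⟨(pb2 f g).comp s.1, by
    apply MulActionHom.ext
    intro y
    have h1 : f (pb1 f g (s.1 y)) = g (pb2 f g (s.1 y)) := (s.1 y).2
    rw [sec_apply s y] at h1
    exact h1.symm⟩
  invFun h := ⟨⟨fun y => ⟨(y, h.1 y), (DFunLike.congr_fun h.2 y).symm⟩, fun a y => by
      apply Subtype.ext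
      exact Prod.ext rfl (map_smul h.1 a y)⟩, MulActionHom.ext fun y => rfl⟩
  left_inv s := by
    apply Subtype.ext
    apply MulActionHom.ext
    intro y
    apply Subtype.ext
    exact Prod.ext (sec_apply s y).symm rfl
  right_inv h := by
    apply Subtype.ext
    apply MulActionHom.ext
    intro y
    rfl

theorem t_KL (hJ : S_JI) (hD : S_DEC) : S_KL := by
  intro G _ _ O D S T g hg m K f
  rw [D.base_change (pb1 f g) (pb2 f g) f g (admMap_pb1 O f hg) hg
      ⟨fun u => u.2, fun x y h => ⟨⟨(x, y), h⟩, ⟨rfl, rfl⟩, fun z hz =>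
        Subtype.ext (Prod.ext hz.1 hz.2)⟩⟩]
  have h := tr_sec hD D (pb1 f g) (admMap_pb1 O f hg) (D.res (pb2 f g) m)
  have h2 : ∑ s : Sec (pb1 f g), D.res s.1 (D.res (pb2 f g) m) =
      ∑ h : {h : orb K →[G] S // g.comp h = f}, D.res h.1 m := by
    refine Fintype.sum_equiv (secEquiv g f) _ _ fun s => ?_
    rw [← D.res_comp]
    rfl
  rw [h2] at h
  exact h

end

end Pool.Agent.Q20.MK
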