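import Mathlib
import Pool.Agent.Q20.MK.FO

/-!
# Project MK: the Dress pair of a presheaf
-/

set_option linter.unusedVariables false
set_option linter.unusedSectionVars false
set_option linter.style.haveILetI false

open CategoryTheory MulAction

namespace Pool.Agent.Q20.MK

section

variable {G : Type} [Group G] [Finite G]

/-- All families. -/
abbrev AllFam {O : TransferSystem G} (F : DFun O) (T : GSet G) :=
  ∀ K : Subgroup G, (orb K →[G] T) → F.obj (Opposite.op (⟨K⟩ : DCat O))

/-- The compatible families. -/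
def Fam {O : TransferSystem G} (F : DFun O) (T : GSet G) : Submodule ℚ (AllFam F T) where
  carrier := {a | ∀ (J K : Subgroup G) (σ : orb J →[G] orb K) (h : O.DenseMap σ)
    (f : orb K →[G] T), a J (f.comp σ) = (F.map (dHom O σ h).op).hom (a K f)}
  add_mem' {a b} ha hb J K σ h f := by
    show a J (f.comp σ) + b J (f.comp σ) = _
    rw [ha J K σ h f, hb J K σ h f, ← map_add]
    rfl
  zero_mem' J K σ h f := by
    show (0 : F.obj (Opposite.op (⟨J⟩ : DCat O))) = _
    exact (map_zero ((F.map (dHom O σ h).op).hom)).symm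
  smul_mem' c a ha J K σ h f := by
    show c • a J (f.comp σ) = _
    rw [ha J K σ h f, ← map_smul]
    rfl

/-- Restriction of families. -/
def famRes {O : TransferSystem G} (F : DFun O) {X Y : GSet G} (g : X →[G] Y) :
    Fam F Y →ₗ[ℚ] Fam F X where
  toFun a := ⟨fun K f => a.1 K (g.comp f), fun J K σ h f => by
    show a.1 J (g.comp (f.comp σ)) = _
    rw [← casc]
    exact a.2 J K σ h (g.comp f)⟩
  map_add' a b := rfl
  map_smul' c a := rfl

/-- Transfer of families. -/
noncomputable def famTr {O : TransferSystem G} (F : DFun O) {X Y : GSet G} (g : X →[G] Y)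
    (hg : O.AdmMap g) : Fam F X →ₗ[ℚ] Fam F Y where
  toFun a := ⟨fun K f => ∑ h : {h : orb K →[G] X // g.comp h = f}, a.1 K h.1,
    fun J K σ hσ f => by
      rw [map_sum]
      symm
      let e : {h : orb K →[G] X // g.comp h = f} → {h : orb J →[G] X // g.comp h = f.comp σ} :=
        fun h => ⟨h.1.comp σ, by rw [← casc, h.2]⟩
      refine Fintype.sum_bijective e ⟨?_, ?_⟩ _ _ fun h => ?_
      · intro h k hhk
        apply Subtype.ext
        apply MulActionHom.ext
        intro y
        obtain ⟨x, rfl⟩ := surj_orb σ y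
        exact DFunLike.congr_fun (congrArg Subtype.val hhk) x
      · rintro ⟨k, hk⟩
        obtain ⟨h, ⟨h1, h2⟩, _⟩ := t_ORTH G O J K X Y σ g k f hσ hg hk
        exact ⟨⟨h, h2⟩, Subtype.ext h1⟩
      · exact (a.2 J K σ hσ h.1).symm⟩
  map_add' a b := by
    apply Subtype.ext
    funext K f
    show ∑ h : {h : orb K →[G] X // g.comp h = f}, (a.1 K h.1 + b.1 K h.1) = _
    rw [Finset.sum_add_distrib]
    rfl
  map_smul' c a := by
    apply Subtype.ext
    funext K f
    show ∑ h : {h : orb K →[G] X // g.comp h = f}, (c • a.1 K h.1) = _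
    rw [← Finset.smul_sum]
    rfl

theorem factor_of_pt {X T : GSet G} {i : X →[G] T} (hi : Function.Injective i) {K : Subgroup G}
    (f : orb K →[G] T) (h : f (pt K) ∈ Set.range i) : ∃ f' : orb K →[G] X, i.comp f' = f := by
  obtain ⟨x, hx⟩ := h
  have h1 : K ≤ stabilizer G x := by
    have h2 := stab_le_map f (pt K)
    rw [stab_pt, ← hx, stab_of_inj hi] at h2
    exact h2
  refine ⟨homOf K x h1, hom_ext ?_⟩
  show i (homOf K x h1 (pt K)) = f (pt K)
  rw [homOf_pt, hx]

theorem fam_additive {O : TransferSystem G} (F : DFun O) {X Y T : GSet G} (i : X →[G] T)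
    (j : Y →[G] T) (hij : IsDisj i j) :
    Function.Bijective (fun m : Fam F T => (famRes F i m, famRes F j m)) := by
  classical
  obtain ⟨hi, hj, hc⟩ := hij
  have hex : ∀ (K : Subgroup G) (f : orb K →[G] T),
      (∃ f', i.comp f' = f) ∨ (∃ f', j.comp f' = f) := by
    intro K f
    have h1 : f (pt K) ∈ Set.range i ∪ Set.range j := by
      have h2 := hc.codisjoint
      rw [codisjoint_iff] at h2
      have h3 : Set.range i ∪ Set.range j = Set.univ := h2
      rw [h3]
      exact Set.mem_univ _
    rcases h1 with h1 | h1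
    · exact Or.inl (factor_of_pt hi f h1)
    · exact Or.inr (factor_of_pt hj f h1)
  have hno : ∀ (J : Subgroup G) (f : orb J →[G] X) (f' : orb J →[G] Y),
      i.comp f ≠ j.comp f' := by
    intro J f f' h
    have h1 := DFunLike.congr_fun h (pt J)
    have h2 := Set.disjoint_iff.mp hc.disjoint
    exact h2 ⟨⟨f (pt J), rfl⟩, ⟨f' (pt J), h1.symm⟩⟩
  have hci : ∀ (K : Subgroup G) (f f' : orb K →[G] X), i.comp f = i.comp f' → f = f' := by
    intro K f f' h
    apply MulActionHom.ext
    intro y
    exact hi (DFunLike.congr_fun h y)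
  have hcj : ∀ (K : Subgroup G) (f f' : orb K →[G] Y), j.comp f = j.comp f' → f = f' := by
    intro K f f' h
    apply MulActionHom.ext
    intro y
    exact hj (DFunLike.congr_fun h y)
  constructor
  · intro m n hmn
    have h1 := congrArg Prod.fst hmn
    have h2 := congrArg Prod.snd hmn
    apply Subtype.ext
    funext K f
    rcases hex K f with ⟨f', rfl⟩ | ⟨f', rfl⟩
    · exact congrFun (congrFun (congrArg Subtype.val h1) K) f'
    · exact congrFun (congrFun (congrArg Subtype.val h2) K) f'
  · rintro ⟨a, b⟩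
    let c : AllFam F T := fun K f =>
      if h : ∃ f', i.comp f' = f then a.1 K h.choose
      else if h' : ∃ f', j.comp f' = f then b.1 K h'.choose else 0
    have c1 : ∀ (K : Subgroup G) (f : orb K →[G] X), c K (i.comp f) = a.1 K f := by
      intro K f
      have h : ∃ f', i.comp f' = i.comp f := ⟨f, rfl⟩
      show (if h : ∃ f', i.comp f' = i.comp f then a.1 K h.choose else _) = _
      rw [dif_pos h, hci K _ _ h.choose_spec]
    have c2 : ∀ (K : Subgroup G) (f : orb K →[G] Y), c K (j.comp f) = b.1 K f := by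
      intro K f
      have h : ¬ ∃ f', i.comp f' = j.comp f := fun ⟨f', hf'⟩ => hno K f' f hf'
      have h' : ∃ f', j.comp f' = j.comp f := ⟨f, rfl⟩
      show (if h : ∃ f', i.comp f' = j.comp f then a.1 K h.choose else
        if h' : ∃ f', j.comp f' = j.comp f then b.1 K h'.choose else 0) = _
      rw [dif_neg h, dif_pos h', hcj K _ _ h'.choose_spec]
    have hcm : c ∈ Fam F T := by
      intro J K σ h f
      rcases hex K f with ⟨f', rfl⟩ | ⟨f', rfl⟩
      · rw [casc, c1, c1]
        exact a.2 J K σ h f'
      · rw [casc, c2, c2]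
        exact b.2 J K σ h f'
    refine ⟨⟨c, hcm⟩, Prod.ext ?_ ?_⟩
    · apply Subtype.ext
      funext K f
      exact c1 K f
    · apply Subtype.ext
      funext K f
      exact c2 K f

/-- The Dress pair of a presheaf. -/
noncomputable def Psi {O : TransferSystem G} (F : DFun O) : Dress O where
  obj T := ModuleCat.of ℚ (Fam F T)
  res g := famRes F g
  tr g hg := famTr F g hg
  res_id X m := rfl
  res_comp f g m := rfl
  tr_id X h m := by
    apply Subtype.ext
    funext K f
    show ∑ k : {k : orb K →[G] X // (MulActionHom.id G : X →[G] X).comp k = f}, m.1 K k.1 = _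
    have h1 : ∀ k : {k : orb K →[G] X // (MulActionHom.id G : X →[G] X).comp k = f}, k.1 = f :=
      fun k => k.2
    rw [Fintype.sum_eq_single (⟨f, rfl⟩ : {k : orb K →[G] X //
      (MulActionHom.id G : X →[G] X).comp k = f}) (fun k hk => absurd (Subtype.ext (h1 k)) hk)]
  tr_comp {X Y Z} f g hf hg hgf m := by
    apply Subtype.ext
    funext K l
    show ∑ k : {k : orb K →[G] X // (g.comp f).comp k = l}, m.1 K k.1 =
      ∑ k : {k : orb K →[G] Y // g.comp k = l},
        ∑ h : {h : orb K →[G] X // f.comp h = k.1}, m.1 K h.1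
    rw [← Fintype.sum_sigma' (fun (k : {k : orb K →[G] Y // g.comp k = l})
      (h : {h : orb K →[G] X // f.comp h = k.1}) => m.1 K h.1)]
    refine Fintype.sum_equiv
      { toFun := fun k => ⟨⟨f.comp k.1, by rw [← casc, k.2]⟩, ⟨k.1, rfl⟩⟩
        invFun := fun x => ⟨x.2.1, by rw [casc, x.2.2, x.1.2]⟩
        left_inv := fun k => rfl
        right_inv := fun x => ?_ } _ _ fun k => rfl
    obtain ⟨⟨k, hk⟩, ⟨h, hh⟩⟩ := x
    have hh' : f.comp h = k := hh
    subst hh'
    rfl
  base_change {P X Y Z} p q f g hp hg hsq m := by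
    apply Subtype.ext
    funext K h
    show ∑ k : {k : orb K →[G] Y // g.comp k = f.comp h}, m.1 K k.1 =
      ∑ l : {l : orb K →[G] P // p.comp l = h}, m.1 K (q.comp l.1)
    symm
    let e : {l : orb K →[G] P // p.comp l = h} → {k : orb K →[G] Y // g.comp k = f.comp h} :=
      fun l => ⟨q.comp l.1, MulActionHom.ext fun y => by
        have h1 : p (l.1 y) = h y := DFunLike.congr_fun l.2 y
        show g (q (l.1 y)) = f (h y)
        rw [← h1, hsq.1]⟩
    refine Fintype.sum_bijective e ⟨?_, ?_⟩ _ _ fun h => rfl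
    · intro l l' hll
      apply Subtype.ext
      apply MulActionHom.ext
      intro y
      have h1 : p (l.1 y) = h y := DFunLike.congr_fun l.2 y
      have h2 : p (l'.1 y) = h y := DFunLike.congr_fun l'.2 y
      have h3 : q (l.1 y) = q (l'.1 y) := DFunLike.congr_fun (congrArg Subtype.val hll) y
      obtain ⟨u, _, hu⟩ := hsq.2 (h y) (q (l'.1 y)) (by rw [← h2, hsq.1])
      rw [hu (l.1 y) ⟨h1, h3⟩, hu (l'.1 y) ⟨h2, rfl⟩]
    · rintro ⟨k, hk⟩
      have h1 : ∀ y, f (h y) = g (k y) := fun y => (DFunLike.congr_fun hk y).symm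
      choose φ hφ hφu using fun y => hsq.2 (h y) (k y) (h1 y)
      refine ⟨⟨⟨φ, fun a y => ?_⟩, MulActionHom.ext fun y => (hφ y).1⟩, Subtype.ext
        (MulActionHom.ext fun y => (hφ y).2)⟩
      symm
      apply hφu (a • y)
      exact ⟨by rw [id, map_smul, (hφ y).1, map_smul], by rw [id, map_smul, (hφ y).2, map_smul]⟩
  additive i j hij := fam_additive F i j hij

theorem t_PSI (hF : S_FACT) (hO : S_ORTH) : S_PSI := by
  intro G _ _ O F
  refine ⟨Psi F, ⟨{ ev := fun {T K} f =>
      { toFun := fun m => (show Fam F T from m).1 K f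
        map_add' := fun _ _ => rfl
        map_smul' := fun _ _ => rfl }
                    ev_dense := fun {T J K} σ h f m => (show Fam F T from m).2 J K σ h f
                    ev_bij := fun T a ha => ⟨(⟨a, ha⟩ : Fam F T), fun K f => rfl, fun m hm => by
                      apply Subtype.ext
                      funext K f
                      exact hm K f⟩
                    ev_res := fun {_ _} g {_} f m => rfl
                    ev_tr := fun {_ _} g hg {_} f m => rfl }⟩⟩

end

end Pool.Agent.Q20.MK
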