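import Mathlib
import Pool.Agent.Q20.MK.FR

/-!
# Project MK: restrictions of free presheaves are projective
-/

set_option linter.unusedVariables false
set_option linter.unusedSectionVars false
set_option linter.style.haveILetI false

open CategoryTheory MulAction

namespace Pool.Agent.Q20.MK

section

variable {G : Type} [Group G] [Finite G]

/-- Factorisations of `f` as an admissible map after a dense map. -/
abbrev Fct (O : TransferSystem G) {J K : Subgroup G} (f : orb J →[G] orb K) :=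
  Σ A : Subgroup G, {p : (orb J →[G] orb A) × (orb A →[G] orb K) //
    O.DenseMap p.1 ∧ O.AdmMap p.2 ∧ p.2.comp p.1 = f}

noncomputable instance fintypeFct (O : TransferSystem G) {J K : Subgroup G}
    (f : orb J →[G] orb K) : Fintype (Fct O f) := by
  haveI : Finite ((A : Subgroup G) × {p : (orb J →[G] orb A) × (orb A →[G] orb K) //
    O.DenseMap p.1 ∧ O.AdmMap p.2 ∧ p.2.comp p.1 = f}) := inferInstance
  exact Fintype.ofFinite _

theorem dense_of_comp (O : TransferSystem G) {J A : Subgroup G} {T : GSet G}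
    (σ : orb J →[G] orb A) (α : orb A →[G] T) (h : O.DenseMap (α.comp σ)) : O.DenseMap α := by
  intro y
  obtain ⟨x, rfl⟩ := surj_orb σ y
  exact dense_right O (h x) (stab_le_map σ x) (stab_le_map α _)

theorem fct_bij (hO : S_ORTH) (O : TransferSystem G) {J' J K : Subgroup G}
    (ρ : orb J' →[G] orb J) (hρ : O.DenseMap ρ) (f : orb J →[G] orb K) :
    Function.Bijective (fun w : Fct O f =>
      (⟨w.1, ⟨(w.2.1.1.comp ρ, w.2.1.2), denseMap_comp O hρ w.2.2.1, w.2.2.2.1, by
        show w.2.1.2.comp (w.2.1.1.comp ρ) = f.comp ρ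
        rw [← casc, w.2.2.2.2]⟩⟩ : Fct O (f.comp ρ))) := by
  constructor
  · rintro ⟨A, ⟨⟨σ, α⟩, h1⟩⟩ ⟨B, ⟨⟨τ, β⟩, h2⟩⟩ h
    have hAB : A = B := congrArg Sigma.fst h
    subst hAB
    have h3 := eq_of_heq (Sigma.mk.inj h).2
    have h4 := congrArg Subtype.val h3
    have h5 : σ.comp ρ = τ.comp ρ := congrArg Prod.fst h4
    have h6 : α = β := congrArg Prod.snd h4
    have h7 : σ = τ := by
      apply MulActionHom.ext
      intro y
      obtain ⟨x, rfl⟩ := surj_orb ρ y
      exact DFunLike.congr_fun h5 x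
    subst h6 h7
    rfl
  · rintro ⟨A, ⟨⟨τ, α⟩, h1, h2, h3⟩⟩
    obtain ⟨t, ⟨ht1, ht2⟩, _⟩ := hO G O J' J (orb A) (orb K) ρ α τ f hρ h2 h3
    have ht : O.DenseMap t := by
      intro y
      obtain ⟨x, rfl⟩ := surj_orb ρ y
      have h4 := h1 x
      rw [← ht1] at h4
      exact dense_right O h4 (stab_le_map ρ x) (stab_le_map t _)
    refine ⟨⟨A, ⟨(t, α), ht, h2, ht2⟩⟩, ?_⟩
    subst ht1
    rfl

/-- Maps out of the restriction of a free presheaf. -/
noncomputable def freeMap' {O O' : TransferSystem G} (h : ∀ K H, O.adm K H → O'.adm K H)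
    (V : DCat O → Type) (E : DFun O')
    (y : ∀ (J : DCat O') (K : DCat O), V K → ((incl h).obj J ⟶ K) → E.obj (Opposite.op J))
    (hy : ∀ (J' J : DCat O') (K : DCat O) (v : V K) (ρ : J' ⟶ J) (f : (incl h).obj J ⟶ K),
      y J' K v ((incl h).map ρ ≫ f) = (E.map ρ.op).hom (y J K v f)) :
    (resFun h).obj (freeF (DCat O) V) ⟶ E where
  app J := ModuleCat.ofHom (Finsupp.linearCombination ℚ
    (fun z : Σ K : DCat O, V K × ((incl h).obj J.unop ⟶ K) => y J.unop z.1 z.2.1 z.2.2))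
  naturality J J' ρ := by
    apply ModuleCat.hom_ext
    apply Finsupp.lhom_ext
    intro z c
    show Finsupp.linearCombination ℚ _ (Finsupp.lmapDomain ℚ ℚ _ (Finsupp.single z c)) =
      (E.map ρ).hom (Finsupp.linearCombination ℚ _ (Finsupp.single z c))
    rw [Finsupp.lmapDomain_apply, Finsupp.mapDomain_single, Finsupp.linearCombination_single,
      Finsupp.linearCombination_single, map_smul]
    congr 1
    exact hy _ _ _ z.2.1 ρ.unop z.2.2

theorem freeMap'_single {O O' : TransferSystem G} (h : ∀ K H, O.adm K H → O'.adm K H)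
    (V : DCat O → Type) (E : DFun O')
    (y : ∀ (J : DCat O') (K : DCat O), V K → ((incl h).obj J ⟶ K) → E.obj (Opposite.op J))
    (hy : ∀ (J' J : DCat O') (K : DCat O) (v : V K) (ρ : J' ⟶ J) (f : (incl h).obj J ⟶ K),
      y J' K v ((incl h).map ρ ≫ f) = (E.map ρ.op).hom (y J K v f))
    (J : DCat O') (K : DCat O) (v : V K) (f : (incl h).obj J ⟶ K) :
    ((freeMap' h V E y hy).app (Opposite.op J)).hom
      (Finsupp.single (⟨K, v, f⟩ : Σ K : DCat O, V K × ((incl h).obj J ⟶ K)) (1 : ℚ)) =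
      y J K v f := by
  show Finsupp.linearCombination ℚ _ (Finsupp.single _ (1 : ℚ)) = _
  rw [Finsupp.linearCombination_single, one_smul]

theorem free'_ext {O O' : TransferSystem G} (h : ∀ K H, O.adm K H → O'.adm K H)
    {V : DCat O → Type} {E : DFun O'} {g k : (resFun h).obj (freeF (DCat O) V) ⟶ E}
    (H : ∀ (J : DCat O') (K : DCat O) (v : V K) (f : (incl h).obj J ⟶ K),
      (g.app (Opposite.op J)).hom
        (Finsupp.single (⟨K, v, f⟩ : Σ K : DCat O, V K × ((incl h).obj J ⟶ K)) (1 : ℚ)) =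
      (k.app (Opposite.op J)).hom
        (Finsupp.single (⟨K, v, f⟩ : Σ K : DCat O, V K × ((incl h).obj J ⟶ K)) (1 : ℚ))) :
    g = k := by
  apply NatTrans.ext
  funext J
  apply ModuleCat.hom_ext
  apply Finsupp.lhom_ext'
  intro z
  apply LinearMap.ext_ring
  exact H J.unop z.1 z.2.1 z.2.2

theorem free'_nat {O O' : TransferSystem G} (h : ∀ K H, O.adm K H → O'.adm K H)
    {V : DCat O → Type} {E : DFun O'} (g : (resFun h).obj (freeF (DCat O) V) ⟶ E)
    (J' J : DCat O') (K : DCat O) (v : V K) (ρ : J' ⟶ J) (f : (incl h).obj J ⟶ K) :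
    (g.app (Opposite.op J')).hom (Finsupp.single
        (⟨K, v, (incl h).map ρ ≫ f⟩ : Σ K : DCat O, V K × ((incl h).obj J' ⟶ K)) (1 : ℚ)) =
      (E.map ρ.op).hom ((g.app (Opposite.op J)).hom (Finsupp.single
        (⟨K, v, f⟩ : Σ K : DCat O, V K × ((incl h).obj J ⟶ K)) (1 : ℚ))) := by
  have h1 := congrArg (fun z => z.hom (Finsupp.single
    (⟨K, v, f⟩ : Σ K : DCat O, V K × ((incl h).obj J ⟶ K)) (1 : ℚ))) (g.naturality ρ.op)
  have h2 : ((((resFun h).obj (freeF (DCat O) V)).map ρ.op) ≫ g.app (Opposite.op J')).hom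
      (Finsupp.single (⟨K, v, f⟩ : Σ K : DCat O, V K × ((incl h).obj J ⟶ K)) (1 : ℚ)) =
      (g.app (Opposite.op J')).hom (Finsupp.single
        (⟨K, v, (incl h).map ρ ≫ f⟩ : Σ K : DCat O, V K × ((incl h).obj J' ⟶ K)) (1 : ℚ)) := by
    show (g.app (Opposite.op J')).hom (Finsupp.lmapDomain ℚ ℚ _ (Finsupp.single
      (⟨K, v, f⟩ : Σ K : DCat O, V K × ((incl h).obj J ⟶ K)) (1 : ℚ))) = _
    rw [Finsupp.lmapDomain_apply, Finsupp.mapDomain_single]
    rfl
  exact h2.symm.trans h1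

theorem map_dHom_comp {O : TransferSystem G} (E : DFun O) {J' J K : Subgroup G}
    (ρ : orb J' →[G] orb J) (hρ : O.DenseMap ρ) (σ : orb J →[G] orb K) (hσ : O.DenseMap σ)
    (hσρ : O.DenseMap (σ.comp ρ)) (x : E.obj (Opposite.op ⟨K⟩)) :
    (E.map (dHom O (σ.comp ρ) hσρ).op).hom x =
      (E.map (dHom O ρ hρ).op).hom ((E.map (dHom O σ hσ).op).hom x) := by
  have h1 : (dHom O (σ.comp ρ) hσρ).op = (dHom O σ hσ).op ≫ (dHom O ρ hρ).op := rfl
  rw [h1, CategoryTheory.Functor.map_comp]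
  rfl

theorem t_RSF (hF : S_FACT) (hO : S_ORTH) : S_RSF := by
  intro G _ _ O O' h V
  classical
  refine ⟨fun {E X} g e he => ?_⟩
  have hs := surj_of_epi e
  -- the elements to be lifted
  let x : ∀ (J : Subgroup G) (K : DCat O), V K → ∀ f : orb J →[G] orb K.sub, O.DenseMap f →
      X.obj (Opposite.op (⟨J⟩ : DCat O')) := fun J K v f hf =>
    (g.app (Opposite.op (⟨J⟩ : DCat O'))).hom (Finsupp.single
      (⟨K, v, ⟨f, hf⟩⟩ : Σ K : DCat O, V K × ((incl h).obj (⟨J⟩ : DCat O') ⟶ K)) (1 : ℚ))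
  have hx : ∀ (J' J : Subgroup G) (K : DCat O) (v : V K) (ρ : orb J' →[G] orb J)
      (hρ : O'.DenseMap ρ) (f : orb J →[G] orb K.sub) (hf : O.DenseMap f)
      (hfρ : O.DenseMap (f.comp ρ)),
      x J' K v (f.comp ρ) hfρ = (X.map (dHom O' ρ hρ).op).hom (x J K v f hf) := by
    intro J' J K v ρ hρ f hf hfρ
    exact free'_nat h g ⟨J'⟩ ⟨J⟩ K v (dHom O' ρ hρ) ⟨f, hf⟩
  choose s hs' using fun (J : (DCat O')ᵒᵖ) => (hs J)
  let z : ∀ (K : DCat O), V K → ∀ (A : Subgroup G), (orb A →[G] orb K.sub) →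
      E.obj (Opposite.op (⟨A⟩ : DCat O')) := fun K v A α =>
    if hα : O.DenseMap α then s _ (x A K v α hα) else 0
  have hz : ∀ (K : DCat O) (v : V K) (A : Subgroup G) (α : orb A →[G] orb K.sub)
      (hα : O.DenseMap α), (e.app (Opposite.op (⟨A⟩ : DCat O'))).hom (z K v A α) =
        x A K v α hα := by
    intro K v A α hα
    show (e.app (Opposite.op (⟨A⟩ : DCat O'))).hom (if hα : O.DenseMap α then _ else 0) = _
    rw [dif_pos hα]
    exact hs' _ _
  -- the lifts
  let y : ∀ (J : Subgroup G) (K : DCat O), V K → (orb J →[G] orb K.sub) →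
      E.obj (Opposite.op (⟨J⟩ : DCat O')) := fun J K v f =>
    ((Fintype.card (Fct O' f) : ℚ))⁻¹ • ∑ w : Fct O' f,
      (E.map (dHom O' w.2.1.1 w.2.2.1).op).hom (z K v w.1 w.2.1.2)
  have hy : ∀ (J' J : Subgroup G) (K : DCat O) (v : V K) (ρ : orb J' →[G] orb J)
      (hρ : O'.DenseMap ρ) (f : orb J →[G] orb K.sub),
      y J' K v (f.comp ρ) = (E.map (dHom O' ρ hρ).op).hom (y J K v f) := by
    intro J' J K v ρ hρ f
    have hb := fct_bij hO O' ρ hρ f
    show _ • _ = (E.map (dHom O' ρ hρ).op).hom (_ • _)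
    rw [map_smul, map_sum, ← Fintype.card_of_bijective hb]
    congr 1
    symm
    refine Fintype.sum_bijective _ hb _ _ fun w => ?_
    exact (map_dHom_comp E ρ hρ w.2.1.1 w.2.2.1 _ _).symm
  have hey : ∀ (J : Subgroup G) (K : DCat O) (v : V K) (f : orb J →[G] orb K.sub)
      (hf : O.DenseMap f), (e.app (Opposite.op (⟨J⟩ : DCat O'))).hom (y J K v f) =
        x J K v f hf := by
    intro J K v f hf
    have hc : (Fintype.card (Fct O' f) : ℚ) ≠ 0 := by
      obtain ⟨A, σ, α, h1, h2, h3⟩ := hF G O' J (orb K.sub) f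
      have h4 : 0 < Fintype.card (Fct O' f) :=
        Fintype.card_pos_iff.mpr ⟨⟨A, ⟨(σ, α), h1, h2, h3⟩⟩⟩
      exact_mod_cast h4.ne'
    have h5 : ∀ w : Fct O' f, (e.app (Opposite.op (⟨J⟩ : DCat O'))).hom
        ((E.map (dHom O' w.2.1.1 w.2.2.1).op).hom (z K v w.1 w.2.1.2)) = x J K v f hf := by
      rintro ⟨A, ⟨⟨σ, α⟩, h1, h2, h3⟩⟩
      have hα : O.DenseMap α := by
        apply dense_of_comp O σ α
        rw [h3]
        exact hf
      have h6 := congrArg (fun q => q.hom (z K v A α)) (e.naturality (dHom O' σ h1).op)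
      have h7 : (e.app (Opposite.op (⟨J⟩ : DCat O'))).hom
          ((E.map (dHom O' σ h1).op).hom (z K v A α)) =
          (X.map (dHom O' σ h1).op).hom ((e.app (Opposite.op (⟨A⟩ : DCat O'))).hom
            (z K v A α)) := h6
      rw [hz K v A α hα] at h7
      refine h7.trans ?_
      subst h3
      exact (hx J A K v σ h1 α hα hf).symm
    show (e.app (Opposite.op (⟨J⟩ : DCat O'))).hom (_ • _) = _
    rw [map_smul, map_sum, Finset.sum_congr rfl fun w _ => h5 w, Finset.sum_const,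
      Finset.card_univ, ← Nat.cast_smul_eq_nsmul ℚ, smul_smul, inv_mul_cancel₀ hc, one_smul]
  refine ⟨freeMap' h V E (fun J K v f => y J.sub K v f.1) (fun J' J K v ρ f => ?_), ?_⟩
  · exact hy J'.sub J.sub K v ρ.1 ρ.2 f.1
  · apply free'_ext h
    intro J K v f
    exact (congrArg (fun q => (e.app (Opposite.op J)).hom q)
      (freeMap'_single h V E (fun J K v f => y J.sub K v f.1)
        (fun J' J K v ρ f => hy J'.sub J.sub K v ρ.1 ρ.2 f.1) J K v f)).trans
      (hey J.sub K v f.1 f.2)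

end

end Pool.Agent.Q20.MK
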