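import Mathlib
import Pool.Agent.Q20.MK.Gld
import Pool.Agent.Q20.MK.DRS
import Pool.Agent.Q20.MK.KL
import Pool.Agent.Q20.MK.ETS
import Pool.Agent.Q20.MK.ETI
import Pool.Agent.Q20.MK.PSI
import Pool.Agent.Q20.MK.FF
import Pool.Agent.Q20.MK.RSF
import Pool.Agent.Q20.MK.GRP

/-!
# Project MK: final assembly
-/

set_option linter.unusedVariables false
set_option linter.style.haveILetI false

open CategoryTheory MulAction Limits

namespace Pool.Agent.Q20.MK

section general

universe v₁ v₂ u₁ u₂

variable {A : Type u₁} [Category.{v₁} A] [Abelian A] {B : Type u₂} [Category.{v₂} B] [Abelian B]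

theorem pd_succ_iff [EnoughProjectives A] (X : A) (n : ℕ) (h : HasProjectiveDimensionLT X (n + 2)) :
    ∃ S : ShortComplex A, S.ShortExact ∧ Projective S.X₂ ∧ HasProjectiveDimensionLT S.X₁ (n + 1) ∧
      S.X₃ = X := by
  let S : ShortComplex A := ShortComplex.mk (kernel.ι (Projective.π X)) (Projective.π X)
    (kernel.condition _)
  have hS : S.ShortExact :=
    { exact := ShortComplex.exact_of_f_is_kernel S (kernelIsKernel (Projective.π X))
      mono_f := inferInstanceAs (Mono (kernel.ι (Projective.π X)))
      epi_g := inferInstanceAs (Epi (Projective.π X)) }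
  have hP : Projective S.X₂ := inferInstanceAs (Projective (Projective.over X))
  exact ⟨S, hS, hP, (hS.hasProjectiveDimensionLT_X₃_iff n hP).mp h, rfl⟩

/-- An exact functor which preserves projective objects does not increase the projective
dimension. -/
theorem pd_map [EnoughProjectives A] (F : A ⥤ B) [PreservesFiniteLimits F]
    [PreservesFiniteColimits F] (hF : ∀ P : A, Projective P → Projective (F.obj P)) (n : ℕ) :
    ∀ X : A, HasProjectiveDimensionLT X n → HasProjectiveDimensionLT (F.obj X) n := by
  haveI : F.PreservesZeroMorphisms := inferInstance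
  induction n with
  | zero =>
    intro X hX
    rw [hasProjectiveDimensionLT_zero_iff_isZero] at hX ⊢
    exact F.map_isZero hX
  | succ n ih =>
    intro X hX
    cases n with
    | zero =>
      have h1 : Projective X := projective_iff_hasProjectiveDimensionLT_one.mpr hX
      haveI := hF X h1
      infer_instance
    | succ n =>
      obtain ⟨S, hS, hP, h1, rfl⟩ := pd_succ_iff X n hX
      have hS' : (S.map F).ShortExact := hS.map_of_exact F
      exact (hS'.hasProjectiveDimensionLT_X₃_iff n (hF _ hP)).mpr (ih _ h1)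

theorem gldim_le_iff (n : ℕ) :
    gldim A ≤ (n : WithBot ℕ∞) ↔ ∀ X : A, HasProjectiveDimensionLT X (n + 1) := by
  rw [gldim, iSup_le_iff]
  refine forall_congr' fun X => ?_
  rw [projectiveDimension_le_iff]

/-- If every bound for `gldim A` is a bound for `gldim B` then `gldim B ≤ gldim A`, provided that
`A` has a nonzero object or `B` has none. -/
theorem gldim_mono (h : ∀ n : ℕ, (∀ X : A, HasProjectiveDimensionLT X (n + 1)) →
    ∀ Y : B, HasProjectiveDimensionLT Y (n + 1)) (h0 : ∃ X : A, ¬ IsZero X) :
    gldim B ≤ gldim A := by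
  obtain ⟨X, hX⟩ := h0
  have hb : gldim A ≠ ⊥ := by
    intro hb
    have h1 : projectiveDimension X ≤ gldim A := le_iSup (fun X : A => projectiveDimension X) X
    rw [hb, le_bot_iff, projectiveDimension_eq_bot_iff] at h1
    exact hX h1
  obtain ⟨d, hd⟩ := WithBot.ne_bot_iff_exists.mp hb
  by_cases htop : d = ⊤
  · rw [← hd, htop]
    exact le_top
  · obtain ⟨n, rfl⟩ := ENat.ne_top_iff_exists.mp htop
    rw [← hd]
    have h1 : gldim A ≤ (n : WithBot ℕ∞) := by rw [← hd]; rfl
    exact (gldim_le_iff n).mpr (h n ((gldim_le_iff n).mp h1))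

theorem pd_equiv (e : A ≌ B) [EnoughProjectives A] (n : ℕ) (X : A)
    (hX : HasProjectiveDimensionLT X n) : HasProjectiveDimensionLT (e.functor.obj X) n :=
  pd_map e.functor (fun P hP => (e.map_projective_iff P).mpr hP) n X hX

theorem pd_all_equiv (e : A ≌ B) [EnoughProjectives A] (n : ℕ)
    (h : ∀ X : A, HasProjectiveDimensionLT X n) (Y : B) : HasProjectiveDimensionLT Y n := by
  haveI : HasProjectiveDimensionLT ((e.inverse ⋙ e.functor).obj Y) n :=
    pd_equiv e n (e.inverse.obj Y) (h _)
  exact hasProjectiveDimensionLT_of_iso (e.counitIso.app Y) n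

end general

section

theorem kl : S_KL := t_KL t_JI (t_DEC t_JI)

theorem ets : S_ETS := t_ETS t_FACT kl t_PTD

theorem eti : S_ETI := t_ETI t_JI (t_DEC t_JI) kl

theorem ff : S_FF := t_FF kl ets eti

theorem es : S_ES := t_ES t_FACT (t_PSI t_FACT t_ORTH) ets eti

theorem rsf : S_RSF := t_RSF t_FACT t_ORTH

variable {G : Type} [Group G] [Finite G]

theorem enough (C : Type) [SmallCategory C] :
    EnoughProjectives (Cᵒᵖ ⥤ ModuleCat.{0} ℚ) := by
  refine ⟨fun F => ?_⟩
  obtain ⟨V, e, he⟩ := t_FRQ C F
  haveI := t_FRP C V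
  exact ⟨⟨freeF C V, e⟩⟩

theorem res_proj {O O' : TransferSystem G} (h : ∀ K H, O.adm K H → O'.adm K H)
    (P : DFun O) (hP : Projective P) : Projective ((resFun h).obj P) := by
  obtain ⟨V, e, he⟩ := t_FRQ (DCat O) P
  let s := Projective.factorThru (𝟙 P) e
  have hs : s ≫ e = 𝟙 P := Projective.factorThru_comp _ _
  haveI := rsf G O O' h V
  have r : Retract ((resFun h).obj P) ((resFun h).obj (freeF (DCat O) V)) :=
    { i := (resFun h).map s
      r := (resFun h).map e
      retract := by rw [← CategoryTheory.Functor.map_comp, hs, CategoryTheory.Functor.map_id] }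
  exact r.projective

/-- The presheaf category is equivalent to the category of Mackey functors. -/
theorem eqv (O : TransferSystem G) : Nonempty (Mack O ≌ DFun O) := by
  obtain ⟨e⟩ := t_DRS G O
  obtain ⟨h1, h2⟩ := ff t_PTD G O
  have h3 := es t_PTD G O
  haveI : (Phi t_PTD O).IsEquivalence := {}
  exact ⟨e.trans (Phi t_PTD O).asEquivalence⟩

theorem dfun_mono {O O' : TransferSystem G} (h : ∀ K H, O.adm K H → O'.adm K H) (n : ℕ)
    (hn : ∀ X : DFun O, HasProjectiveDimensionLT X (n + 1)) (M : DFun O') :
    HasProjectiveDimensionLT M (n + 1) := by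
  haveI := enough (DCat O)
  haveI : PreservesFiniteLimits (resFun h) := inferInstanceAs
    (PreservesFiniteLimits ((Functor.whiskeringLeft _ _ _).obj (incl h).op))
  haveI : PreservesFiniteColimits (resFun h) := inferInstanceAs
    (PreservesFiniteColimits ((Functor.whiskeringLeft _ _ _).obj (incl h).op))
  exact t_DEV G O O' h n (fun X => pd_map (resFun h) (res_proj h) _ X (hn X)) M

theorem dfun_nonzero (O : TransferSystem G) : ∃ X : DFun O, ¬ IsZero X := by
  refine ⟨freeF (DCat O) (fun _ => Unit), fun h => ?_⟩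
  have h1 := (Functor.isZero_iff _).mp h (Opposite.op ⟨⊥⟩)
  have h2 := ModuleCat.subsingleton_of_isZero h1
  let x : Σ K : DCat O, Unit × ((⟨⊥⟩ : DCat O) ⟶ K) := ⟨⟨⊥⟩, (), 𝟙 _⟩
  have h3 : (Finsupp.single x (1 : ℚ)) = 0 := @Subsingleton.elim _ h2 _ _
  exact one_ne_zero ((Finsupp.single_eq_zero).mp h3)

/-- The equivalence of rational `O`-Mackey functors with presheaves on the dense orbit
category. -/
noncomputable def mackEquiv (O : TransferSystem G) : Mack O ≌ DFun O :=
  Classical.choice (eqv O)

/-- The category of rational `O`-Mackey functors is abelian. -/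
theorem mack_abelian (O : TransferSystem G) : Nonempty (Abelian (Mack O)) := by
  haveI : HasFiniteProducts (Mack O) :=
    ⟨fun n => Adjunction.hasLimitsOfShape_of_equivalence (mackEquiv O).functor⟩
  exact ⟨abelianOfEquivalence (mackEquiv O).functor⟩

theorem all_iff (O : TransferSystem G) [Abelian (Mack O)] (n : ℕ) :
    (∀ X : Mack O, HasProjectiveDimensionLT X n) ↔ ∀ X : DFun O, HasProjectiveDimensionLT X n := by
  haveI := enough (DCat O)
  haveI : EnoughProjectives (Mack O) :=
    (mackEquiv O).enoughProjectives_iff.mpr (enough (DCat O))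
  exact ⟨fun h => pd_all_equiv (mackEquiv O) n h, fun h => pd_all_equiv (mackEquiv O).symm n h⟩

theorem mack_nonzero (O : TransferSystem G) [Abelian (Mack O)] : ∃ X : Mack O, ¬ IsZero X := by
  obtain ⟨X, hX⟩ := dfun_nonzero O
  refine ⟨(mackEquiv O).inverse.obj X, fun h => hX ?_⟩
  have h1 : IsZero ((mackEquiv O).functor.obj ((mackEquiv O).inverse.obj X)) :=
    (mackEquiv O).functor.map_isZero h
  exact h1.of_iso ((mackEquiv O).counitIso.app X).symm

theorem final_mono {O O' : TransferSystem G} [Abelian (Mack O)] [Abelian (Mack O')]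
    (h : ∀ K L, O.adm K L → O'.adm K L) : gldim (Mack O') ≤ gldim (Mack O) := by
  refine gldim_mono (fun n hn => ?_) (mack_nonzero O)
  exact (all_iff O' (n + 1)).mpr (dfun_mono h n ((all_iff O (n + 1)).mp hn))

theorem final_zero (O : TransferSystem G) [Abelian (Mack O)] :
    gldim (Mack O) = 0 ↔ ∀ K L : Subgroup G, K ≤ L → O.adm K L := by
  constructor
  · intro h0
    have h1 : gldim (Mack O) ≤ ((0 : ℕ) : WithBot ℕ∞) := by rw [h0]; rfl
    have h2 := (all_iff O (0 + 1)).mp ((gldim_le_iff 0).mp h1)
    exact t_NGR G O (fun M => projective_iff_hasProjectiveDimensionLT_one.mpr (h2 M))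
  · intro h
    have h1 : ∀ M : DFun O, HasProjectiveDimensionLT M (0 + 1) := fun M => by
      haveI := t_GRP G O h M
      infer_instance
    have h2 := (gldim_le_iff 0).mpr ((all_iff O (0 + 1)).mpr h1)
    refine le_antisymm h2 ?_
    obtain ⟨X, hX⟩ := mack_nonzero O
    have h3 : projectiveDimension X ≤ gldim (Mack O) :=
      le_iSup (fun X : Mack O => projectiveDimension X) X
    refine le_trans ?_ h3
    by_contra hc
    rw [not_le] at hc
    have h4 : projectiveDimension X = ⊥ := by
      rcases hp : projectiveDimension X with _ | d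
      · rfl
      · exfalso
        rw [hp] at hc
        have h5 : (d : WithBot ℕ∞) < ((0 : ℕ∞) : WithBot ℕ∞) := hc
        rw [WithBot.coe_lt_coe] at h5
        exact not_lt_bot h5
    exact hX (projectiveDimension_eq_bot_iff X |>.mp h4)

end

end Pool.Agent.Q20.MK
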